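import Pool.Agent.BinUp.Defs

/-! MP_f7f4e7_lc, upper bound, module Bas. -/

namespace Pool.Agent.BinUp

open Finset Pool.Agent.Binning

section Bas
variable {n m : ℕ} {f : Fin n → Fin m}

theorem Bas_step (hf : IsCoarsening f) (i : Fin n) (h : (i : ℕ) + 1 < n) :
    (f ⟨i + 1, h⟩ : ℕ) ≤ f i + 1 := by
  by_contra hc
  push Not at hc
  have hlt : (f i : ℕ) + 1 < m := lt_trans hc (f ⟨i + 1, h⟩).isLt
  obtain ⟨x, hx⟩ := hf.2 ⟨f i + 1, hlt⟩
  have hxv : (f x : ℕ) = f i + 1 := by rw [hx]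
  rcases le_or_gt (x : ℕ) i with hxi | hxi
  · have := hf.1 (show x ≤ i from hxi)
    have h2 : (f x : ℕ) ≤ f i := this
    omega
  · have := hf.1 (show (⟨i + 1, h⟩ : Fin n) ≤ x from by
      rw [Fin.le_def]; simpa using hxi)
    have h2 : (f ⟨i + 1, h⟩ : ℕ) ≤ f x := this
    omega

theorem co_lip (hf : IsCoarsening f) {i i' : Fin n} (h : i ≤ i') : (f i' : ℕ) + i ≤ f i + i' := by
  have key : ∀ d : ℕ, ∀ i' : Fin n, (i' : ℕ) = i + d → (f i' : ℕ) + i ≤ f i + i' := by
    intro d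
    induction d with
    | zero =>
      intro i' hi'
      have : i' = i := Fin.ext (by simpa using hi')
      rw [this]
    | succ d ih =>
      intro i' hi'
      have hlt : (i : ℕ) + d < n := by have := i'.isLt; omega
      have h1 := ih ⟨i + d, hlt⟩ rfl
      have h2 := Bas_step hf ⟨i + d, hlt⟩ (by have := i'.isLt; simp only; omega)
      have h3 : (⟨(⟨i + d, hlt⟩ : Fin n) + 1, by have := i'.isLt; simp only; omega⟩ : Fin n) = i' := by
        apply Fin.ext; simp only; omega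
      rw [h3] at h2
      simp only at h1 h2
      omega
  exact key (i' - i) i' (by have : (i : ℕ) ≤ i' := h; omega)

theorem Bas_zero (hf : IsCoarsening f) (h : 0 < n) : (f ⟨0, h⟩ : ℕ) = 0 := by
  have hm : 0 < m := lt_of_le_of_lt (Nat.zero_le _) (f ⟨0, h⟩).isLt
  obtain ⟨x, hx⟩ := hf.2 ⟨0, hm⟩
  have h1 := hf.1 (show (⟨0, h⟩ : Fin n) ≤ x from Nat.zero_le _)
  have h2 : (f ⟨0, h⟩ : ℕ) ≤ f x := h1
  rw [hx] at h2
  simpa using h2

theorem co_le (hf : IsCoarsening f) (i : Fin n) : (f i : ℕ) ≤ i := by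
  have hn : 0 < n := lt_of_le_of_lt (Nat.zero_le _) i.isLt
  have h1 := co_lip hf (show (⟨0, hn⟩ : Fin n) ≤ i from Nat.zero_le _)
  have h2 := Bas_zero hf hn
  simp only at h1
  omega

theorem co_m_le (hf : IsCoarsening f) : m ≤ n := by
  simpa using Fintype.card_le_of_surjective f hf.2

theorem exc_mono (hf : IsCoarsening f) {i i' : Fin n} (h : i ≤ i') : exc f i ≤ exc f i' := by
  have h1 := co_lip hf h
  have h2 := co_le hf i
  have h3 := co_le hf i'
  unfold exc
  omega

theorem Bas_last (hf : IsCoarsening f) (h : 0 < n) :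
    (f ⟨n - 1, by omega⟩ : ℕ) = m - 1 := by
  have hm : 0 < m := lt_of_le_of_lt (Nat.zero_le _) (f ⟨0, h⟩).isLt
  obtain ⟨x, hx⟩ := hf.2 ⟨m - 1, by omega⟩
  have h1 := hf.1 (show x ≤ (⟨n - 1, by omega⟩ : Fin n) from by
    rw [Fin.le_def]; have := x.isLt; simp only; omega)
  have h2 : (f x : ℕ) ≤ f ⟨n - 1, by omega⟩ := h1
  rw [hx] at h2
  have h3 := (f ⟨n - 1, by omega⟩).isLt
  simp only at h2
  omega

theorem exc_le (hf : IsCoarsening f) (i : Fin n) : exc f i ≤ n - m := by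
  have hn : 0 < n := lt_of_le_of_lt (Nat.zero_le _) i.isLt
  have h1 := exc_mono hf (show i ≤ (⟨n - 1, by omega⟩ : Fin n) from by
    rw [Fin.le_def]; have := i.isLt; simp only; omega)
  have h2 := Bas_last hf hn
  have hm : 0 < m := lt_of_le_of_lt (Nat.zero_le _) (f i).isLt
  have h3 := co_m_le hf
  refine le_trans h1 ?_
  unfold exc
  rw [h2]
  simp only
  omega

theorem co_add_exc (hf : IsCoarsening f) (i : Fin n) : (f i : ℕ) + exc f i = i := by
  have := co_le hf i
  unfold exc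
  omega

theorem exists_coarse (hf : IsCoarsening f) {u : ℕ} (hu : 1 ≤ u) :
    ∃ t : Fin ((n - m) / u) → Fin n, IsCoarse u f t := by
  classical
  have hex : ∀ c : Fin ((n - m) / u), ∃ i : Fin n, ∀ x : Fin n, i ≤ x ↔ u * (c + 1) ≤ exc f x := by
    intro c
    have hc : (c : ℕ) + 1 ≤ (n - m) / u := c.isLt
    have hc' : (c + 1) * u ≤ n - m := (Nat.le_div_iff_mul_le hu).1 hc
    have hpos : 0 < n - m := lt_of_lt_of_le (Nat.mul_pos (Nat.succ_pos _) hu) hc'
    have hn : 0 < n := by omega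
    have hm : 0 < m := lt_of_le_of_lt (Nat.zero_le _) (f ⟨0, hn⟩).isLt
    have hlast : u * ((c : ℕ) + 1) ≤ exc f ⟨n - 1, by omega⟩ := by
      have h2 := Bas_last hf hn
      unfold exc
      rw [h2]
      simp only
      rw [mul_comm]
      omega
    have hP : ∃ x : ℕ, ∃ h : x < n, u * ((c : ℕ) + 1) ≤ exc f ⟨x, h⟩ := ⟨n - 1, by omega, hlast⟩
    obtain ⟨h0, h1⟩ := Nat.find_spec hP
    refine ⟨⟨Nat.find hP, h0⟩, fun x => ⟨fun hx => le_trans h1 (exc_mono hf hx), fun hx => ?_⟩⟩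
    exact Nat.find_min' hP ⟨x.isLt, hx⟩
  choose t ht using hex
  refine ⟨t, fun i => ?_⟩
  have h1 : lvl t i = #{c : Fin ((n - m) / u) | (c : ℕ) < exc f i / u} := by
    unfold lvl
    congr 1
    apply Finset.filter_congr
    intro c _
    have := ht c i
    rw [Fin.le_def] at this
    rw [this, ← Nat.succ_le_iff, Nat.le_div_iff_mul_le hu, mul_comm]
  have hle : exc f i / u ≤ (n - m) / u := Nat.div_le_div_right (exc_le hf i)
  rw [h1, Fin.card_filter_val_lt]
  exact Nat.min_eq_right hle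

theorem fib_card_pos (hf : IsCoarsening f) (j : Fin m) : 1 ≤ #(fib f j) := by
  obtain ⟨x, hx⟩ := hf.2 j
  exact Finset.card_pos.2 ⟨x, by simp [fib, hx]⟩

theorem fib_icc (hf : IsCoarsening f) (j : Fin m) : ∃ x y : Fin n, fib f j = Icc x y := by
  have hne : (fib f j).Nonempty := Finset.card_pos.1 (fib_card_pos hf j)
  refine ⟨(fib f j).min' hne, (fib f j).max' hne, ?_⟩
  ext i
  have hx := (fib f j).min'_mem hne
  have hy := (fib f j).max'_mem hne
  constructor
  · intro hi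
    exact Finset.mem_Icc.2 ⟨Finset.min'_le _ _ hi, Finset.le_max' _ _ hi⟩
  · intro hi
    obtain ⟨h1, h2⟩ := Finset.mem_Icc.1 hi
    have h3 : f ((fib f j).min' hne) = j := by simpa [fib] using hx
    have h4 : f ((fib f j).max' hne) = j := by simpa [fib] using hy
    have h5 := hf.1 h1
    have h6 := hf.1 h2
    rw [h3] at h5
    rw [h4] at h6
    simp only [fib, Finset.mem_filter, Finset.mem_univ, true_and]
    exact le_antisymm h6 h5

theorem sum_fib (hf : IsCoarsening f) : ∑ j, (#(fib f j) - 1) = n - m := by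
  have h1 : ∑ j, #(fib f j) = n := by
    have := Finset.card_eq_sum_card_fiberwise (s := (univ : Finset (Fin n))) (t := (univ : Finset (Fin m)))
      (f := f) (fun _ _ => Finset.mem_coe.2 (Finset.mem_univ _))
    rw [Finset.card_univ, Fintype.card_fin] at this
    exact this.symm
  rw [Finset.sum_tsub_distrib _ (fun j _ => fib_card_pos hf j), h1]
  simp

theorem fib_span (hf : IsCoarsening f) {j : Fin m} {i i' : Fin n} (h : i ∈ fib f j) (h' : i' ∈ fib f j) :
    (i' : ℕ) + 1 ≤ i + #(fib f j) := by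
  obtain ⟨x, y, hxy⟩ := fib_icc hf j
  have hsub : Icc i i' ⊆ fib f j := by
    rw [hxy] at h h' ⊢
    exact Finset.Icc_subset_Icc (Finset.mem_Icc.1 h).1 (Finset.mem_Icc.1 h').2
  have := Finset.card_le_card hsub
  rw [Fin.card_Icc] at this
  omega
end Bas

end Pool.Agent.BinUp
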