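import Pool.Agent.BinUp.Prob

/-! MP_f7f4e7_lc, upper bound, module Bern. -/

namespace Pool.Agent.BinUp

open Finset Pool.Agent.Binning

/-- one-sided Chernoff bound -/
theorem Bern_one {n s : ℕ} {p : Fin n → ℝ} (hp : IsDist p) {θ lam : ℝ} (hl : 0 ≤ lam)
    (hlθ : lam * θ ≤ 1) {v : Fin n → ℝ} (hv : ∀ i, |v i| ≤ θ) (t : ℝ) :
    Pr p s (fun ω => t < smp v ω - s * ∑ i, v i * p i) ≤
      Real.exp (lam ^ 2 * (s * ∑ i, v i ^ 2 * p i) - lam * t) := by
  classical
  have h1 : Pr p s (fun ω => t < smp v ω - s * ∑ i, v i * p i) ≤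
      Ex p s (fun ω => Real.exp (-lam * (s * ∑ i, v i * p i) - lam * t) *
        ∏ a, Real.exp (lam * v (ω a))) := by
    unfold Pr
    refine Ex_mono hp (fun ω => ?_)
    rw [← Real.exp_sum, ← Real.exp_add]
    split_ifs with h
    · refine Real.one_le_exp ?_
      have h2 : ∑ a, lam * v (ω a) = lam * smp v ω := by
        unfold smp
        rw [Finset.mul_sum]
      rw [h2]
      nlinarith [mul_le_mul_of_nonneg_left h.le hl]
    · exact (Real.exp_pos _).le
  refine h1.trans ?_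
  rw [Ex_mul_left, Ex_prod (fun i => Real.exp (lam * v i))]
  have h3 : ∑ i, p i * Real.exp (lam * v i) ≤
      Real.exp (lam * ∑ i, v i * p i + lam ^ 2 * ∑ i, v i ^ 2 * p i) := by
    have h4 : ∑ i, p i * Real.exp (lam * v i) ≤
        ∑ i, p i * (1 + lam * v i + (lam * v i) ^ 2) := by
      refine Finset.sum_le_sum (fun i _ => mul_le_mul_of_nonneg_left ?_ (hp.1 i))
      have h5 : |lam * v i| ≤ 1 := by
        rw [abs_mul, abs_of_nonneg hl]
        exact (mul_le_mul_of_nonneg_left (hv i) hl).trans hlθ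
      have h6 := Real.abs_exp_sub_one_sub_id_le h5
      have h7 := (abs_le.1 h6).2
      linarith
    have h8 : ∑ i, p i * (1 + lam * v i + (lam * v i) ^ 2) =
        1 + lam * ∑ i, v i * p i + lam ^ 2 * ∑ i, v i ^ 2 * p i := by
      have h9 : ∑ i, p i * (1 + lam * v i + (lam * v i) ^ 2) =
          ∑ i, (p i + lam * (v i * p i) + lam ^ 2 * (v i ^ 2 * p i)) :=
        Finset.sum_congr rfl (fun i _ => by ring)
      rw [h9, Finset.sum_add_distrib, Finset.sum_add_distrib, hp.2, ← Finset.mul_sum,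
        ← Finset.mul_sum]
    rw [h8] at h4
    refine h4.trans ?_
    have := Real.add_one_le_exp (lam * ∑ i, v i * p i + lam ^ 2 * ∑ i, v i ^ 2 * p i)
    linarith
  have h9 : 0 ≤ ∑ i, p i * Real.exp (lam * v i) :=
    Finset.sum_nonneg (fun i _ => mul_nonneg (hp.1 i) (Real.exp_pos _).le)
  have h10 : (∑ i, p i * Real.exp (lam * v i)) ^ s ≤
      Real.exp (s * (lam * ∑ i, v i * p i + lam ^ 2 * ∑ i, v i ^ 2 * p i)) := by
    rw [Real.exp_nat_mul]
    exact pow_le_pow_left₀ h9 h3 s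
  refine (mul_le_mul_of_nonneg_left h10 (Real.exp_pos _).le).trans ?_
  rw [← Real.exp_add]
  apply le_of_eq
  congr 1
  ring

/-- the choice of `λ` -/
theorem Bern_lam {κ θ W : ℝ} (hκ : 0 < κ) (hθ : 0 < θ) (_hW : 0 ≤ W) :
    ∃ lam : ℝ, 0 ≤ lam ∧ lam * θ ≤ 1 ∧
      lam ^ 2 * W - lam * (2 * √(κ * W) + 2 * θ * κ) ≤ -κ := by
  by_cases h : W ≤ κ * θ ^ 2
  · refine ⟨1 / θ, by positivity, by field_simp; exact le_rfl, ?_⟩
    have h1 : (1 / θ) ^ 2 * W ≤ κ := by
      rw [div_pow, one_pow, one_div, inv_mul_le_iff₀ (by positivity)]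
      linarith
    have h2 : (1 / θ) * (2 * √(κ * W) + 2 * θ * κ) = (1 / θ) * (2 * √(κ * W)) + 2 * κ := by
      field_simp
    rw [h2]
    have h3 : 0 ≤ (1 / θ) * (2 * √(κ * W)) := by positivity
    linarith
  · push Not at h
    have hW' : 0 < W := lt_of_le_of_lt (by positivity) h
    refine ⟨√(κ / W), Real.sqrt_nonneg _, ?_, ?_⟩
    · have h1 : √(κ / W) ≤ 1 / θ := by
        rw [← Real.sqrt_sq (show 0 ≤ 1 / θ by positivity)]
        apply Real.sqrt_le_sqrt
        rw [div_pow, one_pow, div_le_div_iff₀ hW' (by positivity)]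
        linarith
      calc √(κ / W) * θ ≤ (1 / θ) * θ := mul_le_mul_of_nonneg_right h1 hθ.le
        _ = 1 := by field_simp
    · have h1 : √(κ / W) ^ 2 = κ / W := Real.sq_sqrt (by positivity)
      have h2 : √(κ / W) ^ 2 * W = κ := by rw [h1]; field_simp
      have h3 : √(κ / W) * √(κ * W) = κ := by
        rw [← Real.sqrt_mul (by positivity)]
        rw [show κ / W * (κ * W) = κ ^ 2 by field_simp]
        exact Real.sqrt_sq hκ.le
      have h4 : 0 ≤ √(κ / W) * (2 * θ * κ) := by positivity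
      nlinarith

/-- Bernstein. `E e^{λ v} ≤ exp(λ E v + λ² E v²)` for `0 ≤ λ θ ≤ 1` (`e^x ≤ 1 + x + x²` for `|x| ≤ 1`), and
`λ = min (1/θ) √(κ/(s V))`. -/
theorem bernstein {n s : ℕ} {p : Fin n → ℝ} (hp : IsDist p) {κ θ : ℝ} (hκ : 0 < κ) (hθ : 0 < θ)
    {v : Fin n → ℝ} (hv : ∀ i, |v i| ≤ θ) :
    Pr p s (fun ω => ¬ Conc p κ θ v ω) ≤ 2 * Real.exp (-κ) := by
  set W : ℝ := s * ∑ i, v i ^ 2 * p i with hWdef
  set t : ℝ := 2 * √(κ * W) + 2 * θ * κ with ht
  have hW : 0 ≤ W :=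
    mul_nonneg (Nat.cast_nonneg s)
      (Finset.sum_nonneg (fun i _ => mul_nonneg (sq_nonneg _) (hp.1 i)))
  obtain ⟨lam, hl, hlθ, hb⟩ := Bern_lam hκ hθ hW
  have h1 := Bern_one (s := s) hp hl hlθ hv t
  have hv' : ∀ i, |(fun i => - v i) i| ≤ θ := fun i => by simpa using hv i
  have h2 := Bern_one (s := s) hp hl hlθ hv' t
  have e1 : ∑ i, (fun i => - v i) i ^ 2 * p i = ∑ i, v i ^ 2 * p i :=
    Finset.sum_congr rfl (fun i _ => by ring)
  have e2 : ∑ i, (fun i => - v i) i * p i = - ∑ i, v i * p i := by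
    rw [← Finset.sum_neg_distrib]
    exact Finset.sum_congr rfl (fun i _ => by ring)
  rw [e1, e2] at h2
  have h3 : Real.exp (lam ^ 2 * W - lam * t) ≤ Real.exp (-κ) := Real.exp_le_exp.2 hb
  have h4 : Pr p s (fun ω => ¬ Conc p κ θ v ω) ≤
      Pr p s (fun ω => t < smp v ω - s * ∑ i, v i * p i) +
      Pr p s (fun ω => t < smp (fun i => - v i) ω - s * (- ∑ i, v i * p i)) := by
    refine (Pr_mono hp ?_).trans (Pr_or hp _ _)
    intro ω hω
    unfold Conc at hω
    rw [not_le] at hω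
    rcases lt_abs.1 hω with h | h
    · left
      exact h
    · right
      have : smp (fun i => - v i) ω = - smp v ω := by
        unfold smp
        rw [← Finset.sum_neg_distrib]
      rw [this]
      calc t < -(smp v ω - s * ∑ i, v i * p i) := h
        _ = _ := by ring
  linarith

end Pool.Agent.BinUp
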