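import Pool.Agent.BinUp.Bas

/-! MP_f7f4e7_lc, upper bound, module Blk. -/

namespace Pool.Agent.BinUp

open Finset Pool.Agent.Binning

section Blk
variable {n m V u l : ℕ} {f : Fin n → Fin m} {t : Fin V → Fin n}

theorem Blk_lvl (ht : IsCoarse u f t) (hu : 1 ≤ u) (i : Fin n) :
    lvl t i * u ≤ exc f i ∧ exc f i < (lvl t i + 1) * u := by
  rw [ht i]
  exact ⟨Nat.div_mul_le_self _ _, Nat.lt_mul_of_div_lt (Nat.lt_succ_self _) hu⟩

theorem Blk_mem_blk (hu : 1 ≤ u) {i : Fin n} : i ∈ blk n u l ↔ l * u ≤ i ∧ (i : ℕ) < (l + 1) * u := by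
  simp only [blk, mem_filter, mem_univ, true_and]
  constructor
  · rintro rfl
    exact ⟨Nat.div_mul_le_self _ _, Nat.lt_mul_of_div_lt (Nat.lt_succ_self _) hu⟩
  · rintro ⟨h1, h2⟩
    exact Nat.div_eq_of_lt_le h1 h2

theorem Blk_mem_blk3 (hu : 1 ≤ u) {i : Fin n} :
    i ∈ blk3 n u l ↔ l * u ≤ i + u ∧ (i : ℕ) < (l + 2) * u := by
  simp only [blk3, mem_filter, mem_univ, true_and]
  have h1 : (i : ℕ) / u ≤ l + 1 ↔ (i : ℕ) < (l + 2) * u := by
    rw [← Nat.lt_succ_iff, Nat.div_lt_iff_lt_mul hu]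
  have h2 : l ≤ (i : ℕ) / u + 1 ↔ l * u ≤ i + u := by
    rw [← Nat.le_div_iff_mul_le hu, Nat.add_div_right _ hu]
  rw [h1, h2]
  exact and_comm

theorem good_in (hf : IsCoarsening f) (hu : 1 ≤ u) (ht : IsCoarse u f t) (hg : GoodB t u l) (hl : l * u < n)
    {i : Fin n} (hi : i ∈ blk n u l) : f i ∈ Gset m u l (lvl t (l * u)) := by
  have hi' := (Blk_mem_blk hu).1 hi
  have hi3 : i ∈ blk3 n u l := by
    rw [Blk_mem_blk3 hu]
    constructor <;> nlinarith
  have h1 := Blk_lvl ht hu i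
  rw [hg i hi3] at h1
  have h2 := co_add_exc hf i
  simp only [Gset, mem_filter, mem_univ, true_and]
  constructor <;> nlinarith
theorem good_out (hf : IsCoarsening f) (hu : 1 ≤ u) (ht : IsCoarse u f t) (hg : GoodB t u l) (hl : l * u < n)
    {i : Fin n} (hi : f i ∈ Gset m u l (lvl t (l * u))) : i ∈ blk3 n u l := by
  simp only [Gset, mem_filter, mem_univ, true_and] at hi
  obtain ⟨ha, hb⟩ := hi
  rw [Blk_mem_blk3 hu]
  constructor
  · by_contra hc
    push Not at hc
    -- `i < (l - 1) * u`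
    have hx : l * u - u < n := lt_of_le_of_lt (Nat.sub_le _ _) hl
    have hxu : u ≤ l * u := le_trans (Nat.le_add_left _ _) hc.le
    have hx3 : (⟨l * u - u, hx⟩ : Fin n) ∈ blk3 n u l := by
      rw [Blk_mem_blk3 hu]
      refine ⟨by simp only; omega, ?_⟩
      simp only
      have : l * u - u ≤ l * u := Nat.sub_le _ _
      nlinarith
    have h1 := Blk_lvl ht hu ⟨l * u - u, hx⟩
    rw [hg _ hx3] at h1
    have h2 := co_add_exc hf ⟨l * u - u, hx⟩
    have h3 : f i ≤ f ⟨l * u - u, hx⟩ := hf.1 (Fin.le_def.2 (by simp only; omega))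
    have h4 : ((f i : ℕ)) ≤ f ⟨l * u - u, hx⟩ := h3
    simp only at h2
    have h5 : (lvl t (l * u) + 1) * u = lvl t (l * u) * u + u := by ring
    rw [h5] at ha
    omega
  · by_contra hc
    push Not at hc
    have hx : (l + 2) * u - 1 < n := lt_of_le_of_lt (le_trans (Nat.sub_le _ _) hc) i.2
    have hpos : 1 ≤ (l + 2) * u := Nat.mul_pos (by omega) hu
    have hx3 : (⟨(l + 2) * u - 1, hx⟩ : Fin n) ∈ blk3 n u l := by
      rw [Blk_mem_blk3 hu]
      refine ⟨?_, by simp only; omega⟩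
      simp only
      have : (l + 2) * u = l * u + 2 * u := by ring
      omega
    have h1 := Blk_lvl ht hu ⟨(l + 2) * u - 1, hx⟩
    rw [hg _ hx3] at h1
    have h2 := co_add_exc hf ⟨(l + 2) * u - 1, hx⟩
    have h3 : f ⟨(l + 2) * u - 1, hx⟩ ≤ f i := hf.1 (Fin.le_def.2 (by simp only; omega))
    have h4 : ((f ⟨(l + 2) * u - 1, hx⟩ : ℕ)) ≤ f i := h3
    simp only at h2
    have h5 : (lvl t (l * u) + 1) * u = lvl t (l * u) * u + u := by ring
    have h6 : (l + 2) * u = l * u + 2 * u := by ring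
    have h7 : (l + 1) * u = l * u + u := by ring
    rw [h5] at h1
    rw [h7] at hb
    omega
theorem cand_in (hf : IsCoarsening f) (hu : 1 ≤ u) (ht : IsCoarse u f t) (hl : l * u < n)
    {i : Fin n} (hi : i ∈ blk3 n u l) : f i ∈ Hset m u l (lvl t (l * u)) := by
  rw [Blk_mem_blk3 hu] at hi
  have h1 := Blk_lvl ht hu ⟨l * u, hl⟩
  have h2 := co_add_exc hf ⟨l * u, hl⟩
  have h3 := co_add_exc hf i
  simp only at h1 h2
  simp only [Hset, mem_filter, mem_univ, true_and]
  have h5 : (lvl t (l * u) + 1) * u = lvl t (l * u) * u + u := by ring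
  have h6 : (l + 2) * u = l * u + 2 * u := by ring
  have h7 : (lvl t (l * u) + 2) * u = lvl t (l * u) * u + 2 * u := by ring
  rw [h5] at h1
  rw [h6] at hi
  rw [h6, h7]
  rcases le_total i ⟨l * u, hl⟩ with h | h
  · have h8 : (f i : ℕ) ≤ f ⟨l * u, hl⟩ := hf.1 h
    have h9 := exc_mono hf h
    have h10 : (i : ℕ) ≤ l * u := h
    omega
  · have h8 : (f ⟨l * u, hl⟩ : ℕ) ≤ f i := hf.1 h
    have h9 := exc_mono hf h
    have h10 : l * u ≤ (i : ℕ) := h
    omega
theorem Hset_sub (hf : IsCoarsening f) (hu : 1 ≤ u) (ht : IsCoarse u f t) (hl : l * u < n)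
    {i : Fin n} (hi : i ∈ blk n u l) : Hset m u l (lvl t (l * u)) ⊆ nbd (f i) (3 * u) := by
  intro j hj
  rw [Blk_mem_blk hu] at hi
  have h1 := Blk_lvl ht hu ⟨l * u, hl⟩
  have h2 := co_add_exc hf ⟨l * u, hl⟩
  have h3 := co_add_exc hf i
  simp only at h1 h2
  simp only [Hset, nbd, mem_filter, mem_univ, true_and] at hj ⊢
  have h5 : (lvl t (l * u) + 1) * u = lvl t (l * u) * u + u := by ring
  have h6 : (l + 2) * u = l * u + 2 * u := by ring
  have h7 : (lvl t (l * u) + 2) * u = lvl t (l * u) * u + 2 * u := by ring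
  have h4 : (l + 1) * u = l * u + u := by ring
  rw [h5] at h1
  rw [h6, h7] at hj
  rw [h4] at hi
  have h : (⟨l * u, hl⟩ : Fin n) ≤ i := Fin.le_def.2 hi.1
  have h8 : (f ⟨l * u, hl⟩ : ℕ) ≤ f i := hf.1 h
  have h9 := exc_mono hf h
  omega
open Classical in
/-- `l` bad: some `t c` lies in `blk3` (strictly after its first position), so `l ∈ {t c / u - 1, t c / u, t c / u + 1}` -/
theorem bad_count (hu : 1 ≤ u) : #{l ∈ range n | l * u < n ∧ ¬ GoodB t u l} ≤ 3 * V := by
  have hsub : ({l ∈ range n | l * u < n ∧ ¬ GoodB t u l} : Finset ℕ) ⊆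
      (univ : Finset (Fin V)).biUnion (fun c =>
        {(t c : ℕ) / u - 1, (t c : ℕ) / u, (t c : ℕ) / u + 1}) := by
    intro l hl
    simp only [mem_filter, mem_range] at hl
    obtain ⟨-, hlu, hb⟩ := hl
    unfold GoodB at hb
    push Not at hb
    obtain ⟨i, hi, hne⟩ := hb
    rw [Blk_mem_blk3 hu] at hi
    have h6 : (l + 2) * u = l * u + 2 * u := by ring
    rw [h6] at hi
    have key : ∃ c, (t c : ℕ) ≤ l * u + 2 * u - 1 ∧ l * u ≤ t c + u := by
      rcases le_total (i : ℕ) (l * u) with h | h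
      · -- `lvl t i ≤ lvl t (l * u)`
        by_contra hcon
        push Not at hcon
        apply hne
        unfold lvl
        congr 1
        ext c
        simp only [mem_filter, mem_univ, true_and]
        constructor
        · intro hc; exact hc.trans h
        · intro hc
          by_contra hc'
          have := hcon c (by omega)
          omega
      · by_contra hcon
        push Not at hcon
        apply hne
        unfold lvl
        congr 1
        ext c
        simp only [mem_filter, mem_univ, true_and]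
        constructor
        · intro hc
          by_contra hc'
          have := hcon c (by omega)
          omega
        · intro hc; exact hc.trans h
    obtain ⟨c, hc1, hc2⟩ := key
    simp only [mem_biUnion, mem_univ, true_and, mem_insert, mem_singleton]
    refine ⟨c, ?_⟩
    have h1 : (t c : ℕ) / u < l + 2 := by
      rw [Nat.div_lt_iff_lt_mul hu]
      rw [h6]; omega
    have h2 : l ≤ (t c : ℕ) / u + 1 := by
      rw [← Nat.add_div_right _ hu, Nat.le_div_iff_mul_le hu]
      exact hc2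
    omega
  refine (card_le_card hsub).trans ?_
  refine card_biUnion_le.trans ?_
  calc ∑ c : Fin V, #({(t c : ℕ) / u - 1, (t c : ℕ) / u, (t c : ℕ) / u + 1} : Finset ℕ)
      ≤ ∑ c : Fin V, 3 := Finset.sum_le_sum fun c _ => Finset.card_le_three
    _ = 3 * V := by simp [mul_comm]
/-- each position is in at most three `blk3` -/
theorem sum_blk3 (p : Fin n → ℝ) (hp : ∀ i, 0 ≤ p i) (L : Finset ℕ) :
    ∑ l ∈ L, mass p (blk3 n u l) ≤ 3 * mass p (L.biUnion (fun l => blk3 n u l)) := by
  unfold mass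
  have h1 : ∀ l ∈ L, ∑ i ∈ blk3 n u l, p i =
      ∑ i ∈ L.biUnion (fun l => blk3 n u l), if i ∈ blk3 n u l then p i else 0 := by
    intro l hl
    rw [← Finset.sum_filter]
    congr 1
    ext i
    simp only [mem_filter, mem_biUnion]
    exact ⟨fun h => ⟨⟨l, hl, h⟩, h⟩, fun h => h.2⟩
  rw [Finset.sum_congr rfl h1, Finset.sum_comm, Finset.mul_sum]
  refine Finset.sum_le_sum fun i _ => ?_
  rw [← Finset.sum_filter, Finset.sum_const, nsmul_eq_mul]
  refine mul_le_mul_of_nonneg_right ?_ (hp i)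
  have h2 : #{l ∈ L | i ∈ blk3 n u l} ≤ 3 := by
    refine (card_le_card (t := {(i : ℕ) / u - 1, (i : ℕ) / u, (i : ℕ) / u + 1}) ?_).trans
      Finset.card_le_three
    intro l hl
    simp only [blk3, mem_filter, mem_univ, true_and, mem_insert, mem_singleton] at hl ⊢
    omega
  exact_mod_cast h2
end Blk

end Pool.Agent.BinUp
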