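import Pool.Agent.BinUp.Bas

/-! MP_f7f4e7_lc, upper bound, module Card. -/

namespace Pool.Agent.BinUp

open Finset Pool.Agent.Binning

open Classical in
/-- the positions where `f` does not increase -/
noncomputable def Card_S {n m : ℕ} (f : Fin n → Fin m) : Finset (Fin n) :=
  {i | ∃ i' : Fin n, (i' : ℕ) + 1 = i ∧ f i = f i'}

theorem Card_inj {n m : ℕ} {f g : Fin n → Fin m} (hf : IsCoarsening f) (hg : IsCoarsening g)
    (h : Card_S f = Card_S g) : f = g := by
  have key : ∀ k : ℕ, ∀ hk : k < n, f ⟨k, hk⟩ = g ⟨k, hk⟩ := by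
    intro k
    induction k with
    | zero =>
      intro hk
      have h1 := co_le hf ⟨0, hk⟩
      have h2 := co_le hg ⟨0, hk⟩
      apply Fin.ext
      simp only at h1 h2
      omega
    | succ k ih =>
      intro hk
      have hk' : k < n := by omega
      have h0 := ih hk'
      have hle : (⟨k, hk'⟩ : Fin n) ≤ ⟨k + 1, hk⟩ := by simp
      have e : ∀ f : Fin n → Fin m, (⟨k + 1, hk⟩ : Fin n) ∈ Card_S f ↔ f ⟨k + 1, hk⟩ = f ⟨k, hk'⟩ := by
        intro f
        simp only [Card_S, Finset.mem_filter, Finset.mem_univ, true_and]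
        constructor
        · rintro ⟨i', h1, h2⟩
          have : i' = ⟨k, hk'⟩ := Fin.ext (by simpa using h1)
          rw [← this]; exact h2
        · intro h; exact ⟨⟨k, hk'⟩, rfl, h⟩
      by_cases hS : (⟨k + 1, hk⟩ : Fin n) ∈ Card_S f
      · have h1 := (e f).1 hS
        have h2 := (e g).1 (h ▸ hS)
        rw [h1, h2, h0]
      · have h1 : ¬ f ⟨k + 1, hk⟩ = f ⟨k, hk'⟩ := fun hh => hS ((e f).2 hh)
        have h2 : ¬ g ⟨k + 1, hk⟩ = g ⟨k, hk'⟩ := fun hh => hS (h ▸ (e g).2 hh)
        have h3 := co_lip hf hle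
        have h4 := co_lip hg hle
        have h5 : (f ⟨k, hk'⟩ : ℕ) ≤ f ⟨k + 1, hk⟩ := hf.1 hle
        have h6 : (g ⟨k, hk'⟩ : ℕ) ≤ g ⟨k + 1, hk⟩ := hg.1 hle
        have h7 : (f ⟨k + 1, hk⟩ : ℕ) ≠ f ⟨k, hk'⟩ := fun hh => h1 (Fin.ext hh)
        have h8 : (g ⟨k + 1, hk⟩ : ℕ) ≠ g ⟨k, hk'⟩ := fun hh => h2 (Fin.ext hh)
        have h9 : (f ⟨k, hk'⟩ : ℕ) = g ⟨k, hk'⟩ := by rw [h0]
        apply Fin.ext
        simp only at h3 h4
        omega
  funext i
  exact key i i.2

theorem Card_S_card {n m : ℕ} {f : Fin n → Fin m} (hf : IsCoarsening f) : #(Card_S f) = n - m := by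
  classical
  have h1 : #((Card_S f)ᶜ) = m := by
    have hu : #(Finset.univ : Finset (Fin m)) = m := by rw [Finset.card_univ, Fintype.card_fin]
    refine Eq.trans ?_ hu
    refine Finset.card_bij (fun i _ => f i) (fun _ _ => Finset.mem_univ _) ?_ ?_
    · intro a ha b hb hab
      by_contra hne
      wlog hlt : a < b generalizing a b
      · exact this b hb a ha hab.symm (Ne.symm hne)
          (lt_of_le_of_ne (not_lt.1 hlt) (Ne.symm hne))
      apply Finset.mem_compl.1 hb
      have hb' : (b : ℕ) - 1 < n := by omega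
      have hlt' : (a : ℕ) < b := hlt
      simp only [Card_S, Finset.mem_filter, Finset.mem_univ, true_and]
      refine ⟨⟨(b : ℕ) - 1, hb'⟩, by simp only; omega, ?_⟩
      apply le_antisymm
      · rw [← hab]
        apply hf.1
        show (a : ℕ) ≤ (b : ℕ) - 1
        omega
      · apply hf.1
        show (b : ℕ) - 1 ≤ (b : ℕ)
        omega
    · intro j _
      obtain ⟨i₀, hi₀⟩ := hf.2 j
      have hne : (fib f j).Nonempty := ⟨i₀, by simp [fib, hi₀]⟩
      refine ⟨(fib f j).min' hne, ?_, ?_⟩
      · rw [Finset.mem_compl]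
        simp only [Card_S, Finset.mem_filter, Finset.mem_univ, true_and]
        rintro ⟨i', h1, h2⟩
        have h3 : f ((fib f j).min' hne) = j := by
          have := Finset.min'_mem _ hne
          simpa [fib] using this
        have h4 : i' ∈ fib f j := by
          simp only [fib, Finset.mem_filter, Finset.mem_univ, true_and]
          rw [← h2, h3]
        have h5 := Finset.min'_le _ _ h4
        have h6 : ((fib f j).min' hne : ℕ) ≤ i' := h5
        omega
      · have := Finset.min'_mem _ hne
        simpa [fib] using this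
  rw [Finset.card_compl, Fintype.card_fin] at h1
  have h2 := Finset.card_le_univ (Card_S f)
  rw [Fintype.card_fin] at h2
  have h3 := co_m_le hf
  omega

open Classical in
/-- `f` is determined by `{i | f i = f (i-1)}`, a set of `n - m` positions -/
theorem card_co (n m : ℕ) : #{f : Fin n → Fin m | IsCoarsening f} ≤ (n + 1) ^ (n - m) := by
  have h1 : #{f : Fin n → Fin m | IsCoarsening f} ≤ #(Finset.powersetCard (n - m) (Finset.univ : Finset (Fin n))) := by
    refine Finset.card_le_card_of_injOn Card_S ?_ ?_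
    · intro f hf
      rw [Finset.mem_coe, Finset.mem_filter] at hf
      rw [Finset.mem_coe, Finset.mem_powersetCard]
      exact ⟨Finset.subset_univ _, Card_S_card hf.2⟩
    · intro f hf g hg h
      rw [Finset.mem_coe, Finset.mem_filter] at hf hg
      exact Card_inj hf.2 hg.2 h
  rw [Finset.card_powersetCard, Finset.card_univ, Fintype.card_fin] at h1
  exact h1.trans ((Nat.choose_le_pow _ _).trans (Nat.pow_le_pow_left (Nat.le_succ n) _))

end Pool.Agent.BinUp
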