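import Pool.Agent.BinUp.Defs

/-! MP_f7f4e7_lc, upper bound, module Wt. -/

namespace Pool.Agent.BinUp

open Finset Pool.Agent.Binning

section Wt
variable {m : ℕ} {q : Fin m → ℝ}

theorem Wt_m_pos (hq : IsDist q) : 0 < m := by
  rcases Nat.eq_zero_or_pos m with rfl | h
  · have := hq.2; simp at this
  · exact h

theorem Wt_mass_nonneg (hq : IsDist q) (A : Finset (Fin m)) : 0 ≤ mass q A :=
  Finset.sum_nonneg fun i _ => hq.1 i

theorem Wt_mass_mono (hq : IsDist q) {A B : Finset (Fin m)} (h : A ⊆ B) : mass q A ≤ mass q B :=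
  Finset.sum_le_sum_of_subset_of_nonneg h fun i _ _ => hq.1 i

theorem Wt_mass_le_one (hq : IsDist q) (A : Finset (Fin m)) : mass q A ≤ 1 := by
  rw [← hq.2]
  exact Finset.sum_le_sum_of_subset_of_nonneg (Finset.subset_univ _) fun i _ _ => hq.1 i

theorem Wt_lev_pos (m : ℕ) : (0 : ℝ) < lev m := by
  unfold lev; positivity

theorem Wt_one_le_lev (m : ℕ) : (1 : ℝ) ≤ lev m := by
  unfold lev; push_cast; linarith [Nat.cast_nonneg (α := ℝ) (Nat.clog 2 m)]

theorem Wt_term_nonneg (hq : IsDist q) (j : Fin m) (a : ℕ) :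
    0 ≤ mass q (nbd j (2 ^ a)) / (2 * 2 ^ a + 1) :=
  div_nonneg (Wt_mass_nonneg hq _) (by positivity)

theorem Wt_avg_nonneg (hq : IsDist q) (j : Fin m) :
    0 ≤ (1 / (lev m : ℝ)) * ∑ a ∈ range (lev m), mass q (nbd j (2 ^ a)) / (2 * 2 ^ a + 1) :=
  mul_nonneg (by have := Wt_lev_pos m; positivity) (Finset.sum_nonneg fun a _ => Wt_term_nonneg hq j a)

theorem inv_le_wt (hq : IsDist q) (j : Fin m) : 1 / (m : ℝ) ≤ wt q j := by
  have h1 := hq.1 j
  have h2 := Wt_avg_nonneg hq j
  unfold wt; linarith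

theorem wt_pos (hq : IsDist q) (j : Fin m) : 0 < wt q j := by
  have h1 := inv_le_wt hq j
  have h2 : (0 : ℝ) < m := by exact_mod_cast Wt_m_pos hq
  exact lt_of_lt_of_le (by positivity) h1

theorem q_le_wt (hq : IsDist q) (j : Fin m) : q j ≤ wt q j := by
  have h1 : (0 : ℝ) ≤ 1 / m := by positivity
  have h2 := Wt_avg_nonneg hq j
  unfold wt; linarith

theorem Wt_card_nbd (b : Fin m) (r : ℕ) : #(nbd b r) ≤ 2 * r + 1 := by
  classical
  have h1 : (nbd b r).image (fun x : Fin m => (x : ℕ)) ⊆ Finset.Icc ((b : ℕ) - r) (b + r) := by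
    intro x hx
    obtain ⟨y, hy, rfl⟩ := Finset.mem_image.1 hx
    simp only [nbd, Finset.mem_filter, Finset.mem_univ, true_and] at hy
    rw [Finset.mem_Icc]
    omega
  have h2 := Finset.card_le_card h1
  rw [Finset.card_image_of_injective _ Fin.val_injective, Nat.card_Icc] at h2
  omega

theorem Wt_sum_mass (hq : IsDist q) (r : ℕ) : ∑ j, mass q (nbd j r) ≤ 2 * r + 1 := by
  classical
  have h1 : ∑ j, mass q (nbd j r) = ∑ b : Fin m, #(nbd b r) * q b := by
    have h2 : ∀ j, mass q (nbd j r) = ∑ b : Fin m, if b ∈ nbd j r then q b else 0 := by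
      intro j
      unfold mass
      rw [← Finset.sum_filter]
      congr 1
      ext x; simp
    simp only [h2]
    rw [Finset.sum_comm]
    refine Finset.sum_congr rfl fun b _ => ?_
    have h3 : ∀ j : Fin m, (b ∈ nbd j r) ↔ (j ∈ nbd b r) := by
      intro j
      simp only [nbd, Finset.mem_filter, Finset.mem_univ, true_and]
      tauto
    simp only [h3]
    rw [← Finset.sum_filter, Finset.sum_const, nsmul_eq_mul]
    congr 2
    congr 1
    ext x; simp
  rw [h1]
  calc ∑ b : Fin m, (#(nbd b r) : ℝ) * q b ≤ ∑ b : Fin m, (2 * r + 1 : ℝ) * q b := by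
        refine Finset.sum_le_sum fun b _ => mul_le_mul_of_nonneg_right ?_ (hq.1 b)
        exact_mod_cast Wt_card_nbd b r
    _ = 2 * r + 1 := by rw [← Finset.mul_sum, hq.2, mul_one]

theorem sum_wt_le (hq : IsDist q) : ∑ j, wt q j ≤ 3 := by
  unfold wt
  rw [Finset.sum_add_distrib, Finset.sum_add_distrib, hq.2]
  have h1 : ∑ _j : Fin m, 1 / (m : ℝ) = 1 := by
    rw [Finset.sum_const, Finset.card_univ, Fintype.card_fin, nsmul_eq_mul]
    have : (0 : ℝ) < m := by exact_mod_cast Wt_m_pos hq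
    field_simp
  have h2 : ∑ j : Fin m, (1 / (lev m : ℝ)) * ∑ a ∈ range (lev m), mass q (nbd j (2 ^ a)) / (2 * 2 ^ a + 1)
      ≤ 1 := by
    rw [← Finset.mul_sum, Finset.sum_comm]
    have h3 : ∑ a ∈ range (lev m), ∑ j : Fin m, mass q (nbd j (2 ^ a)) / (2 * 2 ^ a + 1) ≤
        ∑ a ∈ range (lev m), (1 : ℝ) := by
      refine Finset.sum_le_sum fun a _ => ?_
      rw [← Finset.sum_div, div_le_one (by positivity)]
      have := Wt_sum_mass hq (2 ^ a)
      push_cast at this
      exact this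
    rw [Finset.sum_const, Finset.card_range, nsmul_eq_mul, mul_one] at h3
    have h4 := Wt_lev_pos m
    calc _ ≤ 1 / (lev m : ℝ) * (lev m : ℝ) := mul_le_mul_of_nonneg_left h3 (by positivity)
      _ = 1 := by field_simp
  linarith

/-- (LOC): choose `a` with `r ≤ 2 ^ a < 2 r`; if `m ≤ r` use `1/m ≤ w` -/
theorem mass_nbd_le (hq : IsDist q) (j : Fin m) {r : ℕ} (hr : 1 ≤ r) :
    mass q (nbd j r) ≤ 5 * r * lev m * wt q j := by
  have hl := Wt_one_le_lev m
  have hw := wt_pos hq j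
  have hr' : (1 : ℝ) ≤ r := by exact_mod_cast hr
  rcases le_or_gt r m with h | h
  · -- scale
    have ha1 : r ≤ 2 ^ Nat.clog 2 r := Nat.le_pow_clog (by norm_num) r
    have ha2 : 2 ^ Nat.clog 2 r < 2 * r := by
      rcases Nat.eq_or_lt_of_le hr with h1 | h1
      · subst h1; simp
      · have h2 := Nat.pow_pred_clog_lt_self (b := 2) (by norm_num) (x := r) h1
        have h3 : 0 < Nat.clog 2 r := Nat.clog_pos (by norm_num) h1
        have h4 : Nat.clog 2 r = (Nat.clog 2 r).pred + 1 := (Nat.succ_pred_eq_of_pos h3).symm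
        rw [h4, pow_succ]
        omega
    have ha3 : Nat.clog 2 r ∈ range (lev m) := by
      rw [Finset.mem_range]; unfold lev
      have := Nat.clog_mono_right 2 h
      omega
    have h1 : mass q (nbd j r) ≤ mass q (nbd j (2 ^ Nat.clog 2 r)) := by
      apply Wt_mass_mono hq
      intro x hx
      simp only [nbd, Finset.mem_filter, Finset.mem_univ, true_and] at hx ⊢
      omega
    have h2 : mass q (nbd j (2 ^ Nat.clog 2 r)) / (2 * 2 ^ Nat.clog 2 r + 1) ≤
        ∑ a ∈ range (lev m), mass q (nbd j (2 ^ a)) / (2 * 2 ^ a + 1) :=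
      Finset.single_le_sum (f := fun a => mass q (nbd j (2 ^ a)) / (2 * 2 ^ a + 1))
        (fun a _ => Wt_term_nonneg hq j a) ha3
    have h3 : (1 / (lev m : ℝ)) * ∑ a ∈ range (lev m), mass q (nbd j (2 ^ a)) / (2 * 2 ^ a + 1) ≤
        wt q j := by
      have h1 := hq.1 j
      have h2 : (0 : ℝ) ≤ 1 / m := by positivity
      unfold wt; linarith
    have h4 : ∑ a ∈ range (lev m), mass q (nbd j (2 ^ a)) / (2 * 2 ^ a + 1) ≤ lev m * wt q j := by
      have h5 := mul_le_mul_of_nonneg_left h3 (Wt_lev_pos m).le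
      have h6 : (lev m : ℝ) * ((1 / (lev m : ℝ)) *
          ∑ a ∈ range (lev m), mass q (nbd j (2 ^ a)) / (2 * 2 ^ a + 1)) =
          ∑ a ∈ range (lev m), mass q (nbd j (2 ^ a)) / (2 * 2 ^ a + 1) := by
        have := Wt_lev_pos m
        field_simp
      rwa [h6] at h5
    have h5 := (h2.trans h4)
    have h6 : (0 : ℝ) < 2 * 2 ^ Nat.clog 2 r + 1 := by positivity
    rw [div_le_iff₀ h6] at h5
    have h7 : (2 * 2 ^ Nat.clog 2 r + 1 : ℝ) ≤ 5 * r := by
      have : 2 * 2 ^ Nat.clog 2 r + 1 ≤ 5 * r := by omega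
      exact_mod_cast this
    have h8 : 0 ≤ (lev m : ℝ) * wt q j := by positivity
    calc mass q (nbd j r) ≤ lev m * wt q j * (2 * 2 ^ Nat.clog 2 r + 1) := h1.trans h5
      _ ≤ lev m * wt q j * (5 * r) := mul_le_mul_of_nonneg_left h7 h8
      _ = 5 * r * lev m * wt q j := by ring
  · have h1 := Wt_mass_le_one hq (nbd j r)
    have h2 := inv_le_wt hq j
    have h3 : (0 : ℝ) < m := by exact_mod_cast Wt_m_pos hq
    have h4 : (1 : ℝ) ≤ m * wt q j := by
      rw [div_le_iff₀ h3] at h2; linarith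
    have h5 : (m : ℝ) ≤ r := by exact_mod_cast h.le
    have h6 : (m : ℝ) * wt q j ≤ r * wt q j := mul_le_mul_of_nonneg_right h5 hw.le
    have h7 : (r : ℝ) * wt q j * 1 ≤ r * wt q j * (5 * lev m) :=
      mul_le_mul_of_nonneg_left (by linarith) (by positivity)
    calc mass q (nbd j r) ≤ 1 := h1
      _ ≤ r * wt q j * 1 := by linarith
      _ ≤ r * wt q j * (5 * lev m) := h7
      _ = 5 * r * lev m * wt q j := by ring

/-- Cauchy-Schwarz -/
theorem chi_ge (hq : IsDist q) (p' : Fin m → ℝ) : (2 * tv p' q) ^ 2 / 3 ≤ chi q p' := by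
  have h1 : (∑ j, |p' j - q j|) ^ 2 ≤ (∑ j, (p' j - q j) ^ 2 / wt q j) * ∑ j, wt q j := by
    refine Finset.sum_sq_le_sum_mul_sum_of_sq_le_mul _ (fun j _ => ?_) (fun j _ => (wt_pos hq j).le)
      (fun j _ => ?_)
    · exact div_nonneg (sq_nonneg _) (wt_pos hq j).le
    · rw [sq_abs, div_mul_cancel₀ _ (wt_pos hq j).ne']
  have h2 : 0 ≤ ∑ j, (p' j - q j) ^ 2 / wt q j :=
    Finset.sum_nonneg fun j _ => div_nonneg (sq_nonneg _) (wt_pos hq j).le
  have h3 := mul_le_mul_of_nonneg_left (sum_wt_le hq) h2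
  have h4 : 2 * tv p' q = ∑ j, |p' j - q j| := by unfold tv; ring
  rw [h4, div_le_iff₀ (by norm_num)]
  exact h1.trans h3

theorem lev_le {n : ℕ} (hm : 1 ≤ m) (hn : m ≤ n) : (lev m : ℝ) ≤ 3 * Lg n := by
  have hL : Real.log (m + 1) ≤ Lg n := by
    unfold Lg
    apply Real.log_le_log (by positivity)
    have : (m : ℝ) ≤ n := by exact_mod_cast hn
    linarith
  have hlog2 : 0.6931 < Real.log 2 := by linarith [Real.log_two_gt_d9]
  suffices h : (lev m : ℝ) ≤ 3 * Real.log (m + 1) by linarith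
  rcases Nat.lt_or_ge m 3 with h3 | h3
  · interval_cases m
    · have : lev 1 = 1 := by unfold lev; simp
      rw [this]; norm_num; linarith
    · have : lev 2 = 2 := by
        unfold lev
        have : Nat.clog 2 2 = 1 := by decide
        omega
      rw [this]
      have h5 : Real.log 2 ≤ Real.log ((2 : ℕ) + 1) := Real.log_le_log (by norm_num) (by norm_num)
      push_cast at h5 ⊢; linarith
  · have h1 : 2 ^ (Nat.clog 2 m).pred < m := Nat.pow_pred_clog_lt_self (by norm_num) (by omega)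
    have h2 : 0 < Nat.clog 2 m := Nat.clog_pos (by norm_num) (by omega)
    have h4 : ((Nat.clog 2 m).pred : ℝ) * Real.log 2 ≤ Real.log (m + 1) := by
      rw [← Real.log_pow]
      apply Real.log_le_log (by positivity)
      have : 2 ^ (Nat.clog 2 m).pred ≤ m + 1 := by omega
      exact_mod_cast this
    have h5 : ((Nat.clog 2 m).pred : ℝ) = Nat.clog 2 m - 1 := by
      rw [Nat.pred_eq_sub_one, Nat.cast_sub h2]; simp
    rw [h5] at h4
    have h6 : 2 * Real.log 2 ≤ Real.log (m + 1) := by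
      rw [← Real.log_rpow (by norm_num)]
      apply Real.log_le_log (by positivity)
      have : (3 : ℝ) ≤ m := by exact_mod_cast h3
      norm_num
      linarith
    unfold lev
    push_cast
    nlinarith
end Wt

end Pool.Agent.BinUp
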