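import Pool.Agent.BinUp.Bas
import Pool.Agent.BinUp.Wt

/-! MP_f7f4e7_lc, upper bound, module Part0. -/

namespace Pool.Agent.BinUp

open Finset Pool.Agent.Binning

theorem Part0_real {N s P Q w θ κ : ℝ} (hs : 0 ≤ s) (hP : 0 ≤ P) (hQ : 0 ≤ Q) (hw : 0 < w) (hθ : 1 ≤ θ)
    (hκ : 0 ≤ κ) (hPw : P ≤ θ * w) (hQw : Q ≤ w)
    (h1 : |N - s * P| ≤ 2 * √(κ * (s * P)) + 2 * 1 * κ)
    (h2 : |N - s * Q| ≤ 2 * √(κ * (s * Q)) + 2 * κ) :
    s * ((P - Q) ^ 2 / w) ≤ 65 * θ ^ 2 * κ := by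
  rcases hs.eq_or_lt with h0 | hs
  · rw [← h0, zero_mul]; positivity
  have hx : 0 < s * w := mul_pos hs hw
  have hQw' : Q ≤ θ * w := hQw.trans (by nlinarith)
  have hA1 : s * |P - Q| ≤ 4 * √(κ * (θ * (s * w))) + 4 * κ := by
    have e1 : s * |P - Q| = |(N - s * Q) - (N - s * P)| := by
      rw [show (N - s * Q) - (N - s * P) = s * (P - Q) by ring, abs_mul, abs_of_pos hs]
    have e2 : |(N - s * Q) - (N - s * P)| ≤ |N - s * Q| + |N - s * P| := abs_sub _ _
    have e3 : √(κ * (s * P)) ≤ √(κ * (θ * (s * w))) :=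
      Real.sqrt_le_sqrt (mul_le_mul_of_nonneg_left (by nlinarith) hκ)
    have e4 : √(κ * (s * Q)) ≤ √(κ * (θ * (s * w))) :=
      Real.sqrt_le_sqrt (mul_le_mul_of_nonneg_left (by nlinarith) hκ)
    linarith
  have hA2 : (s * |P - Q|) ^ 2 ≤ 65 * θ ^ 2 * κ * (s * w) := by
    have hA0 : 0 ≤ s * |P - Q| := by positivity
    rcases le_or_gt κ (θ * (s * w)) with h | h
    · have h3 : κ ≤ √(κ * (θ * (s * w))) := by
        apply Real.le_sqrt_of_sq_le
        nlinarith
      have h4 : s * |P - Q| ≤ 8 * √(κ * (θ * (s * w))) := by linarith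
      have h5 : (s * |P - Q|) ^ 2 ≤ (8 * √(κ * (θ * (s * w)))) ^ 2 := pow_le_pow_left₀ hA0 h4 2
      have h50 : (8 * √(κ * (θ * (s * w)))) ^ 2 = 64 * (κ * (θ * (s * w))) := by
        rw [mul_pow, Real.sq_sqrt (by positivity)]; norm_num
      rw [h50] at h5
      have h6 : κ * (θ * (s * w)) ≤ κ * (θ ^ 2 * (s * w)) := by
        apply mul_le_mul_of_nonneg_left _ hκ
        apply mul_le_mul_of_nonneg_right _ hx.le
        nlinarith
      have h7 : 0 ≤ κ * (θ ^ 2 * (s * w)) := by positivity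
      nlinarith
    · have h3 : |P - Q| ≤ θ * w := by
        rw [abs_le]; constructor <;> nlinarith
      have h4 : s * |P - Q| ≤ θ * (s * w) := by nlinarith
      have h5 : (s * |P - Q|) ^ 2 ≤ (θ * (s * w)) ^ 2 := pow_le_pow_left₀ hA0 h4 2
      have h6 : (θ * (s * w)) ^ 2 ≤ (θ * (s * w)) * κ := by
        rw [sq]; exact mul_le_mul_of_nonneg_left h.le (by positivity)
      have h7 : (θ * (s * w)) * κ ≤ θ ^ 2 * κ * (s * w) := by
        have : θ ≤ θ ^ 2 := by nlinarith
        calc (θ * (s * w)) * κ = θ * (κ * (s * w)) := by ring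
          _ ≤ θ ^ 2 * (κ * (s * w)) := mul_le_mul_of_nonneg_right this (by positivity)
          _ = _ := by ring
      have h8 : 0 ≤ θ ^ 2 * κ * (s * w) := by positivity
      linarith
  have e : s * ((P - Q) ^ 2 / w) = (s * |P - Q|) ^ 2 / (s * w) := by
    rw [mul_pow, sq_abs]; field_simp
  rw [e, div_le_iff₀ hx]
  exact hA2

theorem Part0_th (m : ℕ) : 1 ≤ th m := by
  unfold th lev
  push_cast
  have : (0 : ℝ) ≤ Nat.clog 2 m := Nat.cast_nonneg _
  linarith

theorem Part0_kap (n : ℕ) : 0 ≤ kap0 n := by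
  unfold kap0 Lg
  have : 0 ≤ Real.log ((n : ℝ) + 1) := Real.log_nonneg (by linarith [Nat.cast_nonneg (α := ℝ) n])
  linarith

theorem Part0_one {n m s : ℕ} {q : Fin m → ℝ} {p : Fin n → ℝ} (hq : IsDist q) (hp : IsDist p)
    {f : Fin n → Fin m} (hf : IsCoarsening f)
    {ω : Fin s → Fin n} (hc : ∀ x y : Fin n, Conc p (kap0 n) 1 (ind (Icc x y)) ω) (h0 : C0 q f ω)
    (j : Fin m) (hj : push f p j ≤ th m * wt q j) :
    s * ((push f p j - q j) ^ 2 / wt q j) ≤ 65 * th m ^ 2 * kap0 n := by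
  obtain ⟨x, y, hxy⟩ := fib_icc hf j
  have hc1 := hc x y
  rw [← hxy] at hc1
  unfold Conc at hc1
  have e1 : ∑ i, ind (fib f j) i * p i = push f p j := by
    simp only [ind, fib, push, Finset.mem_filter, Finset.mem_univ, true_and, ite_mul, one_mul, zero_mul]
    rw [Finset.sum_filter]
  have e2 : ∑ i, ind (fib f j) i ^ 2 * p i = push f p j := by
    rw [← e1]
    refine Finset.sum_congr rfl fun i _ => ?_
    unfold ind
    split_ifs <;> simp
  rw [e1, e2] at hc1
  refine Part0_real (Nat.cast_nonneg s) ?_ (hq.1 j) (wt_pos hq j) (Part0_th m) (Part0_kap n) hj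
    (q_le_wt hq j) hc1 (h0 j)
  exact Finset.sum_nonneg fun i _ => hp.1 i

theorem Part0_cardA {n m : ℕ} {f : Fin n → Fin m} (hf : IsCoarsening f) :
    #{j | 2 ≤ #(fib f j)} ≤ n - m := by
  rw [← sum_fib hf, Finset.card_filter]
  refine Finset.sum_le_sum fun j _ => ?_
  split_ifs with h
  · omega
  · omega

theorem Part0_cardB {n m : ℕ} {f : Fin n → Fin m} (hf : IsCoarsening f) :
    #{i | 2 ≤ #(fib f (f i))} ≤ 2 * (n - m) := by
  classical
  rw [← sum_fib hf, Finset.mul_sum]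
  rw [Finset.card_eq_sum_card_fiberwise (f := f) (t := Finset.univ) (fun i _ => Finset.mem_coe.2 (Finset.mem_univ _))]
  refine Finset.sum_le_sum fun j _ => ?_
  by_cases h : 2 ≤ #(fib f j)
  · have : #{i ∈ ({i | 2 ≤ #(fib f (f i))} : Finset (Fin n)) | f i = j} ≤ #(fib f j) := by
      apply Finset.card_le_card
      intro i hi
      simp only [Finset.mem_filter, Finset.mem_univ, true_and] at hi
      simp [fib, hi.2]
    omega
  · have : #{i ∈ ({i | 2 ≤ #(fib f (f i))} : Finset (Fin n)) | f i = j} = 0 := by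
      rw [Finset.card_eq_zero, Finset.filter_eq_empty_iff]
      intro i hi hij
      simp only [Finset.mem_filter, Finset.mem_univ, true_and] at hi
      rw [hij] at hi
      exact h hi
    omega

/-- the exceptional indices -/
theorem part0 {n m s : ℕ} {q : Fin m → ℝ} {p : Fin n → ℝ} (hq : IsDist q) (hp : IsDist p)
    {f f₀ : Fin n → Fin m} (hf : IsCoarsening f) (hf₀ : IsCoarsening f₀)
    {ω : Fin s → Fin n} (hc : ∀ x y : Fin n, Conc p (kap0 n) 1 (ind (Icc x y)) ω) (h0 : C0 q f ω) :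
    s * ∑ j with push f p j ≤ th m * wt q j ∧ ¬ (∃ i, fib f j = {i} ∧ #(fib f₀ (f₀ i)) = 1),
      (push f p j - q j) ^ 2 / wt q j ≤ 3 * (n - m) * (65 * th m ^ 2 * kap0 n) := by
  classical
  rw [Finset.mul_sum]
  set E : Finset (Fin m) := {j | push f p j ≤ th m * wt q j ∧ ¬ (∃ i, fib f j = {i} ∧ #(fib f₀ (f₀ i)) = 1)} with hE
  have hcard : #E ≤ 3 * (n - m) := by
    have hsub : E ⊆ ({j | 2 ≤ #(fib f j)} : Finset (Fin m)) ∪
        (({i | 2 ≤ #(fib f₀ (f₀ i))} : Finset (Fin n)).image f) := by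
      intro j hj
      rw [hE, Finset.mem_filter] at hj
      obtain ⟨-, -, hj⟩ := hj
      rw [Finset.mem_union]
      by_cases h2 : 2 ≤ #(fib f j)
      · left; simp [h2]
      · right
        have h1 := fib_card_pos hf j
        have h3 : #(fib f j) = 1 := by omega
        obtain ⟨i, hi⟩ := Finset.card_eq_one.1 h3
        rw [Finset.mem_image]
        refine ⟨i, ?_, ?_⟩
        · simp only [Finset.mem_filter, Finset.mem_univ, true_and]
          have h4 := fib_card_pos hf₀ (f₀ i)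
          have h5 : #(fib f₀ (f₀ i)) ≠ 1 := fun h => hj ⟨i, hi, h⟩
          omega
        · have : i ∈ fib f j := by rw [hi]; exact Finset.mem_singleton_self i
          simpa [fib] using this
    have h1 := Finset.card_le_card hsub
    have h2 := Finset.card_union_le ({j | 2 ≤ #(fib f j)} : Finset (Fin m))
        (({i | 2 ≤ #(fib f₀ (f₀ i))} : Finset (Fin n)).image f)
    have h3 : #(({i | 2 ≤ #(fib f₀ (f₀ i))} : Finset (Fin n)).image f) ≤ _ := Finset.card_image_le
    have h4 := Part0_cardA hf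
    have h5 := Part0_cardB hf₀
    omega
  have hb : ∑ j ∈ E, (s : ℝ) * ((push f p j - q j) ^ 2 / wt q j) ≤ #E • (65 * th m ^ 2 * kap0 n) := by
    refine Finset.sum_le_card_nsmul E _ _ fun j hj => ?_
    rw [hE, Finset.mem_filter] at hj
    exact Part0_one hq hp hf hc h0 j hj.2.1
  refine hb.trans ?_
  rw [nsmul_eq_mul]
  have hk : 0 ≤ 65 * th m ^ 2 * kap0 n := mul_nonneg (by positivity) (Part0_kap n)
  refine mul_le_mul_of_nonneg_right ?_ hk
  rw [← Nat.cast_sub (co_m_le hf)]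
  exact_mod_cast hcard

end Pool.Agent.BinUp
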