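import Pool.Agent.BinUp.Bas
import Pool.Agent.BinUp.Wt

/-! MP_f7f4e7_lc, upper bound, module Part1. -/

namespace Pool.Agent.BinUp

open Finset Pool.Agent.Binning

theorem Part1_real {S s A B Y VA VB θ κ : ℝ} (hs : 0 ≤ s) (hY : 0 ≤ Y) (hYAB : Y = A - B)
    (hκ : 0 ≤ κ) (hθ : 0 ≤ θ) (hVA : VA ≤ θ * Y) (hVB : VB ≤ θ * Y)
    (h1 : |S - s * A| ≤ 2 * √(κ * (s * VA)) + 2 * θ * κ)
    (h2 : |S - s * B| ≤ 2 * √(κ * (s * VB)) + 2 * θ * κ) :
    s * Y ≤ 24 * θ * κ := by
  have e1 : s * Y ≤ |S - s * A| + |S - s * B| := by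
    have h3 : s * Y = (S - s * B) - (S - s * A) := by rw [hYAB]; ring
    have h4 : (S - s * B) - (S - s * A) ≤ |(S - s * B) - (S - s * A)| := le_abs_self _
    have h5 : |(S - s * B) - (S - s * A)| ≤ |S - s * B| + |S - s * A| := abs_sub _ _
    linarith
  have e2 : √(κ * (s * VA)) ≤ √(κ * θ) * √(s * Y) := by
    rw [← Real.sqrt_mul (mul_nonneg hκ hθ)]
    apply Real.sqrt_le_sqrt
    calc κ * (s * VA) ≤ κ * (s * (θ * Y)) :=
          mul_le_mul_of_nonneg_left (mul_le_mul_of_nonneg_left hVA hs) hκ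
      _ = κ * θ * (s * Y) := by ring
  have e3 : √(κ * (s * VB)) ≤ √(κ * θ) * √(s * Y) := by
    rw [← Real.sqrt_mul (mul_nonneg hκ hθ)]
    apply Real.sqrt_le_sqrt
    calc κ * (s * VB) ≤ κ * (s * (θ * Y)) :=
          mul_le_mul_of_nonneg_left (mul_le_mul_of_nonneg_left hVB hs) hκ
      _ = κ * θ * (s * Y) := by ring
  have e4 : √(κ * θ) ^ 2 = κ * θ := Real.sq_sqrt (mul_nonneg hκ hθ)
  have e5 : √(s * Y) ^ 2 = s * Y := Real.sq_sqrt (mul_nonneg hs hY)
  set c := √(κ * θ)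
  set z := √(s * Y)
  have e6 : s * Y ≤ 4 * (c * z) + 4 * (κ * θ) := by nlinarith
  nlinarith [sq_nonneg (z - 5 * c)]

theorem Part1_th (m : ℕ) : 1 ≤ th m := by
  unfold th lev
  push_cast
  have : (0 : ℝ) ≤ Nat.clog 2 m := Nat.cast_nonneg _
  linarith

theorem Part1_kap (n k : ℕ) : 0 ≤ kap1 n k := by
  unfold kap1 Lg
  have : 0 ≤ Real.log ((n : ℝ) + 1) := Real.log_nonneg (by linarith [Nat.cast_nonneg (α := ℝ) n])
  positivity

/-- non-exceptional indices -/
theorem part1 {n m s : ℕ} {q : Fin m → ℝ} {p : Fin n → ℝ} (hq : IsDist q) (hp : IsDist p)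
    {f f₀ : Fin n → Fin m} (hf : IsCoarsening f) (hf₀ : IsCoarsening f₀) (hpush : push f₀ p = q)
    {ω : Fin s → Fin n} (hc : Conc p (kap1 n (n - m)) (th m) (vfun q f f₀) ω) (h1 : C1 q f ω) :
    s * ∑ i with #(fib f (f i)) = 1 ∧ #(fib f₀ (f₀ i)) = 1 ∧ p i ≤ th m * wt q (f i),
      (p i - q (f i)) ^ 2 / wt q (f i) ≤ 24 * th m * kap1 n (n - m) := by
  classical
  have hqp : ∀ i, #(fib f₀ (f₀ i)) = 1 → q (f₀ i) = p i := by
    intro i hi
    obtain ⟨x, hx⟩ := Finset.card_eq_one.1 hi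
    have hix : i ∈ fib f₀ (f₀ i) := by simp [fib]
    have hxi : i = x := by rw [hx] at hix; simpa using hix
    have h2 : push f₀ p (f₀ i) = ∑ k ∈ fib f₀ (f₀ i), p k := rfl
    rw [← hpush, h2, hx, Finset.sum_singleton, hxi]
  have hv : ∀ i, vfun q f f₀ i = if #(fib f (f i)) = 1 ∧ #(fib f₀ (f₀ i)) = 1 ∧ p i ≤ th m * wt q (f i)
      then (p i - q (f i)) / wt q (f i) else 0 := by
    intro i
    unfold vfun
    by_cases h : #(fib f₀ (f₀ i)) = 1
    · rw [hqp i h]
    · rw [if_neg (fun hh => h hh.2.1), if_neg (fun hh => h hh.2.1)]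
  have hw : ∀ i, 0 < wt q (f i) := fun i => wt_pos hq _
  have hθ := Part1_th m
  unfold Conc at hc
  have h1' := h1 f₀ hf₀
  rw [Finset.sum_filter]
  refine Part1_real (Nat.cast_nonneg s) ?_ ?_ (Part1_kap n (n - m)) (by linarith) ?_ ?_ hc h1'
  · refine Finset.sum_nonneg fun i _ => ?_
    split_ifs
    · exact div_nonneg (sq_nonneg _) (hw i).le
    · exact le_rfl
  · rw [← Finset.sum_sub_distrib]
    refine Finset.sum_congr rfl fun i _ => ?_
    rw [hv]
    split_ifs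
    · have := (hw i).ne'
      field_simp
    · simp
  · rw [Finset.mul_sum]
    refine Finset.sum_le_sum fun i _ => ?_
    rw [hv]
    split_ifs with h
    · have h2 := h.2.2
      have h3 : ((p i - q (f i)) / wt q (f i)) ^ 2 * p i ≤
          ((p i - q (f i)) / wt q (f i)) ^ 2 * (th m * wt q (f i)) :=
        mul_le_mul_of_nonneg_left h2 (sq_nonneg _)
      refine h3.trans (le_of_eq ?_)
      have := (hw i).ne'
      field_simp
    · simp
  · rw [Finset.mul_sum]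
    refine Finset.sum_le_sum fun i _ => ?_
    rw [hv]
    split_ifs with h
    · have h2 : q (f i) ≤ th m * wt q (f i) := by
        have h20 := q_le_wt hq (f i)
        have := hw i
        nlinarith
      have h3 : ((p i - q (f i)) / wt q (f i)) ^ 2 * q (f i) ≤
          ((p i - q (f i)) / wt q (f i)) ^ 2 * (th m * wt q (f i)) :=
        mul_le_mul_of_nonneg_left h2 (sq_nonneg _)
      refine h3.trans (le_of_eq ?_)
      have := (hw i).ne'
      field_simp
    · simp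

end Pool.Agent.BinUp
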