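import Pool.Agent.BinUp.Bas
import Pool.Agent.BinUp.Wt

/-! MP_f7f4e7_lc, upper bound, module Part2. -/

namespace Pool.Agent.BinUp

open Finset Pool.Agent.Binning

theorem Part2_push_nonneg {n m : ℕ} {p : Fin n → ℝ} (hp : IsDist p) (f : Fin n → Fin m) (j : Fin m) :
    0 ≤ push f p j := by
  unfold push
  exact Finset.sum_nonneg (fun i _ => hp.1 i)

/-- `p'_j ≤ q([j-k,j+k])` -/
theorem Part2_push_le {n m : ℕ} {q : Fin m → ℝ} {p : Fin n → ℝ} (hp : IsDist p)
    {f f₀ : Fin n → Fin m} (hf : IsCoarsening f) (hf₀ : IsCoarsening f₀) (hpush : push f₀ p = q)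
    (j : Fin m) : push f p j ≤ mass q (nbd j (n - m)) := by
  have h1 : mass q (nbd j (n - m)) = ∑ i with f₀ i ∈ nbd j (n - m), p i := by
    unfold mass
    rw [← hpush]
    unfold push
    rw [Finset.sum_filter]
    have : ∀ b : Fin m, ∑ i with f₀ i = b, p i = ∑ i, if f₀ i = b then p i else 0 := by
      intro b
      rw [Finset.sum_filter]
    rw [Finset.sum_congr rfl (fun b _ => this b), Finset.sum_comm]
    apply Finset.sum_congr rfl
    intro i _
    rw [Finset.sum_ite_eq]
  rw [h1]
  unfold push
  apply Finset.sum_le_sum_of_subset_of_nonneg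
  · intro i hi
    simp only [Finset.mem_filter, Finset.mem_univ, true_and] at hi ⊢
    have e1 := co_add_exc hf i
    have e2 := exc_le hf i
    have e3 := co_add_exc hf₀ i
    have e4 := exc_le hf₀ i
    rw [hi] at e1
    simp only [nbd, Finset.mem_filter, Finset.mem_univ, true_and]
    constructor <;> omega
  · intro i _ _
    exact hp.1 i

/-- dyadic decomposition: `720 lev 2^a w_j < p'_j ≤ 720 lev 2^(a+1) w_j`, `2^a < k` since
`p'_j ≤ q([j-k,j+k]) ≤ 5 k lev w_j` -/
theorem part2 {n m : ℕ} {q : Fin m → ℝ} {p : Fin n → ℝ} (hq : IsDist q) (hp : IsDist p)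
    {f f₀ : Fin n → Fin m} (hf : IsCoarsening f) (hf₀ : IsCoarsening f₀) (hpush : push f₀ p = q)
    {M : ℕ → ℝ} (hM : ∀ u, 1 ≤ u → u ≤ n - m →
      ∑ j with 720 * lev m * u * wt q j < push f p j, push f p j ≤ M u) :
    ∑ j with th m * wt q j < push f p j, (push f p j - q j) ^ 2 / wt q j ≤
      ∑ a ∈ range (lev (n - m)) with 2 ^ a ≤ n - m, 2 * th m * 2 ^ a * M (2 ^ a) := by
  classical
  have hlev : (1 : ℝ) ≤ lev m := by
    unfold lev
    push_cast
    have : (0 : ℝ) ≤ (Nat.clog 2 m : ℝ) := by positivity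
    linarith
  have hth : (720 : ℝ) ≤ th m := by
    unfold th
    linarith
  set A : Finset ℕ := (range (lev (n - m))).filter (fun a => 2 ^ a ≤ n - m) with hA
  set g : ℕ → Fin m → ℝ := fun a j =>
    if 720 * (lev m : ℝ) * ((2 ^ a : ℕ) : ℝ) * wt q j < push f p j then 2 * th m * 2 ^ a * push f p j else 0
    with hg
  have hg0 : ∀ a j, 0 ≤ g a j := by
    intro a j
    simp only [hg]
    split_ifs
    · have := Part2_push_nonneg hp f j
      have : 0 ≤ th m := by linarith
      positivity
    · exact le_rfl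
  -- the key pointwise estimate
  have hkey : ∀ j : Fin m, th m * wt q j < push f p j →
      (push f p j - q j) ^ 2 / wt q j ≤ ∑ a ∈ A, g a j := by
    intro j hj
    have hw := wt_pos hq j
    have hqw := q_le_wt hq j
    have hqn := hq.1 j
    have hple := Part2_push_le hp hf hf₀ hpush j
    -- k ≥ 1
    have hk : 1 ≤ n - m := by
      by_contra hcon
      have hk0 : n - m = 0 := by omega
      rw [hk0] at hple
      have hnbd : nbd j 0 = {j} := by
        ext b
        simp only [nbd, Finset.mem_filter, Finset.mem_univ, true_and, Finset.mem_singleton, Fin.ext_iff]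
        omega
      rw [hnbd] at hple
      simp only [mass, Finset.sum_singleton] at hple
      nlinarith
    have hloc := mass_nbd_le hq j hk
    -- the set of exponents
    have hub : ∀ a : ℕ, 720 * (lev m : ℝ) * ((2 ^ a : ℕ) : ℝ) * wt q j < push f p j → 2 ^ a < n - m := by
      intro a ha
      have h1 : 720 * (lev m : ℝ) * ((2 ^ a : ℕ) : ℝ) * wt q j < 5 * ((n - m : ℕ) : ℝ) * lev m * wt q j :=
        lt_of_lt_of_le ha (hple.trans hloc)
      have h2 : (lev m : ℝ) * wt q j * (720 * ((2 ^ a : ℕ) : ℝ)) < (lev m : ℝ) * wt q j * (5 * ((n - m : ℕ) : ℝ)) := by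
        nlinarith
      have h3 : 720 * ((2 ^ a : ℕ) : ℝ) < 5 * ((n - m : ℕ) : ℝ) :=
        lt_of_mul_lt_mul_left h2 (by positivity)
      have h4 : 720 * 2 ^ a < 5 * (n - m) := by exact_mod_cast h3
      omega
    let P : ℕ → Prop := fun a => 720 * (lev m : ℝ) * ((2 ^ a : ℕ) : ℝ) * wt q j < push f p j
    have hP0 : P 0 := by
      simp only [P, pow_zero, Nat.cast_one, mul_one]
      unfold th at hj
      exact hj
    have hbound : ∀ a, P a → a ≤ n - m := fun a ha => by
      have := hub a ha
      have := Nat.lt_two_pow_self (n := a)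
      omega
    let a := Nat.findGreatest P (n - m)
    have hPa : P a := Nat.findGreatest_spec (P := P) (Nat.zero_le _) hP0
    have hnPa : ¬ P (a + 1) := by
      intro h
      have h1 := hbound _ h
      exact Nat.findGreatest_is_greatest (P := P) (Nat.lt_succ_self _) h1 h
    have haA : a ∈ A := by
      simp only [hA, Finset.mem_filter, Finset.mem_range]
      have h2 := hub a hPa
      refine ⟨?_, h2.le⟩
      unfold lev
      have h3 : n - m ≤ 2 ^ (Nat.clog 2 (n - m)) := Nat.le_pow_clog (by norm_num) _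
      have h4 : 2 ^ a < 2 ^ (Nat.clog 2 (n - m)) := lt_of_lt_of_le h2 h3
      have h5 : a < Nat.clog 2 (n - m) := (Nat.pow_lt_pow_iff_right (by norm_num)).1 h4
      omega
    have hterm : (push f p j - q j) ^ 2 / wt q j ≤ g a j := by
      simp only [hg]
      rw [if_pos hPa]
      rw [div_le_iff₀ hw]
      have hnP : push f p j ≤ 720 * (lev m : ℝ) * ((2 ^ (a + 1) : ℕ) : ℝ) * wt q j := not_lt.1 hnPa
      have e1 : 720 * (lev m : ℝ) * ((2 ^ (a + 1) : ℕ) : ℝ) * wt q j = 2 * th m * 2 ^ a * wt q j := by
        unfold th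
        push_cast
        ring
      rw [e1] at hnP
      have hpn := Part2_push_nonneg hp f j
      have hqp : q j ≤ push f p j := by
        nlinarith
      have h5 : (push f p j - q j) ^ 2 ≤ push f p j * push f p j := by nlinarith
      have h6 : push f p j * push f p j ≤ push f p j * (2 * th m * 2 ^ a * wt q j) :=
        mul_le_mul_of_nonneg_left hnP hpn
      calc (push f p j - q j) ^ 2 ≤ push f p j * (2 * th m * 2 ^ a * wt q j) := h5.trans h6
        _ = 2 * th m * 2 ^ a * push f p j * wt q j := by ring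
    exact hterm.trans (Finset.single_le_sum (f := fun a => g a j) (fun a _ => hg0 a j) haA)
  calc ∑ j with th m * wt q j < push f p j, (push f p j - q j) ^ 2 / wt q j
      ≤ ∑ j with th m * wt q j < push f p j, ∑ a ∈ A, g a j := by
        apply Finset.sum_le_sum
        intro j hj
        exact hkey j (Finset.mem_filter.1 hj).2
    _ ≤ ∑ j, ∑ a ∈ A, g a j := by
        apply Finset.sum_le_sum_of_subset_of_nonneg (Finset.filter_subset _ _)
        intro j _ _
        exact Finset.sum_nonneg (fun a _ => hg0 a j)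
    _ = ∑ a ∈ A, ∑ j, g a j := Finset.sum_comm
    _ ≤ ∑ a ∈ A, 2 * th m * 2 ^ a * M (2 ^ a) := by
        apply Finset.sum_le_sum
        intro a ha
        have ha' := (Finset.mem_filter.1 ha).2
        have h1 := hM (2 ^ a) Nat.one_le_two_pow ha'
        have h2 : ∑ j, g a j = 2 * th m * 2 ^ a *
            ∑ j with 720 * (lev m : ℝ) * ((2 ^ a : ℕ) : ℝ) * wt q j < push f p j, push f p j := by
          simp only [hg]
          rw [← Finset.sum_filter, Finset.mul_sum]
        rw [h2]
        exact mul_le_mul_of_nonneg_left h1 (by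
          have : 0 ≤ th m := by linarith
          positivity)

end Pool.Agent.BinUp
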