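import Pool.Agent.BinUp.Expo
import Pool.Agent.BinUp.Part2
import Pool.Agent.BinUp.Part1
import Pool.Agent.BinUp.Part0

/-! MP_f7f4e7_lc, upper bound, module DBound. -/

namespace Pool.Agent.BinUp

open Finset Pool.Agent.Binning

theorem DBound_Lg_nonneg (n : ℕ) : 0 ≤ Lg n := by
  unfold Lg
  exact Real.log_nonneg (by have : (0 : ℝ) ≤ n := Nat.cast_nonneg n; linarith)

theorem DBound_Lg_half {n : ℕ} (hn : 1 ≤ n) : 1 / 2 ≤ Lg n := by
  unfold Lg
  have h1 : (2 : ℝ) ≤ (n : ℝ) + 1 := by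
    have : (1 : ℝ) ≤ n := by exact_mod_cast hn
    linarith
  have h2 : Real.log 2 ≤ Real.log ((n : ℝ) + 1) := Real.log_le_log (by norm_num) h1
  have := Real.log_two_gt_d9
  linarith

theorem DBound_kapu_nonneg (n k u : ℕ) : 0 ≤ kapu n k u := by
  unfold kapu
  have := DBound_Lg_nonneg n
  positivity

theorem DBound_one {n m s : ℕ} {q : Fin m → ℝ} {p : Fin n → ℝ} (hp : IsDist p) (hs : 1 ≤ s)
    {f : Fin n → Fin m} {ω : Fin s → Fin n} {κ : ℝ} (hκ : 0 ≤ κ) {A : Finset (Fin n)}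
    (hc : Conc p κ 1 (ind A) ω)
    (h2 : smp (ind A) ω ≤ 2 * (s * mass q (A.image f)) + 3 * κ) :
    mass p A ≤ 4 * mass q (A.image f) + 14 * κ / s := by
  have hs0 : (0 : ℝ) < s := by exact_mod_cast hs
  have e1 : ∑ i, ind A i * p i = mass p A := by
    unfold ind mass
    simp [Finset.sum_ite_mem]
  have e2 : ∑ i, ind A i ^ 2 * p i = mass p A := by
    unfold ind mass
    simp [Finset.sum_ite_mem]
  have hP : 0 ≤ mass p A := Finset.sum_nonneg fun i _ => hp.1 i
  unfold Conc at hc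
  rw [e1, e2] at hc
  have h3 := (abs_le.mp hc).1
  set P := mass p A with hPdef
  set Q := mass q (A.image f) with hQdef
  have h4 : 2 * √(κ * (s * P)) ≤ s * P / 2 + 2 * κ := by
    have h5 : √(κ * (s * P)) ≤ s * P / 4 + κ := by
      rw [Real.sqrt_le_left (by positivity)]
      nlinarith [sq_nonneg (s * P / 4 - κ)]
    linarith
  have h6 : s * P ≤ 4 * (s * Q) + 14 * κ := by linarith
  have h7 : P ≤ (4 * (s * Q) + 14 * κ) / s := by
    rw [le_div_iff₀ hs0]
    linarith
  have h8 : (4 * (s * Q) + 14 * κ) / s = 4 * Q + 14 * κ / s := by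
    field_simp
  linarith

/-- (***) from concentration and (C2) -/
theorem star_of {n m s : ℕ} {q : Fin m → ℝ} {p : Fin n → ℝ} (hq : IsDist q) (hp : IsDist p) (hs : 1 ≤ s)
    {f : Fin n → Fin m} {ω : Fin s → Fin n} (hG : Good q p ω) (h2 : C2 q f ω) {u : ℕ} (hu : 1 ≤ u)
    (hun : u ≤ n - m) : Star q p f u (14 * kapu n (n - m) u / s) := by
  have hG2 := hG.2.2 u hu hun
  have h22 := h2 u hu hun
  exact ⟨fun t => DBound_one hp hs (DBound_kapu_nonneg _ _ _) (hG2.1 t) (h22.1 t),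
    fun t t' => DBound_one hp hs (DBound_kapu_nonneg _ _ _) (hG2.2 t t') (h22.2 t t')⟩

theorem DBound_m_pos {m : ℕ} {q : Fin m → ℝ} (hq : IsDist q) : 1 ≤ m := by
  rcases Nat.eq_zero_or_pos m with rfl | h
  · have := hq.2
    simp at this
  · exact h

theorem DBound_chi_zero {m : ℕ} {q : Fin m → ℝ} : chi q q = 0 := by
  unfold chi
  simp

/-- `k = 0`. -/
theorem DBound_eq {n m : ℕ} {f f₀ : Fin n → Fin m} (hf : IsCoarsening f) (hf₀ : IsCoarsening f₀)
    (hk : n - m = 0) : f = f₀ := by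
  funext i
  have h1 := exc_le hf i
  have h2 := exc_le hf₀ i
  have h3 := co_add_exc hf i
  have h4 := co_add_exc hf₀ i
  apply Fin.ext
  omega

open Classical in
theorem DBound_part1 {n m : ℕ} {q : Fin m → ℝ} {p : Fin n → ℝ} (hq : IsDist q)
    {f f₀ : Fin n → Fin m} :
    ∑ j with push f p j ≤ th m * wt q j ∧ (∃ i, fib f j = {i} ∧ #(fib f₀ (f₀ i)) = 1),
      (push f p j - q j) ^ 2 / wt q j ≤
    ∑ i with #(fib f (f i)) = 1 ∧ #(fib f₀ (f₀ i)) = 1 ∧ p i ≤ th m * wt q (f i),
      (p i - q (f i)) ^ 2 / wt q (f i) := by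
  set I1 := (Finset.univ : Finset (Fin n)).filter
    (fun i => #(fib f (f i)) = 1 ∧ #(fib f₀ (f₀ i)) = 1 ∧ p i ≤ th m * wt q (f i)) with hI1
  have key : ∀ i, #(fib f (f i)) = 1 → fib f (f i) = {i} := by
    intro i hi
    obtain ⟨a, ha⟩ := Finset.card_eq_one.mp hi
    have : i ∈ fib f (f i) := by simp [fib]
    rw [ha, Finset.mem_singleton] at this
    rw [ha, this]
  have hpush : ∀ i, fib f (f i) = {i} → push f p (f i) = p i := by
    intro i hi
    have : push f p (f i) = ∑ a ∈ fib f (f i), p a := rfl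
    rw [this, hi, Finset.sum_singleton]
  have hinj : Set.InjOn f (I1 : Set (Fin n)) := by
    intro a ha b hb hab
    have ha' := (Finset.mem_filter.mp (Finset.mem_coe.mp ha)).2.1
    have hb' := (Finset.mem_filter.mp (Finset.mem_coe.mp hb)).2.1
    have h1 := key a ha'
    have h2 := key b hb'
    rw [hab, h2] at h1
    exact (Finset.singleton_injective h1).symm
  have h1 : ∑ i ∈ I1, (p i - q (f i)) ^ 2 / wt q (f i) =
      ∑ j ∈ I1.image f, (push f p j - q j) ^ 2 / wt q j := by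
    rw [Finset.sum_image hinj]
    refine Finset.sum_congr rfl fun i hi => ?_
    rw [hpush i (key i (Finset.mem_filter.mp hi).2.1)]
  rw [h1]
  refine Finset.sum_le_sum_of_subset_of_nonneg ?_ fun j _ _ =>
    div_nonneg (sq_nonneg _) (wt_pos hq j).le
  intro j hj
  rw [Finset.mem_filter] at hj
  obtain ⟨_, hle, i, hi, hi0⟩ := hj
  have hij : f i = j := by
    have : i ∈ fib f j := by rw [hi]; simp
    simpa [fib] using this
  subst hij
  rw [Finset.mem_image]
  refine ⟨i, ?_, rfl⟩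
  rw [hI1, Finset.mem_filter]
  refine ⟨Finset.mem_univ _, ?_, hi0, ?_⟩
  · rw [hi, Finset.card_singleton]
  · rw [← hpush i hi]; exact hle

theorem dbound : ∃ C : ℝ, 0 < C ∧ ∀ {n m s : ℕ} {q : Fin m → ℝ} {p : Fin n → ℝ} (_ : IsDist q) (_ : IsDist p)
    (_ : 1 ≤ s) {f f₀ : Fin n → Fin m} (_ : IsCoarsening f₀) (_ : push f₀ p = q)
    {ω : Fin s → Fin n} (_ : Good q p ω) (_ : Pass q f ω),
    s * chi q (push f p) ≤ C * ((n - m : ℕ) * Lg n ^ 3) := by
  refine ⟨4480 * 6480 + 24 * 2160 * 12 * 2 + 3 * 65 * 2160 ^ 2 * 10, by norm_num, ?_⟩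
  intro n m s q p hq hp hs f f₀ hf₀ hpush ω hG hPass
  classical
  have hf : IsCoarsening f := hPass.1
  have hm : 1 ≤ m := DBound_m_pos hq
  have hmn : m ≤ n := co_m_le hf
  have hs0 : (0 : ℝ) < s := by exact_mod_cast hs
  have hL0 := DBound_Lg_nonneg n
  have hLh := DBound_Lg_half (n := n) (by omega)
  rcases Nat.eq_zero_or_pos (n - m) with hk | hk
  · have : f = f₀ := DBound_eq hf hf₀ hk
    rw [this, hpush, DBound_chi_zero, hk]
    simp
  set L := Lg n with hLdef
  set k : ℝ := ((n - m : ℕ) : ℝ) with hkdef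
  have hk1 : (1 : ℝ) ≤ k := by rw [hkdef]; exact_mod_cast hk
  have hth : th m ≤ 2160 * L := by
    have := lev_le (m := m) hm hmn
    unfold th
    rw [← hLdef] at this
    linarith
  have hth0 : 0 ≤ th m := by
    unfold th; positivity
  have hlevk : (lev (n - m) : ℝ) ≤ 3 * L := lev_le (m := n - m) hk (Nat.sub_le n m)
  -- part 2
  have hP2 : s * ∑ j with th m * wt q j < push f p j, (push f p j - q j) ^ 2 / wt q j ≤
      4480 * 6480 * (k * L ^ 3) := by
    have h1 := part2 (M := fun u => 10 * (14 * kapu n (n - m) u / s)) hq hp hf hf₀ hpush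
      (fun u hu hun => by
        have hK : 0 ≤ 14 * kapu n (n - m) u / s :=
          div_nonneg (mul_nonneg (by norm_num) (DBound_kapu_nonneg _ _ _)) hs0.le
        exact expo hq hp hf hf₀ hpush hu hun hK (star_of hq hp hs hG hPass.2.2.2 hu hun))
    have h2 : ∀ a ∈ (range (lev (n - m))).filter (fun a => 2 ^ a ≤ n - m),
        2 * th m * 2 ^ a * (10 * (14 * kapu n (n - m) (2 ^ a) / s)) ≤
          4480 * (2160 * L) * k * L / s := by
      intro a ha
      have ha2 := (Finset.mem_filter.mp ha).2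
      have h3 : (2 : ℝ) ^ a * kapu n (n - m) (2 ^ a) ≤ 16 * k * L := by
        unfold kapu
        rw [← hLdef]
        have h4 : (2 : ℝ) ^ a * (((n - m) / 2 ^ a : ℕ) : ℝ) ≤ k := by
          have : 2 ^ a * ((n - m) / 2 ^ a) ≤ n - m := Nat.mul_div_le _ _
          rw [hkdef]
          exact_mod_cast this
        have h5 : (2 : ℝ) ^ a ≤ k := by
          rw [hkdef]
          exact_mod_cast ha2
        have h6 : (2 : ℝ) ^ a * (3 * (((n - m) / 2 ^ a : ℕ) : ℝ) + 13) ≤ 16 * k := by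
          have : (2 : ℝ) ^ a * (3 * (((n - m) / 2 ^ a : ℕ) : ℝ) + 13) =
            3 * ((2 : ℝ) ^ a * (((n - m) / 2 ^ a : ℕ) : ℝ)) + 13 * 2 ^ a := by ring
          rw [this]
          linarith
        calc (2 : ℝ) ^ a * ((3 * (((n - m) / 2 ^ a : ℕ) : ℝ) + 13) * L)
            = ((2 : ℝ) ^ a * (3 * (((n - m) / 2 ^ a : ℕ) : ℝ) + 13)) * L := by ring
          _ ≤ (16 * k) * L := mul_le_mul_of_nonneg_right h6 hL0
      have h7 : 2 * th m * 2 ^ a * (10 * (14 * kapu n (n - m) (2 ^ a) / s)) =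
          280 * th m * (2 ^ a * kapu n (n - m) (2 ^ a)) / s := by ring
      rw [h7]
      have hk0 : 0 ≤ k := by linarith
      have h8 : 280 * th m * (2 ^ a * kapu n (n - m) (2 ^ a)) ≤ 280 * (2160 * L) * (16 * k * L) := by
        have hkap := DBound_kapu_nonneg n (n - m) (2 ^ a)
        refine mul_le_mul (by linarith) h3 (by positivity) (by positivity)
      have h9 : 280 * (2160 * L) * (16 * k * L) = 4480 * (2160 * L) * k * L := by ring
      rw [← h9]
      exact div_le_div_of_nonneg_right h8 hs0.le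
    have h3 : ∑ a ∈ range (lev (n - m)) with 2 ^ a ≤ n - m,
        2 * th m * 2 ^ a * (10 * (14 * kapu n (n - m) (2 ^ a) / s)) ≤
        (lev (n - m) : ℝ) * (4480 * (2160 * L) * k * L / s) := by
      refine (Finset.sum_le_card_nsmul _ _ _ h2).trans ?_
      rw [nsmul_eq_mul]
      have hk0 : 0 ≤ k := by linarith
      refine mul_le_mul_of_nonneg_right ?_ (by positivity)
      have : ((range (lev (n - m))).filter (fun a => 2 ^ a ≤ n - m)).card ≤ lev (n - m) :=
        (Finset.card_filter_le _ _).trans (by rw [Finset.card_range])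
      exact_mod_cast this
    have h4 := h1.trans h3
    have hk0 : 0 ≤ k := by linarith
    calc (s : ℝ) * ∑ j with th m * wt q j < push f p j, (push f p j - q j) ^ 2 / wt q j
        ≤ s * ((lev (n - m) : ℝ) * (4480 * (2160 * L) * k * L / s)) :=
          mul_le_mul_of_nonneg_left h4 hs0.le
      _ = (lev (n - m) : ℝ) * (4480 * (2160 * L) * k * L) := by
          field_simp
      _ ≤ (3 * L) * (4480 * (2160 * L) * k * L) :=
          mul_le_mul_of_nonneg_right hlevk (by positivity)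
      _ = 4480 * 6480 * (k * L ^ 3) := by ring
  -- part 1
  have hP1 : s * ∑ j with push f p j ≤ th m * wt q j ∧
      (∃ i, fib f j = {i} ∧ #(fib f₀ (f₀ i)) = 1), (push f p j - q j) ^ 2 / wt q j ≤
      24 * 2160 * 12 * 2 * (k * L ^ 3) := by
    have h1 := part1 hq hp hf hf₀ hpush (hG.2.1 f f₀ hf hf₀) hPass.2.2.1
    have h2 : s * ∑ j with push f p j ≤ th m * wt q j ∧
        (∃ i, fib f j = {i} ∧ #(fib f₀ (f₀ i)) = 1), (push f p j - q j) ^ 2 / wt q j ≤
        24 * th m * kap1 n (n - m) := by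
      refine le_trans (mul_le_mul_of_nonneg_left ?_ hs0.le) h1
      have h3 := DBound_part1 (p := p) hq (f := f) (f₀ := f₀)
      convert h3 using 2
    refine h2.trans ?_
    unfold kap1
    rw [← hLdef, ← hkdef]
    have h5 : (2 * k + 10) * L ≤ 12 * k * L := mul_le_mul_of_nonneg_right (by linarith) hL0
    have hk0 : 0 ≤ k := by linarith
    calc 24 * th m * ((2 * k + 10) * L) ≤ 24 * (2160 * L) * (12 * k * L) :=
          mul_le_mul (by linarith) h5 (by positivity) (by positivity)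
      _ = 24 * 2160 * 12 * (k * L ^ 2) := by ring
      _ ≤ 24 * 2160 * 12 * (k * (2 * L ^ 3)) := by
          have : L ^ 2 ≤ 2 * L ^ 3 := by nlinarith [sq_nonneg L]
          have := mul_le_mul_of_nonneg_left this hk0
          linarith
      _ = 24 * 2160 * 12 * 2 * (k * L ^ 3) := by ring
  -- part 0
  have hP0 : s * ∑ j with push f p j ≤ th m * wt q j ∧
      ¬ (∃ i, fib f j = {i} ∧ #(fib f₀ (f₀ i)) = 1), (push f p j - q j) ^ 2 / wt q j ≤
      3 * 65 * 2160 ^ 2 * 10 * (k * L ^ 3) := by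
    have h1 := part0 hq hp hf hf₀ hG.1 hPass.2.1
    have h2 : s * ∑ j with push f p j ≤ th m * wt q j ∧
        ¬ (∃ i, fib f j = {i} ∧ #(fib f₀ (f₀ i)) = 1), (push f p j - q j) ^ 2 / wt q j ≤
        3 * (n - m) * (65 * th m ^ 2 * kap0 n) := by
      convert h1 using 3
    refine h2.trans ?_
    have hkk : (n : ℝ) - m = k := by
      rw [hkdef, Nat.cast_sub hmn]
    rw [hkk]
    unfold kap0
    rw [← hLdef]
    have hk0 : 0 ≤ k := by linarith
    have h3 : th m ^ 2 ≤ (2160 * L) ^ 2 := pow_le_pow_left₀ hth0 hth 2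
    calc 3 * k * (65 * th m ^ 2 * (10 * L)) ≤ 3 * k * (65 * (2160 * L) ^ 2 * (10 * L)) := by
          refine mul_le_mul_of_nonneg_left ?_ (by positivity)
          refine mul_le_mul_of_nonneg_right ?_ (by positivity)
          linarith
      _ = 3 * 65 * 2160 ^ 2 * 10 * (k * L ^ 3) := by ring
  have hsplit : chi q (push f p) =
      ∑ j with th m * wt q j < push f p j, (push f p j - q j) ^ 2 / wt q j +
      (∑ j with push f p j ≤ th m * wt q j ∧
        (∃ i, fib f j = {i} ∧ #(fib f₀ (f₀ i)) = 1), (push f p j - q j) ^ 2 / wt q j +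
      ∑ j with push f p j ≤ th m * wt q j ∧
        ¬ (∃ i, fib f j = {i} ∧ #(fib f₀ (f₀ i)) = 1), (push f p j - q j) ^ 2 / wt q j) := by
    unfold chi
    rw [← Finset.sum_filter_add_sum_filter_not Finset.univ (fun j => th m * wt q j < push f p j)]
    congr 1
    simp only [not_lt]
    rw [← Finset.sum_filter_add_sum_filter_not
      (Finset.univ.filter (fun j => push f p j ≤ th m * wt q j))
      (fun j => ∃ i, fib f j = {i} ∧ #(fib f₀ (f₀ i)) = 1)]
    rw [Finset.filter_filter, Finset.filter_filter]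
  rw [hsplit, mul_add, mul_add]
  have e : (4480 * 6480 + 24 * 2160 * 12 * 2 + 3 * 65 * 2160 ^ 2 * 10 : ℝ) * (k * L ^ 3) =
      4480 * 6480 * (k * L ^ 3) + (24 * 2160 * 12 * 2 * (k * L ^ 3) +
        3 * 65 * 2160 ^ 2 * 10 * (k * L ^ 3)) := by ring
  rw [e]
  exact add_le_add hP2 (add_le_add hP1 hP0)

end Pool.Agent.BinUp
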