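import Mathlib
import Pool.Agent.Binning.Defs

/-! MP_f7f4e7_lc, upper bound: definitions. -/

namespace Pool.Agent.BinUp

open Finset Pool.Agent.Binning

/-! ## probability (finite sums) -/

/-- expectation of `F` over `s` i.i.d. samples from `p` -/
def Ex {n : ℕ} (p : Fin n → ℝ) (s : ℕ) (F : (Fin s → Fin n) → ℝ) : ℝ :=
  ∑ ω : Fin s → Fin n, (∏ a, p (ω a)) * F ω

open Classical in
/-- probability of `P` over `s` i.i.d. samples from `p` -/
noncomputable def Pr {n : ℕ} (p : Fin n → ℝ) (s : ℕ) (P : (Fin s → Fin n) → Prop) : ℝ :=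
  Ex p s (fun ω => if P ω then 1 else 0)

/-- `∑_a v(ω_a)` -/
def smp {n s : ℕ} (v : Fin n → ℝ) (ω : Fin s → Fin n) : ℝ := ∑ a, v (ω a)

/-- indicator function -/
noncomputable def ind {n : ℕ} (A : Finset (Fin n)) : Fin n → ℝ := fun i => if i ∈ A then 1 else 0

/-- `p(A)` -/
def mass {n : ℕ} (p : Fin n → ℝ) (A : Finset (Fin n)) : ℝ := ∑ i ∈ A, p i

/-- the fibre `f⁻¹(j)` -/
def fib {n m : ℕ} (f : Fin n → Fin m) (j : Fin m) : Finset (Fin n) := {i | f i = j}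

/-! ## weights -/

/-- `[j - r, j + r]` -/
def nbd {m : ℕ} (j : Fin m) (r : ℕ) : Finset (Fin m) :=
  {b | (b : ℕ) ≤ j + r ∧ (j : ℕ) ≤ b + r}

/-- the number of scales -/
def lev (m : ℕ) : ℕ := Nat.clog 2 m + 1

/-- the weights -/
noncomputable def wt {m : ℕ} (q : Fin m → ℝ) (j : Fin m) : ℝ :=
  q j + 1 / m + (1 / (lev m : ℝ)) * ∑ a ∈ range (lev m), mass q (nbd j (2 ^ a)) / (2 * 2 ^ a + 1)

/-- `D = ∑ (p' - q)² / w` -/
noncomputable def chi {m : ℕ} (q p' : Fin m → ℝ) : ℝ := ∑ j, (p' j - q j) ^ 2 / wt q j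

/-! ## coarse paths -/

/-- the coarse level at position `i`: the number of `c` with `t c ≤ i` -/
def lvl {n V : ℕ} (t : Fin V → Fin n) (i : ℕ) : ℕ := #{c | (t c : ℕ) ≤ i}

/-- the excess `e_f(i) = i - f(i)` -/
def exc {n m : ℕ} (f : Fin n → Fin m) (i : Fin n) : ℕ := (i : ℕ) - f i

/-- the coarse path of `f` at resolution `u`: `t` lists the first positions with `u (c+1) ≤ e_f` -/
def IsCoarse {n m V : ℕ} (u : ℕ) (f : Fin n → Fin m) (t : Fin V → Fin n) : Prop :=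
  ∀ i : Fin n, lvl t i = exc f i / u

/-- the block `{i : i / u = l}` -/
def blk (n u l : ℕ) : Finset (Fin n) := {i | (i : ℕ) / u = l}

/-- the blocks `l - 1, l, l + 1` -/
def blk3 (n u l : ℕ) : Finset (Fin n) := {i | (i : ℕ) / u ≤ l + 1 ∧ l ≤ (i : ℕ) / u + 1}

/-- `l` is good for `t`: the level is constant on `blk3` -/
def GoodB {n V : ℕ} (t : Fin V → Fin n) (u l : ℕ) : Prop := ∀ i ∈ blk3 n u l, lvl t i = lvl t (l * u)

/-- `G_l` -/
def Gset (m u l c : ℕ) : Finset (Fin m) :=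
  {b | l * u < b + (c + 1) * u ∧ (b : ℕ) + c * u < (l + 1) * u}

/-- `Ĝ_l` -/
def Hset (m u l c : ℕ) : Finset (Fin m) :=
  {j | l * u < j + (c + 2) * u ∧ (j : ℕ) + c * u < (l + 2) * u}

open Classical in
/-- the set `A₁` of coarse data `t` (truth) and `t'` (candidate) -/
noncomputable def A1 {n m V V' : ℕ} (q : Fin m → ℝ) (u : ℕ) (t : Fin V → Fin n) (t' : Fin V' → Fin n) :
    Finset (Fin n) :=
  {i | ∃ l, i ∈ blk3 n u l ∧ l * u < n ∧ GoodB t u l ∧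
    24 * mass q (Hset m u l (lvl t' (l * u))) ≤ mass q (Gset m u l (lvl t (l * u)))}

/-- the union of the blocks of the positions `t c` -/
def Ublk {n V : ℕ} (u : ℕ) (t : Fin V → Fin n) : Finset (Fin n) := {i | ∃ c, (i : ℕ) / u = (t c : ℕ) / u}

/-- the number of blocks in the family (i) -/
def Vn (k u : ℕ) : ℕ := 3 * (k / u) + 3

/-! ## constants -/

noncomputable def Lg (n : ℕ) : ℝ := Real.log (n + 1)

/-- `θ` -/
noncomputable def th (m : ℕ) : ℝ := 720 * (lev m : ℝ)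

noncomputable def kap0 (n : ℕ) : ℝ := 10 * Lg n
noncomputable def kap1 (n k : ℕ) : ℝ := (2 * k + 10) * Lg n
noncomputable def kapu (n k u : ℕ) : ℝ := (3 * ((k / u : ℕ) : ℝ) + 13) * Lg n

/-- the test function of (C1) -/
noncomputable def vfun {n m : ℕ} (q : Fin m → ℝ) (f f' : Fin n → Fin m) (i : Fin n) : ℝ :=
  if #(fib f (f i)) = 1 ∧ #(fib f' (f' i)) = 1 ∧ q (f' i) ≤ th m * wt q (f i)
  then (q (f' i) - q (f i)) / wt q (f i) else 0

/-! ## the constraints of stage 1 -/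

def C0 {n m s : ℕ} (q : Fin m → ℝ) (f : Fin n → Fin m) (ω : Fin s → Fin n) : Prop :=
  ∀ j, |smp (ind (fib f j)) ω - s * q j| ≤ 2 * √(kap0 n * (s * q j)) + 2 * kap0 n

def C1 {n m s : ℕ} (q : Fin m → ℝ) (f : Fin n → Fin m) (ω : Fin s → Fin n) : Prop :=
  ∀ f' : Fin n → Fin m, IsCoarsening f' →
    |smp (vfun q f f') ω - s * ∑ i, vfun q f f' i * q (f i)| ≤
      2 * √(kap1 n (n - m) * (s * ∑ i, vfun q f f' i ^ 2 * q (f i))) + 2 * th m * kap1 n (n - m)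

def C2 {n m s : ℕ} (q : Fin m → ℝ) (f : Fin n → Fin m) (ω : Fin s → Fin n) : Prop :=
  ∀ u : ℕ, 1 ≤ u → u ≤ n - m →
    (∀ t : Fin (Vn (n - m) u) → Fin n,
      smp (ind (Ublk u t)) ω ≤ 2 * (s * mass q ((Ublk u t).image f)) + 3 * kapu n (n - m) u) ∧
    (∀ t t' : Fin ((n - m) / u) → Fin n,
      smp (ind (A1 q u t t')) ω ≤ 2 * (s * mass q ((A1 q u t t').image f)) + 3 * kapu n (n - m) u)

/-- `f` passes stage 1 -/
def Pass {n m s : ℕ} (q : Fin m → ℝ) (f : Fin n → Fin m) (ω : Fin s → Fin n) : Prop :=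
  IsCoarsening f ∧ C0 q f ω ∧ C1 q f ω ∧ C2 q f ω

/-! ## the good event -/

/-- concentration of `∑ v(ω_a)` -/
def Conc {n s : ℕ} (p : Fin n → ℝ) (κ θ : ℝ) (v : Fin n → ℝ) (ω : Fin s → Fin n) : Prop :=
  |smp v ω - s * ∑ i, v i * p i| ≤ 2 * √(κ * (s * ∑ i, v i ^ 2 * p i)) + 2 * θ * κ

/-- the good event of stage 1 -/
def Good {n m s : ℕ} (q : Fin m → ℝ) (p : Fin n → ℝ) (ω : Fin s → Fin n) : Prop :=
  (∀ x y : Fin n, Conc p (kap0 n) 1 (ind (Icc x y)) ω) ∧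
  (∀ f f' : Fin n → Fin m, IsCoarsening f → IsCoarsening f' →
    Conc p (kap1 n (n - m)) (th m) (vfun q f f') ω) ∧
  (∀ u : ℕ, 1 ≤ u → u ≤ n - m →
    (∀ t : Fin (Vn (n - m) u) → Fin n, Conc p (kapu n (n - m) u) 1 (ind (Ublk u t)) ω) ∧
    (∀ t t' : Fin ((n - m) / u) → Fin n, Conc p (kapu n (n - m) u) 1 (ind (A1 q u t t')) ω))

/-- the hypothesis (***) for the families -/
def Star {n m : ℕ} (q : Fin m → ℝ) (p : Fin n → ℝ) (f : Fin n → Fin m) (u : ℕ) (K : ℝ) : Prop :=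
  (∀ t : Fin (Vn (n - m) u) → Fin n, mass p (Ublk u t) ≤ 4 * mass q ((Ublk u t).image f) + K) ∧
  (∀ t t' : Fin ((n - m) / u) → Fin n, mass p (A1 q u t t') ≤ 4 * mass q ((A1 q u t t').image f) + K)

open Classical in
/-- the exposed blocks -/
noncomputable def Expd {n m : ℕ} (q : Fin m → ℝ) (p : Fin n → ℝ) (u : ℕ) {V : ℕ} (t' : Fin V → Fin n) :
    Finset ℕ :=
  {l ∈ range n | l * u < n ∧ 24 * mass q (Hset m u l (lvl t' (l * u))) ≤ mass p (blk n u l)}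

/-! ## stage 2 -/

/-- the count of `j` -/
def cnt {m s : ℕ} (ω : Fin s → Fin m) (j : Fin m) : ℕ := #{a | ω a = j}

/-- the statistic of stage 2 -/
noncomputable def Tst {m s : ℕ} (q : Fin m → ℝ) (ω : Fin s → Fin m) : ℝ :=
  ∑ j, ((cnt ω j : ℝ) * (cnt ω j - 1) - 2 * (s - 1) * q j * cnt ω j + s * (s - 1) * q j ^ 2) / wt q j

end Pool.Agent.BinUp
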