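import Pool.Agent.BinUp.Blk
import Pool.Agent.BinUp.Wt

/-! MP_f7f4e7_lc, upper bound, module ExpL. -/

namespace Pool.Agent.BinUp

open Finset Pool.Agent.Binning

section Expo
variable {n m : ℕ}

/-- a set of at most `V` blocks is `Ublk` of a tuple -/
theorem exists_tuple {n u V : ℕ} (L : Finset ℕ) (hne : L.Nonempty) (hcard : #L ≤ V)
    (hL : ∀ l ∈ L, ∃ i : Fin n, (i : ℕ) / u = l) :
    ∃ t : Fin V → Fin n, Ublk u t = ({i | (i : ℕ) / u ∈ L} : Finset (Fin n)) := by
  classical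
  obtain ⟨l₀, hl₀⟩ := hne
  obtain ⟨i₀, -⟩ := hL l₀ hl₀
  have : Nonempty (Fin n) := ⟨i₀⟩
  choose! g hg using hL
  let e : Fin (#L) ≃ L := (L.equivFin).symm
  refine ⟨fun c => if h : (c : ℕ) < #L then g (e ⟨c, h⟩) else g l₀, ?_⟩
  ext i
  simp only [Ublk, mem_filter, mem_univ, true_and]
  constructor
  · rintro ⟨c, hc⟩
    rw [hc]
    by_cases h : (c : ℕ) < #L
    · rw [dif_pos h, hg _ (e ⟨c, h⟩).2]
      exact (e ⟨c, h⟩).2
    · rw [dif_neg h, hg _ hl₀]
      exact hl₀
  · intro hi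
    have h2 : ((e.symm ⟨(i : ℕ) / u, hi⟩ : Fin (#L)) : ℕ) < #L := (e.symm ⟨_, hi⟩).2
    refine ⟨⟨(e.symm ⟨(i : ℕ) / u, hi⟩ : Fin (#L)), lt_of_lt_of_le h2 hcard⟩, ?_⟩
    rw [dif_pos h2]
    have h3 : e ⟨((e.symm ⟨(i : ℕ) / u, hi⟩ : Fin (#L)) : ℕ), h2⟩ = ⟨(i : ℕ) / u, hi⟩ := by
      rw [Fin.eta, Equiv.apply_symm_apply]
    have h4 := hg _ (e ⟨((e.symm ⟨(i : ℕ) / u, hi⟩ : Fin (#L)) : ℕ), h2⟩).2
    rw [h4, h3]

theorem push_eq_mass {n m : ℕ} (f : Fin n → Fin m) (p : Fin n → ℝ) (j : Fin m) :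
    push f p j = mass p (fib f j) := rfl

theorem mass_mono {n : ℕ} {p : Fin n → ℝ} (hp : IsDist p) {A B : Finset (Fin n)} (h : A ⊆ B) :
    mass p A ≤ mass p B :=
  Finset.sum_le_sum_of_subset_of_nonneg h (fun i _ _ => hp.1 i)

theorem mass_biUnion_le {n : ℕ} {ι : Type*} [DecidableEq ι] {p : Fin n → ℝ} (hp : ∀ i, 0 ≤ p i)
    (L : Finset ι) (g : ι → Finset (Fin n)) : mass p (L.biUnion g) ≤ ∑ l ∈ L, mass p (g l) := by
  classical
  induction L using Finset.induction_on with
  | empty => simp [mass]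
  | insert a L ha ih =>
    rw [biUnion_insert, sum_insert ha]
    have h : mass p (g a ∪ L.biUnion g) + mass p (g a ∩ L.biUnion g) = mass p (g a) + mass p (L.biUnion g) :=
      sum_union_inter
    have h2 : 0 ≤ mass p (g a ∩ L.biUnion g) := sum_nonneg (fun i _ => hp i)
    linarith

/-- part A3: the indices with large fibres -/
theorem expo_large {q : Fin m → ℝ} {p : Fin n → ℝ} (hq : IsDist q) (hp : IsDist p) {f : Fin n → Fin m}
    (hf : IsCoarsening f) {u : ℕ} (hu : 1 ≤ u) (hun : u ≤ n - m) {K : ℝ} (hK : 0 ≤ K) (hS : Star q p f u K) :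
    ∑ j with 720 * lev m * u * wt q j < push f p j ∧ u < #(fib f j), push f p j ≤ 2 * K := by
  classical
  set B : Finset (Fin m) := {j | 720 * lev m * u * wt q j < push f p j ∧ u < #(fib f j)} with hB
  by_cases hBe : B = ∅
  · rw [hBe, sum_empty]; positivity
  -- the blocks
  set L : Finset ℕ := (B.biUnion (fun j => fib f j)).image (fun i : Fin n => (i : ℕ) / u) with hLdef
  have hmemL : ∀ l, l ∈ L ↔ ∃ j ∈ B, ∃ i ∈ fib f j, (i : ℕ) / u = l := by
    intro l
    simp only [hLdef, mem_image, mem_biUnion]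
    constructor
    · rintro ⟨i, ⟨j, hj, hi⟩, h⟩; exact ⟨j, hj, i, hi, h⟩
    · rintro ⟨j, hj, i, hi, h⟩; exact ⟨i, ⟨j, hj, hi⟩, h⟩
  have hfibcard : ∀ j ∈ B, #((fib f j).image (fun i : Fin n => (i : ℕ) / u)) ≤ 3 * ((#(fib f j) - 1) / u) := by
    intro j hj
    have hju : u < #(fib f j) := by
      have := (mem_filter.1 hj).2
      exact this.2
    obtain ⟨x, y, hxy⟩ := fib_icc hf j
    have hsub : (fib f j).image (fun i : Fin n => (i : ℕ) / u) ⊆ Icc ((x : ℕ) / u) ((y : ℕ) / u) := by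
      intro l hl
      obtain ⟨i, hi, rfl⟩ := mem_image.1 hl
      rw [hxy, mem_Icc] at hi
      exact mem_Icc.2 ⟨Nat.div_le_div_right hi.1, Nat.div_le_div_right hi.2⟩
    have hne : (fib f j).Nonempty := card_pos.1 (by omega)
    obtain ⟨i₁, hi₁⟩ := hne
    have hxle : x ≤ y := by
      rw [hxy, mem_Icc] at hi₁
      exact hi₁.1.trans hi₁.2
    have hx : x ∈ fib f j := by rw [hxy]; exact left_mem_Icc.2 hxle
    have hy : y ∈ fib f j := by rw [hxy]; exact right_mem_Icc.2 hxle
    have hspan := fib_span hf hx hy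
    have h1 : #((fib f j).image (fun i : Fin n => (i : ℕ) / u)) ≤ (y : ℕ) / u + 1 - (x : ℕ) / u := by
      refine (card_le_card hsub).trans ?_
      rw [Nat.card_Icc]
    set c := #(fib f j) - 1 with hc
    have hyc : (y : ℕ) ≤ x + c := by omega
    have hdiv : (y : ℕ) / u ≤ x / u + c / u + 1 := by
      have h2 : (y : ℕ) / u ≤ (x + c) / u := Nat.div_le_div_right hyc
      have h3 : ((x : ℕ) + c) / u ≤ x / u + c / u + 1 := by
        rw [Nat.add_div (by omega : 0 < u)]
        split_ifs <;> omega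
      omega
    have hcu : 1 ≤ c / u := by
      rw [Nat.one_le_div_iff (by omega)]
      omega
    omega
  have hLcard : #L ≤ Vn (n - m) u := by
    have h1 : L = B.biUnion (fun j => (fib f j).image (fun i : Fin n => (i : ℕ) / u)) := by
      ext l
      rw [hmemL]
      simp only [mem_biUnion, mem_image]
    have h2 : #L ≤ ∑ j ∈ B, 3 * ((#(fib f j) - 1) / u) := by
      rw [h1]
      exact card_biUnion_le.trans (sum_le_sum hfibcard)
    have h3 : ∑ j ∈ B, 3 * ((#(fib f j) - 1) / u) ≤ 3 * ((∑ j ∈ B, (#(fib f j) - 1)) / u) := by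
      rw [← mul_sum]
      refine Nat.mul_le_mul_left 3 ?_
      rw [Nat.le_div_iff_mul_le (by omega), sum_mul]
      exact sum_le_sum (fun j _ => Nat.div_mul_le_self _ _)
    have h4 : ∑ j ∈ B, (#(fib f j) - 1) ≤ n - m := by
      rw [← sum_fib hf]
      exact sum_le_sum_of_subset (subset_univ _)
    have h5 : (∑ j ∈ B, (#(fib f j) - 1)) / u ≤ (n - m) / u := Nat.div_le_div_right h4
    unfold Vn
    omega
  have hLne : L.Nonempty := by
    obtain ⟨j, hj⟩ := nonempty_iff_ne_empty.2 hBe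
    have hju : u < #(fib f j) := by
      have := (mem_filter.1 hj).2
      exact this.2
    obtain ⟨i, hi⟩ := card_pos.1 (by omega : 0 < #(fib f j))
    exact ⟨_, (hmemL _).2 ⟨j, hj, i, hi, rfl⟩⟩
  obtain ⟨t, ht⟩ := exists_tuple (n := n) (u := u) (V := Vn (n - m) u) L hLne hLcard
    (fun l hl => by
      obtain ⟨j, hj, i, hi, h⟩ := (hmemL l).1 hl
      exact ⟨i, h⟩)
  have hstar := hS.1 t
  rw [ht] at hstar
  set A : Finset (Fin n) := {i | (i : ℕ) / u ∈ L} with hA
  -- mass of A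
  have hsum_le : ∑ j ∈ B, push f p j ≤ mass p A := by
    have h1 : ∑ j ∈ B, push f p j = mass p (B.biUnion (fun j => fib f j)) := by
      unfold mass
      rw [sum_biUnion]
      · rfl
      · intro a _ b _ hab
        rw [Function.onFun, disjoint_left]
        intro i hia hib
        simp only [fib, mem_filter, mem_univ, true_and] at hia hib
        exact hab (hia.symm.trans hib)
    rw [h1]
    refine mass_mono hp ?_
    intro i hi
    obtain ⟨j, hj, hi'⟩ := mem_biUnion.1 hi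
    exact mem_filter.2 ⟨mem_univ _, (hmemL _).2 ⟨j, hj, i, hi', rfl⟩⟩
  have himg : A.image f ⊆ B.biUnion (fun j => nbd j u) := by
    intro b hb
    obtain ⟨i, hi, rfl⟩ := mem_image.1 hb
    obtain ⟨j, hj, i', hi', hii⟩ := (hmemL _).1 (mem_filter.1 hi).2
    refine mem_biUnion.2 ⟨j, hj, ?_⟩
    have hfi' : f i' = j := (mem_filter.1 hi').2
    have hup : 0 < u := by omega
    have e1 := Nat.div_add_mod (i : ℕ) u
    have e2 := Nat.div_add_mod (i' : ℕ) u
    have e3 := Nat.mod_lt (i : ℕ) hup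
    have e4 := Nat.mod_lt (i' : ℕ) hup
    rw [← hii] at e1
    simp only [nbd, mem_filter, mem_univ, true_and]
    rw [← hfi']
    rcases le_total i i' with h | h
    · have h5 := co_lip hf h
      have h6 : f i ≤ f i' := hf.1 h
      have h6' : (f i : ℕ) ≤ f i' := h6
      have h7 : (i : ℕ) ≤ i' := h
      constructor <;> omega
    · have h5 := co_lip hf h
      have h6 : f i' ≤ f i := hf.1 h
      have h6' : (f i' : ℕ) ≤ f i := h6
      have h7 : (i' : ℕ) ≤ i := h
      constructor <;> omega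
  have hmass_img : mass q (A.image f) ≤ (∑ j ∈ B, push f p j) / 144 := by
    calc mass q (A.image f) ≤ mass q (B.biUnion (fun j => nbd j u)) := mass_mono hq himg
      _ ≤ ∑ j ∈ B, mass q (nbd j u) := mass_biUnion_le hq.1 _ _
      _ ≤ ∑ j ∈ B, push f p j / 144 := by
          refine sum_le_sum (fun j hj => ?_)
          have h1 := mass_nbd_le hq j hu
          have h2 := ((mem_filter.1 hj).2).1
          have h3 : 5 * (u : ℝ) * lev m * wt q j = (720 * lev m * u * wt q j) / 144 := by ring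
          rw [h3] at h1
          linarith
      _ = (∑ j ∈ B, push f p j) / 144 := by rw [sum_div]
  have hApos : 0 ≤ mass p A := sum_nonneg (fun i _ => hp.1 i)
  have h1 : mass q (A.image f) ≤ mass p A / 144 := by linarith
  have h2 : mass p A ≤ 2 * K := by linarith
  linarith

end Expo

end Pool.Agent.BinUp
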