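import Pool.Agent.BinUp.Blk
import Pool.Agent.BinUp.Wt
import Pool.Agent.BinUp.ExpL

/-! MP_f7f4e7_lc, upper bound, module ExpB. -/

namespace Pool.Agent.BinUp

open Finset Pool.Agent.Binning

section Expo
variable {n m : ℕ}

open Classical in
/-- part A2: the exposed bad blocks -/
theorem expo_bad {q : Fin m → ℝ} {p : Fin n → ℝ} (hq : IsDist q) (hp : IsDist p) {f : Fin n → Fin m}
    (hf : IsCoarsening f) {u : ℕ} (hu : 1 ≤ u) {K : ℝ} (hK : 0 ≤ K)
    (hS : Star q p f u K) {t t' : Fin ((n - m) / u) → Fin n} (ht' : IsCoarse u f t') :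
    ∑ l ∈ Expd q p u t' with ¬ GoodB t u l, mass p (blk n u l) ≤ 2 * K := by
  set L : Finset ℕ := {l ∈ Expd q p u t' | ¬ GoodB t u l} with hLdef
  have hmem : ∀ l ∈ L, l ∈ range n ∧ l * u < n ∧
      24 * mass q (Hset m u l (lvl t' (l * u))) ≤ mass p (blk n u l) ∧ ¬ GoodB t u l := by
    intro l hl
    obtain ⟨h1, h2⟩ := mem_filter.1 hl
    obtain ⟨h3, h4⟩ := mem_filter.1 h1
    exact ⟨h3, h4.1, h4.2, h2⟩
  by_cases hLe : L = ∅
  · rw [hLe, sum_empty]; positivity
  have hLcard : #L ≤ Vn (n - m) u := by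
    have h1 : #L ≤ 3 * ((n - m) / u) := by
      refine (card_le_card ?_).trans (bad_count (n := n) (t := t) hu)
      intro l hl
      obtain ⟨h1, h2, -, h4⟩ := hmem l hl
      exact mem_filter.2 ⟨h1, h2, h4⟩
    unfold Vn
    omega
  have hup : 0 < u := by omega
  obtain ⟨t₂, ht₂⟩ := exists_tuple (n := n) (u := u) (V := Vn (n - m) u) L (nonempty_iff_ne_empty.2 hLe) hLcard
    (fun l hl => ⟨⟨l * u, (hmem l hl).2.1⟩, Nat.mul_div_cancel l hup⟩)
  have hstar := hS.1 t₂
  rw [ht₂] at hstar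
  set A : Finset (Fin n) := {i | (i : ℕ) / u ∈ L} with hA
  have hAeq : A = L.biUnion (fun l => blk n u l) := by
    ext i
    simp only [hA, mem_filter, mem_univ, true_and, mem_biUnion, blk]
    constructor
    · intro h; exact ⟨_, h, rfl⟩
    · rintro ⟨l, hl, h⟩; rw [h]; exact hl
  have hsum : mass p A = ∑ l ∈ L, mass p (blk n u l) := by
    rw [hAeq]
    unfold mass
    rw [sum_biUnion]
    intro a _ b _ hab
    rw [Function.onFun, disjoint_left]
    intro i hia hib
    simp only [blk, mem_filter, mem_univ, true_and] at hia hib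
    exact hab (hia.symm.trans hib)
  have himg : A.image f ⊆ L.biUnion (fun l => Hset m u l (lvl t' (l * u))) := by
    intro b hb
    obtain ⟨i, hi, rfl⟩ := mem_image.1 hb
    have hil : (i : ℕ) / u ∈ L := (mem_filter.1 hi).2
    refine mem_biUnion.2 ⟨_, hil, ?_⟩
    refine cand_in hf hu ht' (hmem _ hil).2.1 ?_
    simp only [blk3, mem_filter, mem_univ, true_and]
    omega
  have hmass_img : mass q (A.image f) ≤ mass p A / 24 := by
    calc mass q (A.image f) ≤ mass q (L.biUnion (fun l => Hset m u l (lvl t' (l * u)))) :=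
          Finset.sum_le_sum_of_subset_of_nonneg himg (fun i _ _ => hq.1 i)
      _ ≤ ∑ l ∈ L, mass q (Hset m u l (lvl t' (l * u))) := mass_biUnion_le hq.1 _ _
      _ ≤ ∑ l ∈ L, mass p (blk n u l) / 24 := by
          refine sum_le_sum (fun l hl => ?_)
          have := (hmem l hl).2.2.1
          linarith
      _ = mass p A / 24 := by rw [hsum, sum_div]
  have hApos : 0 ≤ mass p A := sum_nonneg (fun i _ => hp.1 i)
  rw [← hsum]
  linarith

end Expo

end Pool.Agent.BinUp
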