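import Pool.Agent.BinUp.Blk
import Pool.Agent.BinUp.Wt

/-! MP_f7f4e7_lc, upper bound, module ExpG. -/

namespace Pool.Agent.BinUp

open Finset Pool.Agent.Binning

section Expo
variable {n m : ℕ}

theorem ExpG_mass_mono {k : ℕ} {p : Fin k → ℝ} (hp : ∀ i, 0 ≤ p i) {A B : Finset (Fin k)}
    (h : A ⊆ B) : mass p A ≤ mass p B :=
  Finset.sum_le_sum_of_subset_of_nonneg h (fun i _ _ => hp i)

theorem ExpG_mass_biUnion {k : ℕ} {ι : Type*} [DecidableEq ι] {p : Fin k → ℝ} (hp : ∀ i, 0 ≤ p i)
    (L : Finset ι) (F : ι → Finset (Fin k)) : mass p (L.biUnion F) ≤ ∑ l ∈ L, mass p (F l) := by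
  classical
  induction L using Finset.induction_on with
  | empty => simp [mass]
  | insert a s ha ih =>
    rw [Finset.biUnion_insert, Finset.sum_insert ha]
    have : mass p (F a ∪ s.biUnion F) ≤ mass p (F a) + mass p (s.biUnion F) := by
      unfold mass
      have h := Finset.sum_union_inter (s₁ := F a) (s₂ := s.biUnion F) (f := p)
      have h2 : 0 ≤ ∑ i ∈ F a ∩ s.biUnion F, p i := Finset.sum_nonneg (fun i _ => hp i)
      linarith
    linarith

theorem ExpG_push_mass {q : Fin m → ℝ} {p : Fin n → ℝ} {f₀ : Fin n → Fin m}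
    (hpush : push f₀ p = q) (B : Finset (Fin m)) :
    mass q B = mass p ({i | f₀ i ∈ B} : Finset (Fin n)) := by
  classical
  unfold mass
  rw [← hpush]
  unfold push
  exact Finset.sum_fiberwise_eq_sum_filter Finset.univ B f₀ p

open Classical in
/-- part A1: the exposed good blocks -/
theorem expo_good {q : Fin m → ℝ} {p : Fin n → ℝ} (hq : IsDist q) (hp : IsDist p) {f f₀ : Fin n → Fin m}
    (hf : IsCoarsening f) (hf₀ : IsCoarsening f₀) (hpush : push f₀ p = q) {u : ℕ} (hu : 1 ≤ u)
    {K : ℝ} (hK : 0 ≤ K) (hS : Star q p f u K)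
    {t t' : Fin ((n - m) / u) → Fin n} (ht : IsCoarse u f₀ t) (ht' : IsCoarse u f t') :
    ∑ l ∈ Expd q p u t' with GoodB t u l, mass p (blk n u l) ≤ 2 * K := by
  set L' : Finset ℕ := {l ∈ range n | l * u < n ∧ GoodB t u l ∧
    24 * mass q (Hset m u l (lvl t' (l * u))) ≤ mass q (Gset m u l (lvl t (l * u)))} with hL'
  have hlt : ∀ l, l * u < n → l < n := fun l hl => lt_of_le_of_lt (Nat.le_mul_of_pos_right l hu) hl
  -- `p(blk l) ≤ q(G_l)`
  have h1 : ∀ l, l * u < n → GoodB t u l →
      mass p (blk n u l) ≤ mass q (Gset m u l (lvl t (l * u))) := by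
    intro l hl hg
    rw [ExpG_push_mass hpush]
    apply ExpG_mass_mono hp.1
    intro i hi
    simp only [mem_filter, mem_univ, true_and]
    exact good_in hf₀ hu ht hg hl hi
  have h2 : ∀ l, l * u < n → GoodB t u l →
      mass q (Gset m u l (lvl t (l * u))) ≤ mass p (blk3 n u l) := by
    intro l hl hg
    rw [ExpG_push_mass hpush]
    apply ExpG_mass_mono hp.1
    intro i hi
    simp only [mem_filter, mem_univ, true_and] at hi
    exact good_out hf₀ hu ht hg hl hi
  have hsub : (Expd q p u t').filter (fun l => GoodB t u l) ⊆ L' := by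
    intro l hl
    simp only [Expd, mem_filter, mem_range] at hl
    obtain ⟨⟨hln, hlu, hle⟩, hg⟩ := hl
    rw [hL']
    simp only [mem_filter, mem_range]
    exact ⟨hln, hlu, hg, hle.trans (h1 l hlu hg)⟩
  have hA : A1 q u t t' = L'.biUnion (fun l => blk3 n u l) := by
    ext i
    simp only [A1, mem_filter, mem_univ, true_and, mem_biUnion, hL', mem_range]
    constructor
    · rintro ⟨l, h3, hlu, hg, hle⟩
      exact ⟨l, ⟨hlt l hlu, hlu, hg, hle⟩, h3⟩
    · rintro ⟨l, ⟨_, hlu, hg, hle⟩, h3⟩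
      exact ⟨l, h3, hlu, hg, hle⟩
  have h3 : ∑ l ∈ L', mass p (blk3 n u l) ≤ 3 * mass p (A1 q u t t') := by
    rw [hA]; exact sum_blk3 p hp.1 L'
  have h4 : mass q ((A1 q u t t').image f) ≤ ∑ l ∈ L', mass q (Hset m u l (lvl t' (l * u))) := by
    refine (ExpG_mass_mono hq.1 ?_).trans (ExpG_mass_biUnion hq.1 L' _)
    intro b hb
    rw [hA] at hb
    simp only [mem_image, mem_biUnion] at hb ⊢
    obtain ⟨i, ⟨l, hl, hi⟩, rfl⟩ := hb
    refine ⟨l, hl, ?_⟩
    rw [hL'] at hl
    simp only [mem_filter, mem_range] at hl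
    exact cand_in hf hu ht' hl.2.1 hi
  have h5 : 24 * ∑ l ∈ L', mass q (Hset m u l (lvl t' (l * u))) ≤ ∑ l ∈ L', mass p (blk3 n u l) := by
    rw [Finset.mul_sum]
    apply Finset.sum_le_sum
    intro l hl
    rw [hL'] at hl
    simp only [mem_filter, mem_range] at hl
    exact hl.2.2.2.trans (h2 l hl.2.1 hl.2.2.1)
  have h6 := hS.2 t t'
  have h7 : mass p (A1 q u t t') ≤ 2 * K := by linarith
  refine le_trans ?_ h7
  -- disjoint blocks
  have hdis : Set.PairwiseDisjoint (↑((Expd q p u t').filter (fun l => GoodB t u l)) : Set ℕ)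
      (fun l => blk n u l) := by
    intro a _ b _ hab
    rw [Function.onFun, Finset.disjoint_left]
    intro i hia hib
    simp only [blk, mem_filter, mem_univ, true_and] at hia hib
    exact hab (hia.symm.trans hib)
  have h8 : ∑ l ∈ Expd q p u t' with GoodB t u l, mass p (blk n u l) =
      mass p (((Expd q p u t').filter (fun l => GoodB t u l)).biUnion (fun l => blk n u l)) := by
    unfold mass
    rw [Finset.sum_biUnion hdis]
  rw [h8]
  apply ExpG_mass_mono hp.1
  rw [hA]
  intro i hi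
  simp only [mem_biUnion] at hi ⊢
  obtain ⟨l, hl, hi⟩ := hi
  refine ⟨l, hsub hl, ?_⟩
  simp only [blk, blk3, mem_filter, mem_univ, true_and] at hi ⊢
  omega

end Expo

end Pool.Agent.BinUp
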