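import Pool.Agent.BinUp.Blk
import Pool.Agent.BinUp.Wt

/-! MP_f7f4e7_lc, upper bound, module ExpS. -/

namespace Pool.Agent.BinUp

open Finset Pool.Agent.Binning

section Expo
variable {n m : ℕ}

/-- a fibre of size `≤ u` meets at most two blocks -/
theorem ExpS_sub {f : Fin n → Fin m} (hf : IsCoarsening f) {u : ℕ} (hu : 1 ≤ u) {j : Fin m}
    (hj : #(fib f j) ≤ u) : ∃ l : ℕ, fib f j ⊆ blk n u l ∪ blk n u (l + 1) := by
  obtain ⟨i₀, hi₀⟩ := hf.2 j
  have hne : (fib f j).Nonempty := ⟨i₀, by simp [fib, hi₀]⟩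
  refine ⟨((fib f j).min' hne : ℕ) / u, fun i hi => ?_⟩
  have hmin := (fib f j).min'_mem hne
  have h1 : ((fib f j).min' hne : ℕ) ≤ i := by
    have := (fib f j).min'_le i hi
    exact_mod_cast this
  have h2 := fib_span hf hmin hi
  have h3 : (i : ℕ) ≤ (fib f j).min' hne + u := by omega
  have h4 : ((fib f j).min' hne : ℕ) / u ≤ (i : ℕ) / u := Nat.div_le_div_right h1
  have h5 : (i : ℕ) / u ≤ ((fib f j).min' hne : ℕ) / u + 1 := by
    calc (i : ℕ) / u ≤ (((fib f j).min' hne : ℕ) + u) / u := Nat.div_le_div_right h3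
      _ = ((fib f j).min' hne : ℕ) / u + 1 := Nat.add_div_right _ (by omega)
  simp only [blk, mem_union, mem_filter, mem_univ, true_and]
  omega

theorem ExpS_mass_mono {p : Fin n → ℝ} (hp : ∀ i, 0 ≤ p i) {A B : Finset (Fin n)} (h : A ⊆ B) :
    mass p A ≤ mass p B := sum_le_sum_of_subset_of_nonneg h (fun i _ _ => hp i)

theorem ExpS_push (f : Fin n → Fin m) (p : Fin n → ℝ) (j : Fin m) : push f p j = mass p (fib f j) := rfl

theorem ExpS_half {p : Fin n → ℝ} (hp : ∀ i, 0 ≤ p i) {f : Fin n → Fin m} (hf : IsCoarsening f)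
    {u : ℕ} (hu : 1 ≤ u) {j : Fin m} (hj : #(fib f j) ≤ u) :
    ∃ l : ℕ, push f p j ≤ 2 * mass p (fib f j ∩ blk n u l) := by
  obtain ⟨l, hl⟩ := ExpS_sub hf hu hj
  have h : push f p j ≤ mass p (fib f j ∩ blk n u l) + mass p (fib f j ∩ blk n u (l + 1)) := by
    rw [ExpS_push]
    calc mass p (fib f j) ≤ mass p ((fib f j ∩ blk n u l) ∪ (fib f j ∩ blk n u (l + 1))) := by
          apply ExpS_mass_mono hp
          rw [← inter_union_distrib_left]
          exact subset_inter subset_rfl hl
      _ ≤ _ := by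
          unfold mass
          have := sum_union_inter (s₁ := fib f j ∩ blk n u l) (s₂ := fib f j ∩ blk n u (l + 1)) (f := p)
          have h0 : 0 ≤ ∑ i ∈ (fib f j ∩ blk n u l) ∩ (fib f j ∩ blk n u (l + 1)), p i :=
            sum_nonneg (fun i _ => hp i)
          linarith
  by_cases hc : mass p (fib f j ∩ blk n u l) ≤ mass p (fib f j ∩ blk n u (l + 1))
  · exact ⟨l + 1, by linarith⟩
  · exact ⟨l, by linarith⟩

/-- part S: the indices with small fibres -/
theorem expo_small {q : Fin m → ℝ} {p : Fin n → ℝ} (hq : IsDist q) (hp : IsDist p) {f : Fin n → Fin m}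
    (hf : IsCoarsening f) {u : ℕ} (hu : 1 ≤ u) {t' : Fin ((n - m) / u) → Fin n} (ht' : IsCoarse u f t') :
    ∑ j with 720 * lev m * u * wt q j < push f p j ∧ ¬ u < #(fib f j), push f p j ≤
      2 * ∑ l ∈ Expd q p u t', mass p (blk n u l) := by
  classical
  have key : ∀ j ∈ (univ : Finset (Fin m)).filter
      (fun j => 720 * lev m * u * wt q j < push f p j ∧ ¬ u < #(fib f j)),
      push f p j ≤ 2 * ∑ l ∈ Expd q p u t', mass p (fib f j ∩ blk n u l) := by
    intro j hj
    simp only [mem_filter, mem_univ, true_and, not_lt] at hj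
    obtain ⟨hj1, hj2⟩ := hj
    obtain ⟨l, hl⟩ := ExpS_half hp.1 hf hu hj2
    have hw := wt_pos hq j
    have hu' : (1 : ℝ) ≤ u := by exact_mod_cast hu
    have hlev : (1 : ℝ) ≤ lev m := by
      have : 1 ≤ lev m := by unfold lev; omega
      exact_mod_cast this
    have hpos : 0 < mass p (fib f j ∩ blk n u l) := by
      have : 0 < 720 * (lev m : ℝ) * u * wt q j := by positivity
      linarith
    have hne : (fib f j ∩ blk n u l).Nonempty := by
      by_contra h
      rw [not_nonempty_iff_eq_empty] at h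
      rw [h] at hpos
      simp [mass] at hpos
    obtain ⟨i, hi⟩ := hne
    rw [mem_inter] at hi
    have hfi : f i = j := by simpa [fib] using hi.1
    have hil : (i : ℕ) / u = l := by simpa [blk] using hi.2
    have hlu : l * u < n := by
      rw [← hil]
      exact lt_of_le_of_lt (Nat.div_mul_le_self _ _) i.2
    have hln : l < n := lt_of_le_of_lt (Nat.le_mul_of_pos_right l (by omega)) hlu
    have hH : mass q (Hset m u l (lvl t' (l * u))) ≤ 15 * u * lev m * wt q j := by
      calc mass q (Hset m u l (lvl t' (l * u))) ≤ mass q (nbd (f i) (3 * u)) :=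
            ExpS_mass_mono hq.1 (Hset_sub hf hu ht' hlu hi.2)
        _ ≤ 5 * (3 * u : ℕ) * lev m * wt q (f i) := mass_nbd_le hq (f i) (by omega)
        _ = 15 * u * lev m * wt q j := by rw [hfi]; push_cast; ring
    have hblk : mass p (fib f j ∩ blk n u l) ≤ mass p (blk n u l) :=
      ExpS_mass_mono hp.1 inter_subset_right
    have hmem : l ∈ Expd q p u t' := by
      unfold Expd
      simp only [mem_filter, mem_range]
      refine ⟨hln, hlu, ?_⟩
      nlinarith
    have hle : mass p (fib f j ∩ blk n u l) ≤ ∑ l ∈ Expd q p u t', mass p (fib f j ∩ blk n u l) :=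
      single_le_sum (f := fun l => mass p (fib f j ∩ blk n u l))
        (fun l _ => sum_nonneg (fun i _ => hp.1 i)) hmem
    linarith
  calc ∑ j with 720 * lev m * u * wt q j < push f p j ∧ ¬ u < #(fib f j), push f p j
      ≤ ∑ j with 720 * lev m * u * wt q j < push f p j ∧ ¬ u < #(fib f j),
          2 * ∑ l ∈ Expd q p u t', mass p (fib f j ∩ blk n u l) := sum_le_sum key
    _ ≤ ∑ j, 2 * ∑ l ∈ Expd q p u t', mass p (fib f j ∩ blk n u l) := by
        apply sum_le_sum_of_subset_of_nonneg (filter_subset _ _)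
        intro j _ _
        have : 0 ≤ ∑ l ∈ Expd q p u t', mass p (fib f j ∩ blk n u l) :=
          sum_nonneg (fun l _ => sum_nonneg (fun i _ => hp.1 i))
        linarith
    _ = 2 * ∑ l ∈ Expd q p u t', ∑ j, mass p (fib f j ∩ blk n u l) := by
        rw [← mul_sum, sum_comm]
    _ = 2 * ∑ l ∈ Expd q p u t', mass p (blk n u l) := by
        congr 1
        apply sum_congr rfl
        intro l _
        unfold mass
        rw [← sum_fiberwise (blk n u l) f p]
        apply sum_congr rfl
        intro j _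
        apply sum_congr _ (fun _ _ => rfl)
        ext i
        simp [fib, and_comm]

end Expo

end Pool.Agent.BinUp
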