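import Pool.Agent.BinUp.ExpL
import Pool.Agent.BinUp.ExpB
import Pool.Agent.BinUp.ExpG
import Pool.Agent.BinUp.ExpS

/-! MP_f7f4e7_lc, upper bound, module Expo. -/

namespace Pool.Agent.BinUp

open Finset Pool.Agent.Binning

section Expo
variable {n m : ℕ}

/-- the exposure lemma -/
theorem expo {q : Fin m → ℝ} {p : Fin n → ℝ} (hq : IsDist q) (hp : IsDist p) {f f₀ : Fin n → Fin m}
    (hf : IsCoarsening f) (hf₀ : IsCoarsening f₀) (hpush : push f₀ p = q) {u : ℕ} (hu : 1 ≤ u)
    (hun : u ≤ n - m) {K : ℝ} (hK : 0 ≤ K) (hS : Star q p f u K) :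
    ∑ j with 720 * lev m * u * wt q j < push f p j, push f p j ≤ 10 * K := by
  classical
  obtain ⟨t', ht'⟩ := exists_coarse hf hu
  obtain ⟨t, ht⟩ := exists_coarse hf₀ hu
  have h1 := expo_large hq hp hf hu hun hK hS
  have h2 := expo_bad hq hp hf hu hK hS (t := t) ht'
  have h3 := expo_good hq hp hf hf₀ hpush hu hK hS ht ht'
  have h4 := expo_small hq hp hf hu ht'
  have h5 := Finset.sum_filter_add_sum_filter_not (Expd q p u t') (fun l => GoodB t u l)
    (fun l => mass p (blk n u l))
  have h6 := Finset.sum_filter_add_sum_filter_not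
    (univ.filter (fun j => 720 * lev m * u * wt q j < push f p j)) (fun j => u < #(fib f j))
    (fun j => push f p j)
  rw [Finset.filter_filter, Finset.filter_filter] at h6
  linarith

end Expo

end Pool.Agent.BinUp
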