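import Pool.Agent.Binning.Lower

/-! MP_f7f4e7_lc, lower bound (helper63). -/

namespace Pool.Agent.BinUp

open Pool.Agent.Binning

/-- The case `L = 1`, `B = ⌊m/2⌋`. -/
lemma sqrt_bound {m n s : ℕ} {ε : ℝ} (hm : 2 ≤ m) (hn : m ≤ n) (hε0 : 0 < ε)
    (hε : ε ≤ 1 / 20) (hT : Testable n m ε s) : Real.sqrt m / (200 * ε ^ 2) ≤ s := by
  have h := lower_core 1 (m / 2) m n s ε le_rfl (by lia) (by lia) (by simpa using hn) hε0
    (by norm_num; linarith) hT
  have hm2 : (m : ℝ) ≤ 4 * ((m / 2 : ℕ) : ℝ) := by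
    have : m ≤ 4 * (m / 2) := by lia
    exact_mod_cast this
  have e1 : (1 : ℝ) - 1 / (2 * ((1 : ℕ) : ℝ)) = 1 / 2 := by norm_num
  rw [e1, ← Real.sqrt_eq_rpow] at h
  have e2 : Real.sqrt m ≤ 2 * Real.sqrt ((m / 2 : ℕ) : ℝ) := by
    calc Real.sqrt m ≤ Real.sqrt (4 * ((m / 2 : ℕ) : ℝ)) := Real.sqrt_le_sqrt hm2
      _ = Real.sqrt 4 * Real.sqrt ((m / 2 : ℕ) : ℝ) := Real.sqrt_mul (by norm_num) _
      _ = 2 * Real.sqrt ((m / 2 : ℕ) : ℝ) := by
          rw [show (4 : ℝ) = 2 ^ 2 by norm_num, Real.sqrt_sq (by norm_num)]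
  refine le_trans ?_ h
  rw [div_le_div_iff₀ (by positivity) (by positivity)]
  have hε2 : 0 < ε ^ 2 := by positivity
  push_cast
  nlinarith [Real.sqrt_nonneg ((m / 2 : ℕ) : ℝ)]

/-- The bound for general `L`, with `B` blocks. -/
lemma block_bound {B L m n s : ℕ} {ε : ℝ} (hL : 1 ≤ L) (hB : 1 ≤ B) (hBm : 2 * B ≤ m)
    (hBn : L * B ≤ n - m) (hn : m ≤ n) (hε0 : 0 < ε)
    (hε : ε ≤ 1 / (20 * (L : ℝ))) (hT : Testable n m ε s) :
    (B : ℝ) * (m : ℝ) ^ (-(1 / (2 * (L : ℝ)))) / (100 * (L : ℝ) * ε ^ 2) ≤ s := by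
  have hB' : (1 : ℝ) ≤ B := by exact_mod_cast hB
  have hB0 : (0 : ℝ) < B := by linarith
  have hmn : m + (L - 1) * B ≤ n := by
    have h1 : (L - 1) * B ≤ L * B := Nat.mul_le_mul_right _ (by lia)
    lia
  have h := lower_core L B m n s ε hL hB hBm hmn hε0 hε hT
  refine le_trans ?_ h
  apply div_le_div_of_nonneg_right _ (by positivity)
  have hBm' : (B : ℝ) ≤ m := by
    have : B ≤ m := by lia
    exact_mod_cast this
  have e : (B : ℝ) ^ (1 - 1 / (2 * (L : ℝ))) = B * (B : ℝ) ^ (-(1 / (2 * (L : ℝ)))) := by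
    rw [sub_eq_add_neg, Real.rpow_add hB0, Real.rpow_one]
  rw [e]
  apply mul_le_mul_of_nonneg_left _ hB0.le
  apply Real.rpow_le_rpow_of_nonpos hB0 hBm'
  have : (0 : ℝ) ≤ 1 / (2 * (L : ℝ)) := by positivity
  linarith

/-- Lower bound for the sample complexity of identity testing up to coarsenings into intervals.
(For `L = ⌊log₂ m⌋` the factor `m ^ (-1 / (2 L))` is at least `1 / 2`.) -/
theorem lower_bound : ∃ c : ℝ, 0 < c ∧ ∀ (m n L s : ℕ) (ε : ℝ), 2 ≤ m → m ≤ n → 1 ≤ L →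
    0 < ε → ε ≤ 1 / (20 * (L : ℝ)) → Testable n m ε s →
    c * (Real.sqrt m + min ((m : ℝ) / L) (((n : ℝ) - m) / (L : ℝ) ^ 2) *
      (m : ℝ) ^ (-(1 / (2 * (L : ℝ))))) / ε ^ 2 ≤ s := by
  refine ⟨1 / 600, by norm_num, ?_⟩
  intro m n L s ε hm hn hL hε0 hε hT
  have hL' : (1 : ℝ) ≤ L := by exact_mod_cast hL
  have hL0 : (0 : ℝ) < L := by linarith
  have hε20 : ε ≤ 1 / 20 := by
    refine hε.trans ?_
    apply one_div_le_one_div_of_le (by norm_num)
    linarith
  have hε2 : 0 < ε ^ 2 := by positivity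
  have hmR : (2 : ℝ) ≤ m := by exact_mod_cast hm
  have hm0 : (0 : ℝ) < m := by linarith
  have hnm : (0 : ℝ) ≤ (n : ℝ) - m := by
    have : (m : ℝ) ≤ n := by exact_mod_cast hn
    linarith
  set M : ℝ := (m : ℝ) ^ (-(1 / (2 * (L : ℝ)))) with hM
  have hMpos : 0 < M := Real.rpow_pos_of_pos hm0 _
  have hM1 : M ≤ 1 := by
    apply Real.rpow_le_one_of_one_le_of_nonpos (by linarith)
    have : (0 : ℝ) ≤ 1 / (2 * (L : ℝ)) := by positivity
    linarith
  have h1 := sqrt_bound hm hn hε0 hε20 hT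
  rw [div_le_iff₀ (by positivity)] at h1
  rw [div_le_iff₀ hε2]
  have hsq1 : 1 ≤ Real.sqrt m := by
    rw [Real.le_sqrt (by norm_num) (by linarith)]
    linarith
  by_cases hB : (n - m) / L = 0
  · -- few extra atoms: the minimum is at most one
    have h2 : n - m < L := by
      rcases Nat.div_eq_zero_iff.mp hB with h | h
      · lia
      · exact h
    have h2' : (n : ℝ) - m ≤ L := by
      have : n ≤ m + L := by lia
      have : (n : ℝ) ≤ m + L := by exact_mod_cast this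
      linarith
    have h3 : min ((m : ℝ) / L) (((n : ℝ) - m) / (L : ℝ) ^ 2) ≤ 1 := by
      refine (min_le_right _ _).trans ?_
      rw [div_le_one (by positivity)]
      nlinarith
    have h4 : min ((m : ℝ) / L) (((n : ℝ) - m) / (L : ℝ) ^ 2) * M ≤ 1 := by
      have h5 : 0 ≤ min ((m : ℝ) / L) (((n : ℝ) - m) / (L : ℝ) ^ 2) :=
        le_min (by positivity) (by positivity)
      nlinarith
    nlinarith
  · set B := min (m / 2) ((n - m) / L) with hBdef
    have hB1 : 1 ≤ B := by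
      rw [hBdef]
      apply le_min
      · lia
      · lia
    have hBm : 2 * B ≤ m := by
      have : B ≤ m / 2 := min_le_left _ _
      lia
    have hBn : L * B ≤ n - m := by
      have h2 : B ≤ (n - m) / L := min_le_right _ _
      calc L * B ≤ L * ((n - m) / L) := Nat.mul_le_mul_left _ h2
        _ ≤ n - m := Nat.mul_div_le _ _
    have h2 := block_bound hL hB1 hBm hBn hn hε0 hε hT
    rw [div_le_iff₀ (by positivity), ← hM] at h2
    -- `B ≥ min (m, (n - m) / L) / 3`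
    have h3 : min ((m : ℝ) / L) (((n : ℝ) - m) / (L : ℝ) ^ 2) ≤ 3 * B / L := by
      rcases min_cases (m / 2) ((n - m) / L) with ⟨he, _⟩ | ⟨he, _⟩
      · refine (min_le_left _ _).trans ?_
        apply div_le_div_of_nonneg_right _ hL0.le
        rw [hBdef, he]
        have : m ≤ 3 * (m / 2) := by lia
        exact_mod_cast this
      · refine (min_le_right _ _).trans ?_
        rw [hBdef, he, div_le_div_iff₀ (by positivity) hL0]
        have h5 : n - m ≤ 2 * (L * ((n - m) / L)) := by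
          have h6 := Nat.div_add_mod (n - m) L
          have h7 : (n - m) % L < L := Nat.mod_lt _ (by lia)
          have h8 : L ≤ L * ((n - m) / L) := Nat.le_mul_of_pos_right _ (by lia)
          lia
        have h5' : (n : ℝ) - m ≤ 2 * (L * (((n - m) / L : ℕ) : ℝ)) := by
          have : n ≤ m + 2 * (L * ((n - m) / L)) := by lia
          have : (n : ℝ) ≤ m + 2 * (L * (((n - m) / L : ℕ) : ℝ)) := by exact_mod_cast this
          linarith
        have h9 : (0 : ℝ) ≤ (((n - m) / L : ℕ) : ℝ) := by positivity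
        have h10 : ((n : ℝ) - m) * L ≤ 2 * (L * (((n - m) / L : ℕ) : ℝ)) * L :=
          mul_le_mul_of_nonneg_right h5' hL0.le
        nlinarith [mul_nonneg h9 (sq_nonneg (L : ℝ))]
    have h4 : 3 * (B : ℝ) / L * M ≤ 300 * (s * ε ^ 2) := by
      have e : 3 * (B : ℝ) / L * M = 3 * (B * M) / L := by ring
      rw [e, div_le_iff₀ hL0]
      nlinarith
    have h5 : min ((m : ℝ) / L) (((n : ℝ) - m) / (L : ℝ) ^ 2) * M ≤ 3 * (B : ℝ) / L * M :=
      mul_le_mul_of_nonneg_right h3 hMpos.le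
    nlinarith

end Pool.Agent.BinUp
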