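import Pool.Agent.BinUp.Bern
import Pool.Agent.BinUp.Bas

/-! MP_f7f4e7_lc, upper bound, module Large. -/

namespace Pool.Agent.BinUp

open Finset Pool.Agent.Binning

/-- `f⁻¹(B)` -/
def Large_pre {n m : ℕ} (f : Fin n → Fin m) (B : Finset (Fin m)) : Finset (Fin n) := {i | f i ∈ B}

/-- the set coded by `(c, B)` -/
def Large_dec {n m : ℕ} (c : Fin m → Fin (n + 1)) (B : Finset (Fin m)) : Finset (Fin n) :=
  {i | ∃ j ∈ B, (i : ℕ) < c j ∧ ∀ j' < j, (c j' : ℕ) ≤ i}

theorem Large_code {n m : ℕ} {f : Fin n → Fin m} (hf : Monotone f) (B : Finset (Fin m)) :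
    ∃ c : Fin m → Fin (n + 1), Large_pre f B = Large_dec c B := by
  have hle : ∀ j : Fin m, #{i : Fin n | f i ≤ j} < n + 1 := by
    intro j
    have := Finset.card_le_univ ({i : Fin n | f i ≤ j} : Finset (Fin n))
    simp only [Fintype.card_fin] at this
    omega
  have key : ∀ (j : Fin m) (i : Fin n), (i : ℕ) < #{i' : Fin n | f i' ≤ j} ↔ f i ≤ j := by
    intro j i
    constructor
    · intro h
      by_contra hc
      have hsub : ({i' : Fin n | f i' ≤ j} : Finset (Fin n)) ⊆ Finset.Iio i := by
        intro a ha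
        simp only [mem_filter, mem_univ, true_and] at ha
        rw [Finset.mem_Iio]
        by_contra hai
        push Not at hai
        exact hc (le_trans (hf hai) ha)
      have := Finset.card_le_card hsub
      rw [Fin.card_Iio] at this
      omega
    · intro h
      have hsub : Finset.Iic i ⊆ ({i' : Fin n | f i' ≤ j} : Finset (Fin n)) := by
        intro a ha
        rw [Finset.mem_Iic] at ha
        simp only [mem_filter, mem_univ, true_and]
        exact le_trans (hf ha) h
      have := Finset.card_le_card hsub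
      rw [Fin.card_Iic] at this
      omega
  refine ⟨fun j => ⟨#{i : Fin n | f i ≤ j}, hle j⟩, ?_⟩
  ext i
  simp only [Large_pre, Large_dec, mem_filter, mem_univ, true_and]
  constructor
  · intro h
    refine ⟨f i, h, (key _ _).mpr le_rfl, ?_⟩
    intro j' hj'
    by_contra hc
    push Not at hc
    exact absurd ((key _ _).mp hc) (not_le.mpr hj')
  · rintro ⟨j, hj, h1, h2⟩
    have h3 : f i ≤ j := (key _ _).mp h1
    have h4 : f i = j := by
      rcases lt_or_eq_of_le h3 with h | h
      · have := h2 _ h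
        have h5 : (i : ℕ) < #{i' : Fin n | f i' ≤ f i} := (key _ _).mpr le_rfl
        exact absurd h5 (not_lt.mpr this)
      · exact h
    rw [h4]; exact hj

theorem Large_ind_sum {n : ℕ} (A : Finset (Fin n)) (p : Fin n → ℝ) :
    ∑ i, ind A i * p i = mass p A := by
  unfold ind mass
  simp

theorem Large_ind_sq {n : ℕ} (A : Finset (Fin n)) (p : Fin n → ℝ) :
    ∑ i, ind A i ^ 2 * p i = mass p A := by
  unfold ind mass
  simp

theorem Large_mass_pre {n m : ℕ} (p : Fin n → ℝ) (f : Fin n → Fin m) (B : Finset (Fin m)) :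
    mass p (Large_pre f B) = mass (push f p) B := by
  unfold mass push Large_pre
  rw [← Finset.sum_fiberwise_of_maps_to (s := {i | f i ∈ B}) (t := B) (g := f)
      (fun i hi => by simpa using hi)]
  apply Finset.sum_congr rfl
  intro j hj
  apply Finset.sum_congr _ (fun _ _ => rfl)
  ext i
  simp only [mem_filter, mem_univ, true_and]
  constructor
  · intro h
    exact h.2
  · intro h
    exact ⟨by rw [h]; exact hj, h⟩

theorem Large_tv {m : ℕ} {p q : Fin m → ℝ} (hp : IsDist p) (hq : IsDist q) {ε : ℝ}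
    (h : ε < tv p q) : ∃ B : Finset (Fin m), ε < mass p B - mass q B := by
  classical
  refine ⟨({j | q j < p j} : Finset (Fin m)), ?_⟩
  have h1 : mass p ({j | q j < p j} : Finset (Fin m)) - mass q ({j | q j < p j} : Finset (Fin m)) =
      ∑ j, max (p j - q j) 0 := by
    unfold mass
    rw [← Finset.sum_sub_distrib, Finset.sum_filter]
    apply Finset.sum_congr rfl
    intro j _
    split_ifs with hj
    · rw [max_eq_left]; linarith
    · rw [max_eq_right]; linarith
  have h2 : ∑ j, |p j - q j| = 2 * ∑ j, max (p j - q j) 0 - ∑ j, (p j - q j) := by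
    rw [Finset.mul_sum, ← Finset.sum_sub_distrib]
    apply Finset.sum_congr rfl
    intro j _
    rcases le_total (p j - q j) 0 with hj | hj
    · rw [max_eq_right hj, abs_of_nonpos hj]; ring
    · rw [max_eq_left hj, abs_of_nonneg hj]; ring
  have h3 : ∑ j, (p j - q j) = 0 := by
    rw [Finset.sum_sub_distrib, hp.2, hq.2]; ring
  rw [h1]
  unfold tv at h
  rw [h2, h3] at h
  linarith

theorem large_test {m n s : ℕ} {ε : ℝ} (hm : 1 ≤ m) (hn : m ≤ n) (hε : 0 < ε) (hε1 : ε ≤ 1)
    (hs : 2000 * m * Lg n / ε ^ 2 ≤ s) : Testable n m ε s := by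
  classical
  intro q hq
  set P : (Fin s → Fin n) → Prop := fun ω => ∃ f : Fin n → Fin m, IsCoarsening f ∧
    ∀ B : Finset (Fin m), |smp (ind (Large_pre f B)) ω - s * mass q B| ≤ ε / 2 * s with hP
  have hn1 : (1 : ℝ) ≤ n := by exact_mod_cast le_trans hm hn
  have hm1 : (1 : ℝ) ≤ m := by exact_mod_cast hm
  have hL : 1 / 2 ≤ Lg n := by
    unfold Lg
    have h1 : Real.log 2 ≤ Real.log (n + 1) := Real.log_le_log (by norm_num) (by linarith)
    have := Real.log_two_gt_d9
    linarith
  have hs0 : (1000 : ℝ) ≤ s := by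
    refine le_trans ?_ hs
    rw [le_div_iff₀ (by positivity)]
    have : ε ^ 2 ≤ 1 := by nlinarith
    nlinarith [mul_le_mul hm1 hL (by norm_num) (by positivity)]
  have hs' : 2000 * m * Lg n ≤ ε ^ 2 * s := by
    rw [div_le_iff₀ (by positivity)] at hs
    linarith
  set κ : ℝ := ε ^ 2 * s / 36 with hκ
  have hκpos : 0 < κ := by positivity
  -- the bad event
  have hbad : ∀ p : Fin n → ℝ, IsDist p →
      Pr p s (fun ω => ∃ i ∈ (univ : Finset ((Fin m → Fin (n + 1)) × Finset (Fin m))),
        ¬ Conc p κ 1 (ind (Large_dec i.1 i.2)) ω) ≤ 1 / 3 := by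
    intro p hp
    refine le_trans (Pr_union hp _ _) ?_
    have h1 : ∀ i ∈ (univ : Finset ((Fin m → Fin (n + 1)) × Finset (Fin m))),
        Pr p s (fun ω => ¬ Conc p κ 1 (ind (Large_dec i.1 i.2)) ω) ≤ 2 * Real.exp (-κ) := by
      intro i _
      apply bernstein hp hκpos one_pos
      intro x
      unfold ind
      split_ifs <;> simp
    refine le_trans (Finset.sum_le_sum h1) ?_
    rw [Finset.sum_const, Finset.card_univ, Fintype.card_prod, Fintype.card_fun, Fintype.card_fin,
      Fintype.card_fin, Fintype.card_finset, Fintype.card_fin, nsmul_eq_mul]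
    push_cast
    have h2 : ((n : ℝ) + 1) ^ m * 2 ^ m ≤ Real.exp (2 * m * Lg n) := by
      have h3 : (2 : ℝ) ^ m ≤ ((n : ℝ) + 1) ^ m := by
        apply pow_le_pow_left₀ (by norm_num); linarith
      have h4 : ((n : ℝ) + 1) ^ m = Real.exp (m * Lg n) := by
        unfold Lg
        rw [mul_comm, Real.exp_mul, Real.exp_log (by linarith), Real.rpow_natCast]
      calc ((n : ℝ) + 1) ^ m * 2 ^ m ≤ ((n : ℝ) + 1) ^ m * ((n : ℝ) + 1) ^ m := by
            apply mul_le_mul_of_nonneg_left h3 (by positivity)
        _ = Real.exp (2 * m * Lg n) := by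
            rw [h4, ← Real.exp_add]
            congr 1
            ring
    have h5 : Real.exp (2 * m * Lg n) * (2 * Real.exp (-κ)) ≤ 1 / 3 := by
      have h6 : Real.exp (2 * m * Lg n) * (2 * Real.exp (-κ)) = 2 * Real.exp (2 * m * Lg n - κ) := by
        rw [sub_eq_add_neg, Real.exp_add]; ring
      rw [h6]
      have h7 : 2 * m * Lg n - κ ≤ -10 := by
        have h8 : 2000 / 36 * (m * Lg n) ≤ κ := by
          rw [hκ]
          linarith
        have h9 : 1 / 2 ≤ m * Lg n := by nlinarith
        nlinarith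
      have h10 : Real.exp (2 * m * Lg n - κ) ≤ Real.exp (-10) := Real.exp_le_exp.mpr h7
      have h11 : Real.exp (-10) ≤ 1 / 6 := by
        rw [Real.exp_neg]
        have : (6 : ℝ) ≤ Real.exp 10 := by
          have := Real.add_one_le_exp (10 : ℝ)
          linarith
        rw [inv_eq_one_div]
        apply one_div_le_one_div_of_le (by norm_num) this
      linarith
    calc ((n : ℝ) + 1) ^ m * 2 ^ m * (2 * Real.exp (-κ))
        ≤ Real.exp (2 * m * Lg n) * (2 * Real.exp (-κ)) :=
          mul_le_mul_of_nonneg_right h2 (by positivity)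
      _ ≤ 1 / 3 := h5
  have hgood : ∀ p : Fin n → ℝ, IsDist p → ∀ ω : Fin s → Fin n,
      (¬ ∃ i ∈ (univ : Finset ((Fin m → Fin (n + 1)) × Finset (Fin m))),
        ¬ Conc p κ 1 (ind (Large_dec i.1 i.2)) ω) →
      ∀ f : Fin n → Fin m, IsCoarsening f → ∀ B : Finset (Fin m),
        |smp (ind (Large_pre f B)) ω - s * mass p (Large_pre f B)| ≤ ε / 2 * s := by
    intro p hp ω h f hf B
    push Not at h
    obtain ⟨c, hc⟩ := Large_code hf.1 B
    have h1 := h (c, B) (mem_univ _)
    simp only at h1
    rw [← hc] at h1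
    unfold Conc at h1
    rw [Large_ind_sum, Large_ind_sq] at h1
    refine le_trans h1 ?_
    have hmle : mass p (Large_pre f B) ≤ 1 := by
      rw [← hp.2]
      exact Finset.sum_le_sum_of_subset_of_nonneg (Finset.subset_univ _) (fun i _ _ => hp.1 i)
    have hm0 : 0 ≤ mass p (Large_pre f B) := Finset.sum_nonneg (fun i _ => hp.1 i)
    have h2 : √(κ * (s * mass p (Large_pre f B))) ≤ ε * s / 6 := by
      rw [Real.sqrt_le_left (by positivity)]
      have h3 : (s : ℝ) * mass p (Large_pre f B) ≤ s := by nlinarith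
      calc κ * (s * mass p (Large_pre f B)) ≤ κ * s := mul_le_mul_of_nonneg_left h3 hκpos.le
        _ = (ε * s / 6) ^ 2 := by rw [hκ]; ring
    have h4 : κ ≤ ε * s / 36 := by
      rw [hκ]
      have : ε ^ 2 * s ≤ ε * s := by nlinarith [mul_pos hε (by linarith : (0:ℝ) < s)]
      linarith
    have h5 : 0 ≤ ε * s := by positivity
    linarith
  refine ⟨fun ω => if P ω then 1 else 0, ?_, ?_, ?_⟩
  · intro ω
    dsimp only
    split_ifs <;> norm_num
  · intro p hp hex
    obtain ⟨f, hf, hpush⟩ := hex
    have h0 : acceptProb p (fun ω => if P ω then (1 : ℝ) else 0) = Pr p s P := by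
      unfold acceptProb Pr Ex
      apply Finset.sum_congr rfl
      intro ω _
      by_cases hPω : P ω
      · simp only [if_pos hPω]
      · simp only [if_neg hPω]
    rw [h0]
    have h1 := hbad p hp
    have h2 := Pr_compl hp (fun ω : Fin s → Fin n => ∃ i ∈ (univ : Finset ((Fin m → Fin (n + 1)) × Finset (Fin m))),
        ¬ Conc p κ 1 (ind (Large_dec i.1 i.2)) ω)
    have h3 : Pr p s (fun ω => ¬ ∃ i ∈ (univ : Finset ((Fin m → Fin (n + 1)) × Finset (Fin m))),
        ¬ Conc p κ 1 (ind (Large_dec i.1 i.2)) ω) ≤ Pr p s P := by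
      apply Pr_mono hp
      intro ω hω
      refine ⟨f, hf, ?_⟩
      intro B
      have := hgood p hp ω hω f hf B
      rw [Large_mass_pre, hpush] at this
      exact this
    linarith
  · intro p hp hfar
    have h0 : acceptProb p (fun ω => if P ω then (1 : ℝ) else 0) = Pr p s P := by
      unfold acceptProb Pr Ex
      apply Finset.sum_congr rfl
      intro ω _
      by_cases hPω : P ω
      · simp only [if_pos hPω]
      · simp only [if_neg hPω]
    rw [h0]
    refine le_trans ?_ (hbad p hp)
    apply Pr_mono hp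
    intro ω hω
    by_contra hc
    obtain ⟨f, hf, hB⟩ := hω
    obtain ⟨B, hB'⟩ := Large_tv (push_dist hp f) hq (hfar f hf)
    have h1 := hgood p hp ω hc f hf B
    rw [Large_mass_pre] at h1
    have h2 := hB B
    have h3 := (abs_le.mp h1).1
    have h4 := (abs_le.mp h2).2
    have h5 : (s : ℝ) * (mass (push f p) B - mass q B) ≤ ε * s := by linarith
    have h6 : (s : ℝ) * (mass (push f p) B - mass q B) > s * ε := by
      apply mul_lt_mul_of_pos_left hB'
      linarith
    linarith

end Pool.Agent.BinUp
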