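import Pool.Agent.BinUp.UStat
import Pool.Agent.BinUp.Large

/-! MP_f7f4e7_lc, upper bound, module VC: an upper bound for all `n` without `log n` (double sampling). -/

namespace Pool.Agent.BinUp

open Finset Pool.Agent.Binning

/-- the sign of a boolean -/
noncomputable def VC_sg (b : Bool) : ℝ := if b then -1 else 1

theorem VC_mgf {s : ℕ} (c : Fin s → ℝ) (hc : ∀ a, |c a| ≤ 1) (lam : ℝ) :
    ∑ σ : Fin s → Bool, Real.exp (lam * ∑ a, VC_sg (σ a) * c a) ≤
      2 ^ s * Real.exp (s * (lam ^ 2 / 2)) := by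
  have h1 : ∀ σ : Fin s → Bool, Real.exp (lam * ∑ a, VC_sg (σ a) * c a) =
      ∏ a, Real.exp (lam * (VC_sg (σ a) * c a)) := by
    intro σ
    rw [Finset.mul_sum, Real.exp_sum]
  simp only [h1]
  have h2 : ∑ σ : Fin s → Bool, ∏ a, Real.exp (lam * (VC_sg (σ a) * c a)) =
      ∏ a, ∑ b : Bool, Real.exp (lam * (VC_sg b * c a)) := by
    rw [Finset.prod_univ_sum, Fintype.piFinset_univ]
  rw [h2]
  have h3 : ∀ a : Fin s, ∑ b : Bool, Real.exp (lam * (VC_sg b * c a)) ≤
      2 * Real.exp (lam ^ 2 / 2) := by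
    intro a
    rw [Fintype.sum_bool]
    unfold VC_sg
    simp only [if_true, Bool.false_eq_true, if_false, one_mul, neg_mul, mul_neg]
    have h4 := Real.cosh_le_exp_half_sq (lam * c a)
    rw [Real.cosh_eq] at h4
    have h5 : (lam * c a) ^ 2 / 2 ≤ lam ^ 2 / 2 := by
      have h6 : (c a) ^ 2 ≤ 1 := by
        rw [← sq_abs]
        have := hc a
        have := abs_nonneg (c a)
        nlinarith
      have : (lam * c a) ^ 2 ≤ lam ^ 2 := by
        rw [mul_pow]
        nlinarith [sq_nonneg lam]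
      linarith
    have h7 := Real.exp_le_exp.mpr h5
    linarith
  calc ∏ a, ∑ b : Bool, Real.exp (lam * (VC_sg b * c a)) ≤
        ∏ _a : Fin s, (2 * Real.exp (lam ^ 2 / 2)) :=
        Finset.prod_le_prod (fun a _ => Finset.sum_nonneg fun b _ => (Real.exp_pos _).le)
          (fun a _ => h3 a)
    _ = 2 ^ s * Real.exp (s * (lam ^ 2 / 2)) := by
        rw [Finset.prod_const, card_univ, Fintype.card_fin, mul_pow, ← Real.exp_nat_mul]

theorem VC_tail {s : ℕ} (hs : 0 < s) (c : Fin s → ℝ) (hc : ∀ a, |c a| ≤ 1) {t : ℝ} (ht : 0 ≤ t) :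
    ((#{σ : Fin s → Bool | t < ∑ a, VC_sg (σ a) * c a} : ℕ) : ℝ) ≤
      2 ^ s * Real.exp (-(t ^ 2 / (2 * s))) := by
  have hs' : (0 : ℝ) < s := by exact_mod_cast hs
  set lam : ℝ := t / s with hlam
  have hl0 : 0 ≤ lam := div_nonneg ht hs'.le
  have h1 := VC_mgf c hc lam
  have h2 : ((#{σ : Fin s → Bool | t < ∑ a, VC_sg (σ a) * c a} : ℕ) : ℝ) * Real.exp (lam * t) ≤
      ∑ σ : Fin s → Bool, Real.exp (lam * ∑ a, VC_sg (σ a) * c a) := by
    rw [← nsmul_eq_mul, ← Finset.sum_const]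
    refine le_trans (Finset.sum_le_sum (g := fun σ => Real.exp (lam * ∑ a, VC_sg (σ a) * c a)) ?_)
      (Finset.sum_le_sum_of_subset_of_nonneg (Finset.subset_univ _)
        (fun σ _ _ => (Real.exp_pos _).le))
    intro σ hσ
    rw [mem_filter] at hσ
    exact Real.exp_le_exp.mpr (mul_le_mul_of_nonneg_left hσ.2.le hl0)
  have h3 : ((#{σ : Fin s → Bool | t < ∑ a, VC_sg (σ a) * c a} : ℕ) : ℝ) * Real.exp (lam * t) ≤
      2 ^ s * Real.exp (s * (lam ^ 2 / 2)) := h2.trans h1
  have h4 : ((#{σ : Fin s → Bool | t < ∑ a, VC_sg (σ a) * c a} : ℕ) : ℝ) ≤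
      2 ^ s * Real.exp (s * (lam ^ 2 / 2)) * Real.exp (-(lam * t)) := by
    have h5 := mul_le_mul_of_nonneg_right h3 (Real.exp_pos (-(lam * t))).le
    rw [mul_assoc, ← Real.exp_add, add_neg_cancel, Real.exp_zero, mul_one] at h5
    exact h5
  refine h4.trans (le_of_eq ?_)
  rw [mul_assoc, ← Real.exp_add]
  congr 2
  rw [hlam]
  field_simp
  ring

theorem VC_tail2 {s : ℕ} (hs : 0 < s) (c : Fin s → ℝ) (hc : ∀ a, |c a| ≤ 1) {t : ℝ} (ht : 0 ≤ t) :
    ((#{σ : Fin s → Bool | t < |∑ a, VC_sg (σ a) * c a|} : ℕ) : ℝ) ≤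
      2 ^ s * (2 * Real.exp (-(t ^ 2 / (2 * s)))) := by
  classical
  have h1 := VC_tail hs c hc ht
  have h2 := VC_tail hs (fun a => - c a) (fun a => by rw [abs_neg]; exact hc a) ht
  have h3 : ({σ : Fin s → Bool | t < |∑ a, VC_sg (σ a) * c a|} : Finset (Fin s → Bool)) ⊆
      ({σ : Fin s → Bool | t < ∑ a, VC_sg (σ a) * c a} : Finset (Fin s → Bool)) ∪
        ({σ : Fin s → Bool | t < ∑ a, VC_sg (σ a) * (- c a)} : Finset (Fin s → Bool)) := by
    intro σ hσ
    simp only [mem_union, mem_filter, mem_univ, true_and] at hσ ⊢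
    rcases lt_abs.1 hσ with h | h
    · left; exact h
    · right
      have : ∑ a, VC_sg (σ a) * (- c a) = -∑ a, VC_sg (σ a) * c a := by
        rw [← Finset.sum_neg_distrib]
        apply Finset.sum_congr rfl
        intro a _
        ring
      rw [this]
      exact h
  have h4 := (Finset.card_le_card h3).trans (Finset.card_union_le _ _)
  have h5 : ((#{σ : Fin s → Bool | t < |∑ a, VC_sg (σ a) * c a|} : ℕ) : ℝ) ≤
      (#{σ : Fin s → Bool | t < ∑ a, VC_sg (σ a) * c a} : ℕ) +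
        (#{σ : Fin s → Bool | t < ∑ a, VC_sg (σ a) * (- c a)} : ℕ) := by
    exact_mod_cast h4
  linarith

/-- swapping the coordinates marked by `σ` -/
def VC_sw {α : Type} {s : ℕ} (σ : Fin s → Bool) (ω ω' : Fin s → α) : Fin s → α :=
  fun a => if σ a then ω' a else ω a

theorem VC_swap {n s : ℕ} (p : Fin n → ℝ) (σ : Fin s → Bool)
    (G : (Fin s → Fin n) → (Fin s → Fin n) → ℝ) :
    Ex p s (fun ω => Ex p s (fun ω' => G ω ω')) =
      Ex p s (fun ω => Ex p s (fun ω' => G (VC_sw σ ω ω') (VC_sw σ ω' ω))) := by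
  have h1 : ∀ H : (Fin s → Fin n) → (Fin s → Fin n) → ℝ,
      Ex p s (fun ω => Ex p s (fun ω' => H ω ω')) =
        ∑ z : (Fin s → Fin n) × (Fin s → Fin n), (∏ a, (p (z.1 a) * p (z.2 a))) * H z.1 z.2 := by
    intro H
    unfold Ex
    rw [Fintype.sum_prod_type]
    apply Finset.sum_congr rfl
    intro ω _
    rw [Finset.mul_sum]
    apply Finset.sum_congr rfl
    intro ω' _
    simp only
    rw [Finset.prod_mul_distrib]
    ring
  rw [h1, h1 (fun ω ω' => G (VC_sw σ ω ω') (VC_sw σ ω' ω))]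
  let e : (Fin s → Fin n) × (Fin s → Fin n) ≃ (Fin s → Fin n) × (Fin s → Fin n) :=
    { toFun := fun z => (VC_sw σ z.1 z.2, VC_sw σ z.2 z.1)
      invFun := fun z => (VC_sw σ z.1 z.2, VC_sw σ z.2 z.1)
      left_inv := by
        rintro ⟨ω, ω'⟩
        apply Prod.ext
        · funext a
          simp only [VC_sw]
          split_ifs <;> rfl
        · funext a
          simp only [VC_sw]
          split_ifs <;> rfl
      right_inv := by
        rintro ⟨ω, ω'⟩
        apply Prod.ext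
        · funext a
          simp only [VC_sw]
          split_ifs <;> rfl
        · funext a
          simp only [VC_sw]
          split_ifs <;> rfl }
  rw [← Equiv.sum_comp e]
  apply Finset.sum_congr rfl
  rintro ⟨ω, ω'⟩ _
  have he : e (ω, ω') = (VC_sw σ ω ω', VC_sw σ ω' ω) := rfl
  rw [he]
  simp only
  congr 1
  apply Finset.prod_congr rfl
  intro a _
  simp only [VC_sw]
  split_ifs
  · ring
  · rfl

theorem VC_diff {n s : ℕ} (A : Finset (Fin n)) (σ : Fin s → Bool) (ω ω' : Fin s → Fin n) :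
    smp (ind A) (VC_sw σ ω ω') - smp (ind A) (VC_sw σ ω' ω) =
      ∑ a, VC_sg (σ a) * (ind A (ω a) - ind A (ω' a)) := by
  unfold smp
  rw [← Finset.sum_sub_distrib]
  apply Finset.sum_congr rfl
  intro a _
  simp only [VC_sw, VC_sg]
  split_ifs
  · ring
  · ring

/-- the rank of `i` in the sample -/
def VC_rk {n s : ℕ} (ω ω' : Fin s → Fin n) (i : ℕ) : ℕ :=
  #{a | (ω a : ℕ) < i} + #{a | (ω' a : ℕ) < i}

theorem VC_rk_le {n s : ℕ} (ω ω' : Fin s → Fin n) (i : ℕ) : VC_rk ω ω' i < 2 * s + 1 := by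
  unfold VC_rk
  have h1 := Finset.card_le_univ ({a | (ω a : ℕ) < i} : Finset (Fin s))
  have h2 := Finset.card_le_univ ({a | (ω' a : ℕ) < i} : Finset (Fin s))
  rw [Fintype.card_fin] at h1 h2
  omega

theorem VC_rk_mono {n s : ℕ} (ω ω' : Fin s → Fin n) {i i' : ℕ} (h : i ≤ i') :
    VC_rk ω ω' i ≤ VC_rk ω ω' i' := by
  unfold VC_rk
  apply Nat.add_le_add
  · apply Finset.card_le_card
    intro a ha
    simp only [mem_filter, mem_univ, true_and] at ha ⊢
    omega
  · apply Finset.card_le_card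
    intro a ha
    simp only [mem_filter, mem_univ, true_and] at ha ⊢
    omega

theorem VC_rk_comm {n s : ℕ} (ω ω' : Fin s → Fin n) (i : ℕ) :
    VC_rk ω ω' i = VC_rk ω' ω i := by
  unfold VC_rk
  rw [add_comm]

theorem VC_rk_lt {n s : ℕ} (ω ω' : Fin s → Fin n) (a : Fin s) {c : ℕ} (h : (ω a : ℕ) < c) :
    VC_rk ω ω' (ω a) < VC_rk ω ω' c := by
  unfold VC_rk
  apply Nat.add_lt_add_of_lt_of_le
  · apply Finset.card_lt_card
    rw [Finset.ssubset_iff_of_subset]
    · refine ⟨a, ?_, ?_⟩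
      · simp only [mem_filter, mem_univ, true_and]
        exact h
      · simp only [mem_filter, mem_univ, true_and]
        exact lt_irrefl _
    · intro b hb
      simp only [mem_filter, mem_univ, true_and] at hb ⊢
      omega
  · apply Finset.card_le_card
    intro b hb
    simp only [mem_filter, mem_univ, true_and] at hb ⊢
    omega

theorem VC_rk_iff {n s : ℕ} (ω ω' : Fin s → Fin n) (a : Fin s) (c : ℕ) :
    VC_rk ω ω' (ω a) < VC_rk ω ω' c ↔ (ω a : ℕ) < c := by
  constructor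
  · intro h
    by_contra hc
    push Not at hc
    have := VC_rk_mono ω ω' hc
    omega
  · exact VC_rk_lt ω ω' a

/-- the decoded set -/
def VC_dec {n m s : ℕ} (ω ω' : Fin s → Fin n) (r : Fin m → Fin (2 * s + 1)) (B : Finset (Fin m)) :
    Finset (Fin n) :=
  {i | ∃ j ∈ B, VC_rk ω ω' i < r j ∧ ∀ j' < j, (r j' : ℕ) ≤ VC_rk ω ω' i}

theorem VC_trace {n m s : ℕ} (ω ω' : Fin s → Fin n) (c : Fin m → Fin (n + 1))
    (B : Finset (Fin m)) :
    ∃ r : Fin m → Fin (2 * s + 1), ∀ a, (ω a ∈ Large_dec c B ↔ ω a ∈ VC_dec ω ω' r B) ∧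
      (ω' a ∈ Large_dec c B ↔ ω' a ∈ VC_dec ω ω' r B) := by
  refine ⟨fun j => ⟨VC_rk ω ω' (c j), VC_rk_le _ _ _⟩, ?_⟩
  intro a
  constructor
  · simp only [Large_dec, VC_dec, mem_filter, mem_univ, true_and]
    have h1 : ∀ j, VC_rk ω ω' (ω a) < VC_rk ω ω' (c j) ↔ (ω a : ℕ) < c j :=
      fun j => VC_rk_iff ω ω' a (c j)
    have h2 : ∀ j, VC_rk ω ω' (c j) ≤ VC_rk ω ω' (ω a) ↔ (c j : ℕ) ≤ ω a := by
      intro j
      have := h1 j
      constructor
      · intro h
        by_contra hc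
        push Not at hc
        have := this.mpr hc
        omega
      · intro h
        by_contra hc
        push Not at hc
        have := this.mp hc
        omega
    simp only [h1, h2]
  · simp only [Large_dec, VC_dec, mem_filter, mem_univ, true_and]
    have h1 : ∀ j, VC_rk ω ω' (ω' a) < VC_rk ω ω' (c j) ↔ (ω' a : ℕ) < c j := by
      intro j
      rw [VC_rk_comm ω ω', VC_rk_comm ω ω']
      exact VC_rk_iff ω' ω a (c j)
    have h2 : ∀ j, VC_rk ω ω' (c j) ≤ VC_rk ω ω' (ω' a) ↔ (c j : ℕ) ≤ ω' a := by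
      intro j
      have := h1 j
      constructor
      · intro h
        by_contra hc
        push Not at hc
        have := this.mpr hc
        omega
      · intro h
        by_contra hc
        push Not at hc
        have := this.mp hc
        omega
    simp only [h1, h2]

theorem VC_ind_congr {n : ℕ} {A A' : Finset (Fin n)} {x : Fin n} (h : x ∈ A ↔ x ∈ A') :
    ind A x = ind A' x := by
  unfold ind
  by_cases hx : x ∈ A
  · rw [if_pos hx, if_pos (h.mp hx)]
  · rw [if_neg hx, if_neg (fun h' => hx (h.mpr h'))]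

theorem VC_ind_abs {n : ℕ} (A : Finset (Fin n)) (x y : Fin n) : |ind A x - ind A y| ≤ 1 := by
  unfold ind
  split_ifs <;> norm_num

/-- for fixed `(ω, ω')` few sign patterns are bad -/
theorem VC_signs {n m s : ℕ} (hs : 0 < s) (ω ω' : Fin s → Fin n) {t : ℝ} (ht : 0 ≤ t) :
    ((#{σ : Fin s → Bool | ∃ i : (Fin m → Fin (n + 1)) × Finset (Fin m),
      t < |smp (ind (Large_dec i.1 i.2)) (VC_sw σ ω ω') -
        smp (ind (Large_dec i.1 i.2)) (VC_sw σ ω' ω)|} : ℕ) : ℝ) ≤
      2 ^ s * ((4 * s + 2) ^ m * (2 * Real.exp (-(t ^ 2 / (2 * s))))) := by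
  classical
  have h1 : ({σ : Fin s → Bool | ∃ i : (Fin m → Fin (n + 1)) × Finset (Fin m),
      t < |smp (ind (Large_dec i.1 i.2)) (VC_sw σ ω ω') -
        smp (ind (Large_dec i.1 i.2)) (VC_sw σ ω' ω)|} : Finset (Fin s → Bool)) ⊆
      (univ : Finset ((Fin m → Fin (2 * s + 1)) × Finset (Fin m))).biUnion
        (fun i => ({σ : Fin s → Bool | t < |∑ a, VC_sg (σ a) *
          (ind (VC_dec ω ω' i.1 i.2) (ω a) - ind (VC_dec ω ω' i.1 i.2) (ω' a))|} :
            Finset (Fin s → Bool))) := by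
    intro σ hσ
    simp only [mem_filter, mem_univ, true_and] at hσ
    obtain ⟨⟨c, B⟩, h⟩ := hσ
    simp only at h
    obtain ⟨r, hr⟩ := VC_trace ω ω' c B
    rw [mem_biUnion]
    refine ⟨(r, B), mem_univ _, ?_⟩
    simp only [mem_filter, mem_univ, true_and]
    rw [VC_diff] at h
    have h2 : ∑ a, VC_sg (σ a) *
          (ind (VC_dec ω ω' r B) (ω a) - ind (VC_dec ω ω' r B) (ω' a)) =
        ∑ a, VC_sg (σ a) * (ind (Large_dec c B) (ω a) - ind (Large_dec c B) (ω' a)) := by
      apply Finset.sum_congr rfl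
      intro a _
      rw [VC_ind_congr (hr a).1, VC_ind_congr (hr a).2]
    rw [h2]
    exact h
  have h3 := (Finset.card_le_card h1).trans Finset.card_biUnion_le
  have h4 : ((#{σ : Fin s → Bool | ∃ i : (Fin m → Fin (n + 1)) × Finset (Fin m),
      t < |smp (ind (Large_dec i.1 i.2)) (VC_sw σ ω ω') -
        smp (ind (Large_dec i.1 i.2)) (VC_sw σ ω' ω)|} : ℕ) : ℝ) ≤
      ∑ i ∈ (univ : Finset ((Fin m → Fin (2 * s + 1)) × Finset (Fin m))),
        ((#{σ : Fin s → Bool | t < |∑ a, VC_sg (σ a) *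
          (ind (VC_dec ω ω' i.1 i.2) (ω a) - ind (VC_dec ω ω' i.1 i.2) (ω' a))|} : ℕ) : ℝ) := by
    exact_mod_cast h3
  refine h4.trans ?_
  have h5 : ∀ i ∈ (univ : Finset ((Fin m → Fin (2 * s + 1)) × Finset (Fin m))),
        ((#{σ : Fin s → Bool | t < |∑ a, VC_sg (σ a) *
          (ind (VC_dec ω ω' i.1 i.2) (ω a) - ind (VC_dec ω ω' i.1 i.2) (ω' a))|} : ℕ) : ℝ) ≤
        2 ^ s * (2 * Real.exp (-(t ^ 2 / (2 * s)))) := by
    intro i _
    exact VC_tail2 hs _ (fun a => VC_ind_abs _ _ _) ht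
  refine (Finset.sum_le_sum h5).trans (le_of_eq ?_)
  rw [Finset.sum_const, Finset.card_univ, Fintype.card_prod, Fintype.card_fun, Fintype.card_fin,
    Fintype.card_fin, Fintype.card_finset, Fintype.card_fin, nsmul_eq_mul]
  push_cast
  have h6 : ((4 : ℝ) * s + 2) ^ m = (2 * s + 1) ^ m * 2 ^ m := by
    rw [← mul_pow]
    congr 1
    ring
  rw [h6]
  ring

/-- the event of the double sample -/
def VC_E {n s : ℕ} (m : ℕ) (t : ℝ) (ω ω' : Fin s → Fin n) : Prop :=
  ∃ i : (Fin m → Fin (n + 1)) × Finset (Fin m),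
    t < |smp (ind (Large_dec i.1 i.2)) ω - smp (ind (Large_dec i.1 i.2)) ω'|

open Classical in
theorem VC_double {n m s : ℕ} {p : Fin n → ℝ} (hp : IsDist p) (hs : 0 < s) {t : ℝ} (ht : 0 ≤ t) :
    Ex p s (fun ω => Ex p s (fun ω' => if VC_E m t ω ω' then 1 else 0)) ≤
      (4 * s + 2) ^ m * (2 * Real.exp (-(t ^ 2 / (2 * s)))) := by
  set K : ℝ := (4 * s + 2) ^ m * (2 * Real.exp (-(t ^ 2 / (2 * s)))) with hK
  set G : (Fin s → Fin n) → (Fin s → Fin n) → ℝ := fun ω ω' => if VC_E m t ω ω' then 1 else 0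
    with hG
  have h1 : (2 : ℝ) ^ s * Ex p s (fun ω => Ex p s (fun ω' => G ω ω')) =
      Ex p s (fun ω => Ex p s (fun ω' => ∑ σ : Fin s → Bool, G (VC_sw σ ω ω') (VC_sw σ ω' ω))) := by
    have h2 : Ex p s (fun ω => Ex p s (fun ω' =>
        ∑ σ : Fin s → Bool, G (VC_sw σ ω ω') (VC_sw σ ω' ω))) =
        ∑ σ : Fin s → Bool, Ex p s (fun ω => Ex p s (fun ω' =>
          G (VC_sw σ ω ω') (VC_sw σ ω' ω))) := by
      have h3 : (fun ω : Fin s → Fin n => Ex p s (fun ω' =>
        ∑ σ : Fin s → Bool, G (VC_sw σ ω ω') (VC_sw σ ω' ω))) =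
          fun ω => ∑ σ : Fin s → Bool, Ex p s (fun ω' => G (VC_sw σ ω ω') (VC_sw σ ω' ω)) := by
        funext ω
        rw [UStat_Ex_sum]
      rw [h3, UStat_Ex_sum]
    rw [h2]
    have h4 : ∀ σ : Fin s → Bool, Ex p s (fun ω => Ex p s (fun ω' =>
          G (VC_sw σ ω ω') (VC_sw σ ω' ω))) = Ex p s (fun ω => Ex p s (fun ω' => G ω ω')) :=
      fun σ => (VC_swap p σ G).symm
    simp only [h4]
    rw [Finset.sum_const, card_univ, Fintype.card_fun, Fintype.card_fin, Fintype.card_bool,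
      nsmul_eq_mul]
    push_cast
    ring
  have h5 : Ex p s (fun ω => Ex p s (fun ω' =>
      ∑ σ : Fin s → Bool, G (VC_sw σ ω ω') (VC_sw σ ω' ω))) ≤ 2 ^ s * K := by
    have h6 : ∀ ω ω' : Fin s → Fin n, ∑ σ : Fin s → Bool, G (VC_sw σ ω ω') (VC_sw σ ω' ω) ≤
        2 ^ s * K := by
      intro ω ω'
      refine le_trans (le_of_eq ?_) (VC_signs (m := m) hs ω ω' ht)
      simp only [hG]
      rw [Finset.sum_boole]
      norm_cast
      apply le_antisymm
      · apply Finset.card_le_card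
        intro σ hσ
        rw [mem_filter] at hσ ⊢
        exact ⟨mem_univ _, hσ.2⟩
      · apply Finset.card_le_card
        intro σ hσ
        rw [mem_filter] at hσ ⊢
        exact ⟨mem_univ _, hσ.2⟩
    calc Ex p s (fun ω => Ex p s (fun ω' =>
          ∑ σ : Fin s → Bool, G (VC_sw σ ω ω') (VC_sw σ ω' ω))) ≤
          Ex p s (fun _ => 2 ^ s * K) := by
          apply Ex_mono hp
          intro ω
          calc Ex p s (fun ω' => ∑ σ : Fin s → Bool, G (VC_sw σ ω ω') (VC_sw σ ω' ω)) ≤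
                Ex p s (fun _ => 2 ^ s * K) := Ex_mono hp (fun ω' => h6 ω ω')
            _ = 2 ^ s * K := Ex_const hp _
      _ = 2 ^ s * K := Ex_const hp _
  rw [← h1] at h5
  exact le_of_mul_le_mul_left h5 (by positivity)

/-- Chebyshev for one set -/
theorem VC_cheb {n s : ℕ} {p : Fin n → ℝ} (hp : IsDist p) (A : Finset (Fin n)) {t : ℝ} (ht : 0 < t) :
    Pr p s (fun ω => t ≤ |smp (ind A) ω - s * mass p A|) ≤ s / t ^ 2 := by
  refine (chebyshev hp ht).trans ?_
  apply div_le_div_of_nonneg_right _ (by positivity)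
  have h1 : (fun ω : Fin s → Fin n => (smp (ind A) ω - s * mass p A) ^ 2) =
      fun ω => (∑ a, (fun x => ind A x - mass p A) (ω a)) ^ 2 := by
    funext ω
    congr 1
    unfold smp
    simp only
    rw [Finset.sum_sub_distrib, Finset.sum_const, card_univ, Fintype.card_fin, nsmul_eq_mul]
  have h2 : ∑ i, p i * (ind A i - mass p A) = 0 := by
    simp only [mul_sub]
    rw [Finset.sum_sub_distrib, ← Finset.sum_mul, hp.2, one_mul]
    have : ∑ i, p i * ind A i = mass p A := by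
      rw [← Large_ind_sum A p]
      apply Finset.sum_congr rfl
      intro i _
      ring
    rw [this, sub_self]
  rw [h1, ust_lin hp h2]
  have hm0 : 0 ≤ mass p A := Finset.sum_nonneg (fun i _ => hp.1 i)
  have hm1 : mass p A ≤ 1 := by
    rw [← hp.2]
    exact Finset.sum_le_sum_of_subset_of_nonneg (Finset.subset_univ _) (fun i _ _ => hp.1 i)
  have h3 : ∑ i, p i * (ind A i - mass p A) ^ 2 ≤ 1 := by
    calc ∑ i, p i * (ind A i - mass p A) ^ 2 ≤ ∑ i, p i := by
          apply Finset.sum_le_sum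
          intro i _
          have h4 : (ind A i - mass p A) ^ 2 ≤ 1 := by
            unfold ind
            split_ifs
            · nlinarith
            · nlinarith
          have := hp.1 i
          nlinarith
      _ = 1 := hp.2
  calc (s : ℝ) * ∑ i, p i * (ind A i - mass p A) ^ 2 ≤ s * 1 :=
        mul_le_mul_of_nonneg_left h3 (Nat.cast_nonneg s)
    _ = s := mul_one _

theorem VC_bad {n m s : ℕ} {p : Fin n → ℝ} (hp : IsDist p) (hs : 0 < s) {ε : ℝ} (hε : 0 < ε)
    (hse : 32 ≤ ε ^ 2 * s) :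
    Pr p s (fun ω => ∃ i : (Fin m → Fin (n + 1)) × Finset (Fin m),
      ε / 2 * s < |smp (ind (Large_dec i.1 i.2)) ω - s * mass p (Large_dec i.1 i.2)|) ≤
      4 * (4 * s + 2) ^ m * Real.exp (-(ε ^ 2 * s / 32)) := by
  classical
  have hs' : (0 : ℝ) < s := by exact_mod_cast hs
  have hc : 0 < ε / 4 * s := by positivity
  have hD := VC_double (m := m) hp hs (t := ε / 4 * s) hc.le
  have h1 : ∀ ω : Fin s → Fin n, (if ∃ i : (Fin m → Fin (n + 1)) × Finset (Fin m),
      ε / 2 * s < |smp (ind (Large_dec i.1 i.2)) ω - s * mass p (Large_dec i.1 i.2)|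
        then (1 : ℝ) else 0) ≤
      2 * Ex p s (fun ω' => if VC_E m (ε / 4 * s) ω ω' then 1 else 0) := by
    intro ω
    split_ifs with h
    · obtain ⟨i, hi⟩ := h
      set A := Large_dec i.1 i.2 with hA
      have h2 : Pr p s (fun ω' => ε / 4 * s ≤ |smp (ind A) ω' - s * mass p A|) ≤ 1 / 2 := by
        refine (VC_cheb hp A hc).trans ?_
        rw [div_le_iff₀ (by positivity)]
        have h2' := mul_le_mul_of_nonneg_left hse hs'.le
        calc (s : ℝ) = s * 32 / 32 := by ring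
          _ ≤ s * (ε ^ 2 * s) / 32 := by linarith
          _ = 1 / 2 * (ε / 4 * s) ^ 2 := by ring
      have h3 := Pr_compl hp (fun ω' : Fin s → Fin n =>
        ε / 4 * s ≤ |smp (ind A) ω' - s * mass p A|)
      have h4 : Pr p s (fun ω' : Fin s → Fin n =>
          ¬ ε / 4 * s ≤ |smp (ind A) ω' - s * mass p A|) ≤ Pr p s (VC_E m (ε / 4 * s) ω) := by
        apply Pr_mono hp
        intro ω' hω'
        push Not at hω'
        refine ⟨i, ?_⟩
        rw [← hA]
        have h5 : |smp (ind A) ω - s * mass p A| ≤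
            |smp (ind A) ω - smp (ind A) ω'| + |smp (ind A) ω' - s * mass p A| := by
          have h6 : smp (ind A) ω - s * mass p A = (smp (ind A) ω - smp (ind A) ω') +
            (smp (ind A) ω' - s * mass p A) := by ring
          rw [h6]
          exact abs_add_le _ _
        linarith
      have h7 : Pr p s (VC_E m (ε / 4 * s) ω) =
          Ex p s (fun ω' => if VC_E m (ε / 4 * s) ω ω' then 1 else 0) := by
        unfold Pr
        congr 1
      rw [← h7]
      linarith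
    · apply mul_nonneg (by norm_num)
      apply Ex_nonneg hp
      intro ω'
      split_ifs <;> norm_num
  have h8 : Pr p s (fun ω => ∃ i : (Fin m → Fin (n + 1)) × Finset (Fin m),
      ε / 2 * s < |smp (ind (Large_dec i.1 i.2)) ω - s * mass p (Large_dec i.1 i.2)|) ≤
      2 * Ex p s (fun ω => Ex p s (fun ω' => if VC_E m (ε / 4 * s) ω ω' then 1 else 0)) := by
    rw [← Ex_mul_left]
    unfold Pr
    apply Ex_mono hp
    intro ω
    have := h1 ω
    refine le_trans (le_of_eq ?_) this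
    by_cases hh : ∃ i : (Fin m → Fin (n + 1)) × Finset (Fin m),
      ε / 2 * s < |smp (ind (Large_dec i.1 i.2)) ω - s * mass p (Large_dec i.1 i.2)|
    · simp only [if_pos hh]
    · simp only [if_neg hh]
  refine h8.trans ?_
  have h9 : (ε / 4 * s) ^ 2 / (2 * s) = ε ^ 2 * s / 32 := by
    field_simp
    norm_num
  rw [h9] at hD
  calc 2 * Ex p s (fun ω => Ex p s (fun ω' => if VC_E m (ε / 4 * s) ω ω' then 1 else 0)) ≤
        2 * ((4 * s + 2) ^ m * (2 * Real.exp (-(ε ^ 2 * s / 32)))) := by linarith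
    _ = 4 * (4 * s + 2) ^ m * Real.exp (-(ε ^ 2 * s / 32)) := by ring

/-- Tester: accept iff some coarsening `f` has `|N(f⁻¹ B) - s q(B)| ≤ s ε / 2` for all `B ⊆ [m]`.
Proof of: with probability `≥ 2/3`, `|N(A) - s p(A)| ≤ s ε/2` for all `A = f⁻¹ B`:
(1) ghost sample `ω'`: for fixed `A`, `Pr_{ω'}(|N'(A) - s p(A)| > s ε/4) ≤ 1/2` (Chebyshev, `s ≥ 8/ε²`), so
    `Pr_ω(∃ A bad) ≤ 2 Pr_{ω,ω'}(∃ A, |N(A) - N'(A)| > s ε/4)`;
(2) swapping `ω_a ↔ ω'_a` by signs `σ : Fin s → Bool` does not change the law of `(ω, ω')` (product measure on pairs), and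
    for fixed `(ω, ω')`, `A`: `P_σ(|∑ σ_a c_a| > s ε/4) ≤ 2 exp(-s ε²/32)`, `|c_a| ≤ 1` (`cosh x ≤ exp(x²/2)`);
(3) the number of traces `(1_A(x_a))_a` on the `2s` points `x = (ω, ω')` is at most `(2 (2s+1))^m`: with
    `c_j` the first position of the fibre `j`, `f(x_a) = #{j ≥ 1 | c_j ≤ x_a}` and `c_j ≤ x_a ↔ r_j ≤ rk(x_a)`,
    `r_j = #{b | x_b < c_j} ≤ 2s`, `rk(x_a) = #{b | x_b < x_a}`, so the trace is a function of `(r_j)_j` and `B`.
Total: `4 (4 s + 2)^m exp(-s ε²/32) ≤ 1/3`. -/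
theorem vc_test {m n s : ℕ} {ε : ℝ} (hm : 1 ≤ m) (hn : m ≤ n) (hε : 0 < ε) (hε1 : ε ≤ 1)
    (hs : 64 * (m * Real.log (4 * s + 2) + 4) / ε ^ 2 ≤ s) : Testable n m ε s := by
  classical
  intro q hq
  set P : (Fin s → Fin n) → Prop := fun ω => ∃ f : Fin n → Fin m, IsCoarsening f ∧
    ∀ B : Finset (Fin m), |smp (ind (Large_pre f B)) ω - s * mass q B| ≤ ε / 2 * s with hP
  have hm1 : (1 : ℝ) ≤ m := by exact_mod_cast hm
  have hs00 : (0 : ℝ) ≤ s := Nat.cast_nonneg s
  have hlog0 : 0 ≤ Real.log (4 * s + 2) := Real.log_nonneg (by linarith)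
  have hs' : 64 * (m * Real.log (4 * s + 2) + 4) ≤ ε ^ 2 * s := by
    rw [div_le_iff₀ (by positivity)] at hs
    linarith
  have hml : 0 ≤ m * Real.log (4 * s + 2) := by positivity
  have hes : 256 ≤ ε ^ 2 * s := by linarith
  have hs0 : (0 : ℝ) < s := by
    by_contra hc
    push Not at hc
    have : (s : ℝ) = 0 := le_antisymm hc hs00
    rw [this] at hes
    norm_num at hes
  have hspos : 0 < s := by exact_mod_cast hs0
  -- the bad event
  have hbad : ∀ p : Fin n → ℝ, IsDist p →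
      Pr p s (fun ω => ∃ i : (Fin m → Fin (n + 1)) × Finset (Fin m),
        ε / 2 * s < |smp (ind (Large_dec i.1 i.2)) ω - s * mass p (Large_dec i.1 i.2)|) ≤
        1 / 3 := by
    intro p hp
    refine le_trans (VC_bad (m := m) hp hspos hε (by linarith)) ?_
    have h1 : ((4 : ℝ) * s + 2) ^ m = Real.exp (m * Real.log (4 * s + 2)) := by
      rw [mul_comm (m : ℝ), Real.exp_mul, Real.exp_log (by linarith), Real.rpow_natCast]
    rw [h1, mul_assoc, ← Real.exp_add]
    have h2 : m * Real.log (4 * s + 2) + -(ε ^ 2 * s / 32) ≤ -8 := by linarith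
    have h3 : Real.exp (m * Real.log (4 * s + 2) + -(ε ^ 2 * s / 32)) ≤ Real.exp (-8) :=
      Real.exp_le_exp.mpr h2
    have h4 : Real.exp (-8) ≤ 1 / 12 := by
      rw [Real.exp_neg]
      have h5 : (12 : ℝ) ≤ Real.exp 8 := by
        have h6 := Real.add_one_le_exp (4 : ℝ)
        have h7 : Real.exp 8 = Real.exp 4 * Real.exp 4 := by
          rw [← Real.exp_add]
          norm_num
        rw [h7]
        nlinarith
      rw [inv_eq_one_div]
      apply one_div_le_one_div_of_le (by norm_num) h5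
    linarith
  have hgood : ∀ p : Fin n → ℝ, ∀ ω : Fin s → Fin n,
      (¬ ∃ i : (Fin m → Fin (n + 1)) × Finset (Fin m),
        ε / 2 * s < |smp (ind (Large_dec i.1 i.2)) ω - s * mass p (Large_dec i.1 i.2)|) →
      ∀ f : Fin n → Fin m, IsCoarsening f → ∀ B : Finset (Fin m),
        |smp (ind (Large_pre f B)) ω - s * mass p (Large_pre f B)| ≤ ε / 2 * s := by
    intro p ω h f hf B
    push Not at h
    obtain ⟨c, hc⟩ := Large_code hf.1 B
    have h1 := h (c, B)
    simp only at h1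
    rw [← hc] at h1
    exact h1
  have hacc : ∀ p : Fin n → ℝ,
      acceptProb p (fun ω => if P ω then (1 : ℝ) else 0) = Pr p s P := by
    intro p
    unfold acceptProb Pr Ex
    apply Finset.sum_congr rfl
    intro ω _
    by_cases hPω : P ω
    · simp only [if_pos hPω]
    · simp only [if_neg hPω]
  refine ⟨fun ω => if P ω then 1 else 0, ?_, ?_, ?_⟩
  · intro ω
    dsimp only
    split_ifs <;> norm_num
  · intro p hp hex
    obtain ⟨f, hf, hpush⟩ := hex
    rw [hacc]
    have h1 := hbad p hp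
    have h2 := Pr_compl hp (fun ω : Fin s → Fin n => ∃ i : (Fin m → Fin (n + 1)) × Finset (Fin m),
        ε / 2 * s < |smp (ind (Large_dec i.1 i.2)) ω - s * mass p (Large_dec i.1 i.2)|)
    have h3 : Pr p s (fun ω => ¬ ∃ i : (Fin m → Fin (n + 1)) × Finset (Fin m),
        ε / 2 * s < |smp (ind (Large_dec i.1 i.2)) ω - s * mass p (Large_dec i.1 i.2)|) ≤
        Pr p s P := by
      apply Pr_mono hp
      intro ω hω
      refine ⟨f, hf, ?_⟩
      intro B
      have := hgood p ω hω f hf B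
      rw [Large_mass_pre, hpush] at this
      exact this
    linarith
  · intro p hp hfar
    rw [hacc]
    refine le_trans ?_ (hbad p hp)
    apply Pr_mono hp
    intro ω hω
    by_contra hc
    obtain ⟨f, hf, hB⟩ := hω
    obtain ⟨B, hB'⟩ := Large_tv (push_dist hp f) hq (hfar f hf)
    have h1 := hgood p ω hc f hf B
    rw [Large_mass_pre] at h1
    have h2 := hB B
    have h3 := (abs_le.mp h1).1
    have h4 := (abs_le.mp h2).2
    have h5 : (s : ℝ) * (mass (push f p) B - mass q B) ≤ ε * s := by linarith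
    have h6 : (s : ℝ) * (mass (push f p) B - mass q B) > s * ε :=
      mul_lt_mul_of_pos_left hB' hs0
    linarith

/-- the explicit form -/
theorem vc_test' {m n s : ℕ} {ε : ℝ} (hm : 1 ≤ m) (hn : m ≤ n) (hε : 0 < ε) (hε1 : ε ≤ 1)
    (hs : 5000 * (m * Real.log (m / ε + 2)) / ε ^ 2 ≤ s) : Testable n m ε s := by
  apply vc_test hm hn hε hε1
  have hm1 : (1 : ℝ) ≤ m := by exact_mod_cast hm
  have hm0 : (0 : ℝ) < m := by linarith
  have hs00 : (0 : ℝ) ≤ s := Nat.cast_nonneg s
  rw [div_le_iff₀ (by positivity)] at hs ⊢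
  set L := Real.log (m / ε + 2) with hL
  have hme : 1 ≤ (m : ℝ) / ε := by
    rw [le_div_iff₀ hε]
    linarith
  have hL1 : 1 ≤ L := by
    rw [hL, Real.le_log_iff_exp_le (by linarith)]
    have := Real.exp_one_lt_d9
    linarith
  set y : ℝ := s * ε ^ 2 / m with hy
  have hys : (s : ℝ) * ε ^ 2 = y * m := by
    rw [hy]
    field_simp
  have hyL : 5000 * L ≤ y := by
    rw [hy, le_div_iff₀ hm0]
    linarith
  have hy0 : 0 < y := by linarith
  have hseq : (s : ℝ) = y * m / ε ^ 2 := by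
    rw [← hys]
    field_simp
  have hs5 : 4 * (s : ℝ) + 2 ≤ 5 * y * (m / ε) ^ 2 := by
    have h1 : (s : ℝ) ≤ y * (m / ε) ^ 2 := by
      rw [hseq, div_pow]
      have h2 : y * m / ε ^ 2 ≤ y * m ^ 2 / ε ^ 2 := by
        apply div_le_div_of_nonneg_right _ (by positivity)
        apply mul_le_mul_of_nonneg_left _ hy0.le
        nlinarith
      calc y * m / ε ^ 2 ≤ y * m ^ 2 / ε ^ 2 := h2
        _ = y * (m ^ 2 / ε ^ 2) := by ring
    have h3 : (1 : ℝ) ≤ (m / ε) ^ 2 := by nlinarith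
    have h4 : 5000 ≤ y * (m / ε) ^ 2 := by nlinarith
    linarith
  have hlog : Real.log (4 * s + 2) ≤ Real.log (5 * y) + 2 * L := by
    have h1 : Real.log (4 * s + 2) ≤ Real.log (5 * y * (m / ε) ^ 2) :=
      Real.log_le_log (by linarith) hs5
    rw [Real.log_mul (by positivity) (by positivity), Real.log_pow] at h1
    have h2 : Real.log (m / ε) ≤ L := by
      rw [hL]
      apply Real.log_le_log (by positivity)
      linarith
    push_cast at h1
    linarith
  have hlog5 : Real.log (5 * y) ≤ y / 128 + 6 := by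
    have h1 : Real.log (5 * y) = Real.log (y / 128) + Real.log 640 := by
      rw [← Real.log_mul (by positivity) (by norm_num)]
      congr 1
      ring
    have h2 : Real.log (y / 128) ≤ y / 128 - 1 := Real.log_le_sub_one_of_pos (by positivity)
    have h3 : Real.log 640 ≤ 7 := by
      have h4 : Real.log 640 ≤ Real.log 1024 := Real.log_le_log (by norm_num) (by norm_num)
      have h5 : Real.log 1024 = 10 * Real.log 2 := by
        rw [show (1024 : ℝ) = 2 ^ 10 by norm_num, Real.log_pow]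
        norm_num
      have := Real.log_two_lt_d9
      linarith
    linarith
  rw [hys]
  have h6 : 64 * Real.log (4 * s + 2) + 256 ≤ y := by linarith
  nlinarith

end Pool.Agent.BinUp
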