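import Pool.Agent.BinUp.Main
import Pool.Agent.BinUp.VC
import Pool.Agent.BinUp.LowerB

/-! MP_f7f4e7_lc: final assembly. -/

namespace Pool.Agent.BinUp

open Finset Pool.Agent.Binning

/-- upper bound for `n ≤ 2 m` -/
theorem final_upper : ∃ C : ℝ, 0 < C ∧ ∀ (m n s : ℕ) (ε : ℝ), 1 ≤ m → m ≤ n → n ≤ 2 * m → 0 < ε → ε ≤ 1 →
    C * (Real.sqrt m + ((n : ℝ) - m) * Real.log (m + 1) ^ 3) / ε ^ 2 ≤ s → Testable n m ε s := by
  obtain ⟨C, hC, h⟩ := small_test
  refine ⟨8 * C, by positivity, ?_⟩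
  intro m n s ε hm hn hn2 hε hε1 hs
  apply h hm hn hε hε1
  refine le_trans ?_ hs
  have hm' : (1 : ℝ) ≤ m := by exact_mod_cast hm
  have hlog : Lg n ≤ 2 * Real.log (m + 1) := by
    unfold Lg
    have h1 : (2 : ℝ) * Real.log (m + 1) = Real.log ((m + 1) ^ 2) := by
      rw [Real.log_pow]
      norm_num
    rw [h1]
    apply Real.log_le_log (by positivity)
    have h2 : (n : ℝ) ≤ 2 * m := by exact_mod_cast hn2
    nlinarith
  have hLg0 : 0 ≤ Lg n := by
    unfold Lg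
    apply Real.log_nonneg
    have : (0 : ℝ) ≤ n := by positivity
    linarith
  have hcube : Lg n ^ 3 ≤ 8 * Real.log (m + 1) ^ 3 := by
    calc Lg n ^ 3 ≤ (2 * Real.log (m + 1)) ^ 3 := pow_le_pow_left₀ hLg0 hlog 3
      _ = 8 * Real.log (m + 1) ^ 3 := by ring
  have hk : ((n - m : ℕ) : ℝ) = (n : ℝ) - m := by
    push_cast [Nat.cast_sub hn]
    ring
  rw [hk]
  have hk0 : (0 : ℝ) ≤ (n : ℝ) - m := by
    have : (m : ℝ) ≤ n := by exact_mod_cast hn
    linarith
  apply div_le_div_of_nonneg_right _ (by positivity)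
  have h3 : ((n : ℝ) - m) * Lg n ^ 3 ≤ ((n : ℝ) - m) * (8 * Real.log (m + 1) ^ 3) :=
    mul_le_mul_of_nonneg_left hcube hk0
  have h4 : 0 ≤ Real.sqrt m := Real.sqrt_nonneg _
  nlinarith [mul_nonneg hC.le h4, mul_le_mul_of_nonneg_left h3 hC.le]

/-- the lower bound with `L = ⌊log₂ m⌋` -/
theorem final_lower_log : ∃ c : ℝ, 0 < c ∧ ∀ (m n s : ℕ) (ε : ℝ), 2 ≤ m → m ≤ n →
    0 < ε → ε ≤ 1 / (20 * Real.logb 2 m) → Testable n m ε s →
    c * (Real.sqrt m + min ((n : ℝ) - m) m / Real.logb 2 m ^ 2) / ε ^ 2 ≤ s := by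
  obtain ⟨c, hc, h⟩ := lower_bound
  refine ⟨c / 2, by positivity, ?_⟩
  intro m n s ε hm hn hε hε1 hT
  have hm' : (2 : ℝ) ≤ m := by exact_mod_cast hm
  have hm0 : (0 : ℝ) < m := by linarith
  set L := Nat.log 2 m with hL
  have hL1 : 1 ≤ L := Nat.log_pos (by norm_num) hm
  have hL1' : (1 : ℝ) ≤ L := by exact_mod_cast hL1
  have hL0 : (0 : ℝ) < L := by linarith
  have hLle : (L : ℝ) ≤ Real.logb 2 m := by
    rw [Real.le_logb_iff_rpow_le (by norm_num) hm0, Real.rpow_natCast]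
    have : 2 ^ L ≤ m := Nat.pow_log_le_self 2 (by omega)
    exact_mod_cast this
  have hlt : Real.logb 2 m < L + 1 := by
    rw [Real.logb_lt_iff_lt_rpow (by norm_num) hm0]
    have h1 : m < 2 ^ (L + 1) := Nat.lt_pow_succ_log_self (by norm_num) m
    have h2 : (m : ℝ) < 2 ^ (L + 1) := by exact_mod_cast h1
    calc (m : ℝ) < 2 ^ (L + 1) := h2
      _ = (2 : ℝ) ^ ((L : ℝ) + 1) := by
          rw [← Real.rpow_natCast]
          push_cast
          rfl
  have hlog0 : 0 < Real.logb 2 m := lt_of_lt_of_le hL0 hLle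
  have hεL : ε ≤ 1 / (20 * (L : ℝ)) := by
    refine hε1.trans ?_
    apply one_div_le_one_div_of_le (by positivity)
    nlinarith
  have h1 := h m n L s ε hm hn hL1 hε hεL hT
  refine le_trans ?_ h1
  apply div_le_div_of_nonneg_right _ (by positivity)
  have hM : (1 : ℝ) / 2 ≤ (m : ℝ) ^ (-(1 / (2 * (L : ℝ)))) := by
    rw [Real.rpow_neg hm0.le]
    rw [one_div, inv_le_inv₀ (by norm_num) (Real.rpow_pos_of_pos hm0 _)]
    calc (m : ℝ) ^ (1 / (2 * (L : ℝ))) ≤ ((2 : ℝ) ^ ((2 : ℝ) * L)) ^ (1 / (2 * (L : ℝ))) := by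
          apply Real.rpow_le_rpow hm0.le _ (by positivity)
          have h2 : (m : ℝ) = 2 ^ Real.logb 2 m := (Real.rpow_logb (by norm_num) (by norm_num) hm0).symm
          rw [h2]
          apply Real.rpow_le_rpow_of_exponent_le (by norm_num)
          linarith
      _ = 2 := by
          rw [← Real.rpow_mul (by norm_num)]
          have : (2 : ℝ) * L * (1 / (2 * (L : ℝ))) = 1 := by
            field_simp
          rw [this, Real.rpow_one]
  have hk0 : (0 : ℝ) ≤ (n : ℝ) - m := by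
    have : (m : ℝ) ≤ n := by exact_mod_cast hn
    linarith
  have hmin : min ((n : ℝ) - m) m / Real.logb 2 m ^ 2 ≤ min ((m : ℝ) / L) (((n : ℝ) - m) / (L : ℝ) ^ 2) := by
    have h5 : min ((n : ℝ) - m) m / Real.logb 2 m ^ 2 ≤ min ((n : ℝ) - m) m / (L : ℝ) ^ 2 := by
      apply div_le_div_of_nonneg_left (le_min hk0 hm0.le) (by positivity)
      exact pow_le_pow_left₀ hL0.le hLle 2
    refine h5.trans ?_
    apply le_min
    · rw [div_le_div_iff₀ (by positivity) hL0]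
      have : min ((n : ℝ) - m) m ≤ m := min_le_right _ _
      nlinarith [mul_le_mul_of_nonneg_right this hL0.le, mul_nonneg hm0.le hL0.le]
    · apply div_le_div_of_nonneg_right (min_le_left _ _) (by positivity)
  have h6 : 0 ≤ min ((n : ℝ) - m) m / Real.logb 2 m ^ 2 := by
    apply div_nonneg (le_min hk0 hm0.le) (by positivity)
  have h7 : min ((n : ℝ) - m) m / Real.logb 2 m ^ 2 * (1 / 2) ≤
      min ((m : ℝ) / L) (((n : ℝ) - m) / (L : ℝ) ^ 2) * (m : ℝ) ^ (-(1 / (2 * (L : ℝ)))) :=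
    mul_le_mul hmin hM (by norm_num) (h6.trans hmin)
  have h8 : 0 ≤ Real.sqrt m := Real.sqrt_nonneg _
  nlinarith

end Pool.Agent.BinUp
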