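import Pool.Agent.BinUp.Bern
import Pool.Agent.BinUp.Card
import Pool.Agent.BinUp.Wt

/-! MP_f7f4e7_lc, upper bound, module GoodP. -/

namespace Pool.Agent.BinUp

open Finset Pool.Agent.Binning

theorem GoodP_exp (n N : ℕ) : Real.exp (-((N : ℝ) * Lg n)) = (((n : ℝ) + 1) ^ N)⁻¹ := by
  have h : (0 : ℝ) < (n : ℝ) + 1 := by positivity
  rw [Real.exp_neg, Real.exp_nat_mul, Lg, Real.exp_log h]

theorem GoodP_union {n s : ℕ} {p : Fin n → ℝ} (hp : IsDist p) (hn : 1 ≤ n) {ι : Type} (S : Finset ι)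
    (v : ι → Fin n → ℝ) {κ θ : ℝ} (hθ : 0 < θ) {N a : ℕ} (hκ : κ = N * Lg n) (hN : a + 8 ≤ N)
    (hS : #S ≤ (n + 1) ^ a) (hv : ∀ i ∈ S, ∀ x, |v i x| ≤ θ) :
    Pr p s (fun ω => ∃ i ∈ S, ¬ Conc p κ θ (v i) ω) ≤ 2 * (((n : ℝ) + 1) ^ 8)⁻¹ := by
  have hn1 : (1 : ℝ) ≤ (n : ℝ) + 1 := by
    have : (0 : ℝ) ≤ n := Nat.cast_nonneg n
    linarith
  have hL : 0 < Lg n := by
    unfold Lg
    apply Real.log_pos
    have : (1 : ℝ) ≤ n := by exact_mod_cast hn
    linarith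
  have hκ0 : 0 < κ := by
    rw [hκ]
    have : (0 : ℝ) < N := by exact_mod_cast (by omega : 0 < N)
    positivity
  have h1 : Pr p s (fun ω => ∃ i ∈ S, ¬ Conc p κ θ (v i) ω) ≤ ∑ i ∈ S, 2 * Real.exp (-κ) :=
    (Pr_union hp S _).trans (sum_le_sum fun i hi => bernstein hp hκ0 hθ (hv i hi))
  refine h1.trans ?_
  rw [sum_const, nsmul_eq_mul, hκ, GoodP_exp]
  have hS' : (#S : ℝ) ≤ ((n : ℝ) + 1) ^ a := by exact_mod_cast hS
  have hpow : ((n : ℝ) + 1) ^ (a + 8) ≤ ((n : ℝ) + 1) ^ N := pow_le_pow_right₀ hn1 hN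
  have hinv : (((n : ℝ) + 1) ^ N)⁻¹ ≤ (((n : ℝ) + 1) ^ (a + 8))⁻¹ := by
    apply inv_anti₀ (by positivity) hpow
  calc (#S : ℝ) * (2 * (((n : ℝ) + 1) ^ N)⁻¹)
      ≤ ((n : ℝ) + 1) ^ a * (2 * (((n : ℝ) + 1) ^ (a + 8))⁻¹) := by
        apply mul_le_mul hS' (by linarith) (by positivity) (by positivity)
    _ = 2 * (((n : ℝ) + 1) ^ 8)⁻¹ := by
        have : (n : ℝ) + 1 ≠ 0 := by positivity
        rw [pow_add]
        field_simp

theorem GoodP_ind {n : ℕ} (A : Finset (Fin n)) (x : Fin n) : |ind A x| ≤ 1 := by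
  unfold ind
  split_ifs <;> simp

theorem GoodP_vfun {n m : ℕ} {q : Fin m → ℝ} (hq : IsDist q) (f f' : Fin n → Fin m) (x : Fin n) :
    |vfun q f f' x| ≤ th m := by
  have hlev : (1 : ℝ) ≤ lev m := by
    have : 1 ≤ lev m := by unfold lev; omega
    exact_mod_cast this
  have hth : (1 : ℝ) ≤ th m := by unfold th; linarith
  unfold vfun
  split_ifs with h
  · have hw := wt_pos hq (f x)
    have h1 := q_le_wt hq (f x)
    have h2 := hq.1 (f x)
    have h3 := hq.1 (f' x)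
    rw [abs_le]
    constructor
    · rw [le_div_iff₀ hw]
      nlinarith
    · rw [div_le_iff₀ hw]
      linarith [h.2.2]
  · simp only [abs_zero]
    linarith

/-- the good event has probability `≥ 5/6` -/
theorem good_prob {n m s : ℕ} {q : Fin m → ℝ} {p : Fin n → ℝ} (hq : IsDist q) (hp : IsDist p) :
    Pr p s (fun ω => ¬ Good q p ω) ≤ 1 / 6 := by
  classical
  have hn : 1 ≤ n := by
    rcases Nat.eq_zero_or_pos n with h | h
    · subst h
      have := hp.2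
      simp at this
    · exact h
  have hlev : (1 : ℝ) ≤ lev m := by
    have : 1 ≤ lev m := by unfold lev; omega
    exact_mod_cast this
  have hth : (0 : ℝ) < th m := by unfold th; linarith
  set ε : ℝ := 2 * (((n : ℝ) + 1) ^ 8)⁻¹ with hε
  have hε0 : 0 ≤ ε := by positivity
  -- (a)
  have ha : Pr p s (fun ω => ∃ z ∈ (univ : Finset (Fin n × Fin n)),
      ¬ Conc p (kap0 n) 1 (ind (Icc z.1 z.2)) ω) ≤ ε := by
    apply GoodP_union hp hn univ (fun z : Fin n × Fin n => ind (Icc z.1 z.2)) one_pos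
      (N := 10) (a := 2) (by simp [kap0]) le_rfl
    · simp only [card_univ, Fintype.card_prod, Fintype.card_fin]
      nlinarith
    · intro i _ x
      exact GoodP_ind _ x
  -- (b)
  have hb : Pr p s (fun ω => ∃ z ∈ ({f : Fin n → Fin m | IsCoarsening f} : Finset _) ×ˢ
      ({f : Fin n → Fin m | IsCoarsening f} : Finset _),
      ¬ Conc p (kap1 n (n - m)) (th m) (vfun q z.1 z.2) ω) ≤ ε := by
    apply GoodP_union hp hn _ (fun z : (Fin n → Fin m) × (Fin n → Fin m) => vfun q z.1 z.2) hth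
      (N := 2 * (n - m) + 10) (a := 2 * (n - m)) (by simp [kap1]) (by omega)
    · rw [card_product]
      calc #({f : Fin n → Fin m | IsCoarsening f} : Finset _) *
            #({f : Fin n → Fin m | IsCoarsening f} : Finset _)
          ≤ (n + 1) ^ (n - m) * (n + 1) ^ (n - m) := Nat.mul_le_mul (card_co n m) (card_co n m)
        _ = (n + 1) ^ (2 * (n - m)) := by rw [← pow_add]; congr 1; omega
    · intro i _ x
      exact GoodP_vfun hq _ _ x
  -- (c)
  have hc : ∀ u ∈ Icc 1 (n - m), Pr p s (fun ω => ∃ t ∈ (univ : Finset (Fin (Vn (n - m) u) → Fin n)),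
      ¬ Conc p (kapu n (n - m) u) 1 (ind (Ublk u t)) ω) ≤ ε := by
    intro u _
    apply GoodP_union hp hn univ (fun t : Fin (Vn (n - m) u) → Fin n => ind (Ublk u t)) one_pos
      (N := 3 * ((n - m) / u) + 13) (a := 3 * ((n - m) / u) + 3) (by simp [kapu]) (by omega)
    · simp only [card_univ, Fintype.card_fun, Fintype.card_fin]
      unfold Vn
      exact Nat.pow_le_pow_left (by omega) _
    · intro i _ x
      exact GoodP_ind _ x
  have hd : ∀ u ∈ Icc 1 (n - m), Pr p s (fun ω => ∃ z ∈ (univ : Finset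
      ((Fin ((n - m) / u) → Fin n) × (Fin ((n - m) / u) → Fin n))),
      ¬ Conc p (kapu n (n - m) u) 1 (ind (A1 q u z.1 z.2)) ω) ≤ ε := by
    intro u _
    apply GoodP_union hp hn univ (fun z : (Fin ((n - m) / u) → Fin n) × (Fin ((n - m) / u) → Fin n) =>
      ind (A1 q u z.1 z.2)) one_pos
      (N := 3 * ((n - m) / u) + 13) (a := 2 * ((n - m) / u)) (by simp [kapu]) (by omega)
    · simp only [card_univ, Fintype.card_prod, Fintype.card_fun, Fintype.card_fin]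
      rw [two_mul, pow_add]
      exact Nat.mul_le_mul (Nat.pow_le_pow_left (by omega) _) (Nat.pow_le_pow_left (by omega) _)
    · intro i _ x
      exact GoodP_ind _ x
  have he : Pr p s (fun ω => ∃ u ∈ Icc 1 (n - m),
      (∃ t ∈ (univ : Finset (Fin (Vn (n - m) u) → Fin n)),
        ¬ Conc p (kapu n (n - m) u) 1 (ind (Ublk u t)) ω) ∨
      (∃ z ∈ (univ : Finset ((Fin ((n - m) / u) → Fin n) × (Fin ((n - m) / u) → Fin n))),
        ¬ Conc p (kapu n (n - m) u) 1 (ind (A1 q u z.1 z.2)) ω)) ≤ n * (2 * ε) := by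
    refine (Pr_union hp (Icc 1 (n - m)) (fun u ω =>
      (∃ t ∈ (univ : Finset (Fin (Vn (n - m) u) → Fin n)),
        ¬ Conc p (kapu n (n - m) u) 1 (ind (Ublk u t)) ω) ∨
      (∃ z ∈ (univ : Finset ((Fin ((n - m) / u) → Fin n) × (Fin ((n - m) / u) → Fin n))),
        ¬ Conc p (kapu n (n - m) u) 1 (ind (A1 q u z.1 z.2)) ω))).trans ?_
    have h1 : ∀ u ∈ Icc 1 (n - m), Pr p s (fun ω =>
        (∃ t ∈ (univ : Finset (Fin (Vn (n - m) u) → Fin n)),
          ¬ Conc p (kapu n (n - m) u) 1 (ind (Ublk u t)) ω) ∨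
        (∃ z ∈ (univ : Finset ((Fin ((n - m) / u) → Fin n) × (Fin ((n - m) / u) → Fin n))),
          ¬ Conc p (kapu n (n - m) u) 1 (ind (A1 q u z.1 z.2)) ω)) ≤ 2 * ε := by
      intro u hu
      refine (Pr_or hp _ _).trans ?_
      have := hc u hu
      have := hd u hu
      linarith
    refine (sum_le_sum h1).trans ?_
    rw [sum_const, nsmul_eq_mul]
    have h2 : ((#(Icc 1 (n - m)) : ℕ) : ℝ) ≤ n := by
      rw [Nat.card_Icc]
      exact_mod_cast (by omega : n - m + 1 - 1 ≤ n)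
    exact mul_le_mul_of_nonneg_right h2 (by positivity)
  have hmono : Pr p s (fun ω => ¬ Good q p ω) ≤ Pr p s (fun ω =>
      (∃ z ∈ (univ : Finset (Fin n × Fin n)), ¬ Conc p (kap0 n) 1 (ind (Icc z.1 z.2)) ω) ∨
      ((∃ z ∈ ({f : Fin n → Fin m | IsCoarsening f} : Finset _) ×ˢ
        ({f : Fin n → Fin m | IsCoarsening f} : Finset _),
        ¬ Conc p (kap1 n (n - m)) (th m) (vfun q z.1 z.2) ω) ∨
      (∃ u ∈ Icc 1 (n - m),
        (∃ t ∈ (univ : Finset (Fin (Vn (n - m) u) → Fin n)),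
          ¬ Conc p (kapu n (n - m) u) 1 (ind (Ublk u t)) ω) ∨
        (∃ z ∈ (univ : Finset ((Fin ((n - m) / u) → Fin n) × (Fin ((n - m) / u) → Fin n))),
          ¬ Conc p (kapu n (n - m) u) 1 (ind (A1 q u z.1 z.2)) ω)))) := by
    apply Pr_mono hp
    intro ω hω
    by_contra hcon
    apply hω
    simp only [not_or, not_exists, not_and, not_not] at hcon
    obtain ⟨h1, h2, h3⟩ := hcon
    refine ⟨fun x y => h1 (x, y) (mem_univ _), fun f f' hf hf' => h2 (f, f') ?_, fun u hu hu' => ?_⟩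
    · simp [hf, hf']
    · obtain ⟨h4, h5⟩ := h3 u (mem_Icc.2 ⟨hu, hu'⟩)
      exact ⟨fun t => h4 t (mem_univ _), fun t t' => h5 (t, t') (mem_univ _)⟩
  have hfin : Pr p s (fun ω => ¬ Good q p ω) ≤ ε + (ε + n * (2 * ε)) := by
    refine hmono.trans ((Pr_or hp _ _).trans ?_)
    refine add_le_add ha ((Pr_or hp _ _).trans (add_le_add hb he))
  refine hfin.trans ?_
  have hn' : (1 : ℝ) ≤ n := by exact_mod_cast hn
  have hx : (0 : ℝ) < (n : ℝ) + 1 := by positivity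
  have h7 : (128 : ℝ) ≤ ((n : ℝ) + 1) ^ 7 := by
    calc (128 : ℝ) = 2 ^ 7 := by norm_num
      _ ≤ ((n : ℝ) + 1) ^ 7 := pow_le_pow_left₀ (by norm_num) (by linarith) 7
  have heq : ε + (ε + n * (2 * ε)) = 4 * (((n : ℝ) + 1) ^ 7)⁻¹ := by
    rw [hε]
    have : ((n : ℝ) + 1) ^ 8 = ((n : ℝ) + 1) ^ 7 * ((n : ℝ) + 1) := by ring
    rw [this]
    field_simp
    ring
  rw [heq]
  have : (((n : ℝ) + 1) ^ 7)⁻¹ ≤ 128⁻¹ := inv_anti₀ (by norm_num) h7
  linarith

end Pool.Agent.BinUp
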