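import Pool.Agent.BinUp.Bas
import Pool.Agent.BinUp.Wt

/-! MP_f7f4e7_lc, upper bound, module Truth. -/

namespace Pool.Agent.BinUp

open Finset Pool.Agent.Binning

theorem Truth_ind_sum {n : ℕ} (A : Finset (Fin n)) (p : Fin n → ℝ) :
    ∑ i, ind A i * p i = mass p A := by
  unfold ind mass
  simp

theorem Truth_ind_sq {n : ℕ} (A : Finset (Fin n)) (p : Fin n → ℝ) :
    ∑ i, ind A i ^ 2 * p i = mass p A := by
  unfold ind mass
  simp

theorem Truth_mass_le {n m : ℕ} {q : Fin m → ℝ} {p : Fin n → ℝ} (hp : IsDist p)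
    {f₀ : Fin n → Fin m} (hpush : push f₀ p = q) (A : Finset (Fin n)) :
    mass p A ≤ mass q (A.image f₀) := by
  subst hpush
  unfold mass push
  have h1 : ∑ j ∈ A.image f₀, ∑ i with f₀ i = j, p i =
      ∑ i with f₀ i ∈ A.image f₀, p i := by
    rw [← Finset.sum_fiberwise_of_maps_to (s := {i | f₀ i ∈ A.image f₀}) (t := A.image f₀) (g := f₀)
      (fun i hi => by simpa using hi)]
    apply Finset.sum_congr rfl
    intro j hj
    apply Finset.sum_congr _ (fun _ _ => rfl)
    ext i
    simp only [mem_filter, mem_univ, true_and]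
    constructor
    · intro h
      exact ⟨by rw [h]; exact hj, h⟩
    · intro h
      exact h.2
  rw [h1]
  apply Finset.sum_le_sum_of_subset_of_nonneg
  · intro i hi
    simp only [mem_filter, mem_univ, true_and]
    exact Finset.mem_image_of_mem _ hi
  · intro i _ _
    exact hp.1 i

theorem Truth_conc_le {n s : ℕ} {p : Fin n → ℝ} (hp : IsDist p) {κ : ℝ} (hκ : 0 ≤ κ)
    {A : Finset (Fin n)} {ω : Fin s → Fin n} (h : Conc p κ 1 (ind A) ω) :
    smp (ind A) ω ≤ 2 * (s * mass p A) + 3 * κ := by
  unfold Conc at h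
  rw [Truth_ind_sum, Truth_ind_sq] at h
  have h1 := (abs_le.mp h).2
  have hm : 0 ≤ mass p A := Finset.sum_nonneg (fun i _ => hp.1 i)
  have hb : 0 ≤ (s : ℝ) * mass p A := by positivity
  have h2 : 2 * √(κ * (s * mass p A)) ≤ κ + s * mass p A := by
    have h3 : √(κ * (s * mass p A)) ≤ (κ + s * mass p A) / 2 := by
      rw [Real.sqrt_le_left (by positivity)]
      nlinarith [sq_nonneg (κ - s * mass p A)]
    linarith
  linarith

/-- the truth passes -/
theorem truth_pass {n m s : ℕ} {q : Fin m → ℝ} {p : Fin n → ℝ} (hq : IsDist q) (hp : IsDist p)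
    {f₀ : Fin n → Fin m} (hf₀ : IsCoarsening f₀) (hpush : push f₀ p = q)
    {ω : Fin s → Fin n} (hG : Good q p ω) : Pass q f₀ ω := by
  obtain ⟨g0, g1, g2⟩ := hG
  have hL : 0 ≤ Lg n := by
    unfold Lg
    apply Real.log_nonneg
    have : (0 : ℝ) ≤ n := by positivity
    linarith
  refine ⟨hf₀, ?_, ?_, ?_⟩
  · intro j
    obtain ⟨x, y, hxy⟩ := fib_icc hf₀ j
    have h := g0 x y
    rw [← hxy] at h
    unfold Conc at h
    rw [Truth_ind_sum, Truth_ind_sq] at h
    have hmj : mass p (fib f₀ j) = q j := by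
      rw [← hpush]
      rfl
    rw [hmj] at h
    simpa using h
  · intro f' hf'
    have h := g1 f₀ f' hf₀ hf'
    unfold Conc at h
    have key : ∀ i, vfun q f₀ f' i ≠ 0 → q (f₀ i) = p i := by
      intro i hi
      unfold vfun at hi
      split_ifs at hi with hc
      · obtain ⟨hc1, _, _⟩ := hc
        obtain ⟨a, ha⟩ := Finset.card_eq_one.mp hc1
        have hia : i ∈ fib f₀ (f₀ i) := by simp [fib]
        rw [ha, Finset.mem_singleton] at hia
        subst hia
        have : q (f₀ i) = mass p (fib f₀ (f₀ i)) := by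
          rw [← hpush]; rfl
        rw [this, ha]
        simp [mass]
      · exact absurd rfl hi
    have e1 : ∑ i, vfun q f₀ f' i * p i = ∑ i, vfun q f₀ f' i * q (f₀ i) := by
      apply Finset.sum_congr rfl
      intro i _
      by_cases hi : vfun q f₀ f' i = 0
      · rw [hi]; simp
      · rw [key i hi]
    have e2 : ∑ i, vfun q f₀ f' i ^ 2 * p i = ∑ i, vfun q f₀ f' i ^ 2 * q (f₀ i) := by
      apply Finset.sum_congr rfl
      intro i _
      by_cases hi : vfun q f₀ f' i = 0
      · rw [hi]; simp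
      · rw [key i hi]
    rw [e1, e2] at h
    exact h
  · intro u hu huk
    obtain ⟨h1, h2⟩ := g2 u hu huk
    have hk : 0 ≤ kapu n (n - m) u := by
      unfold kapu
      positivity
    constructor
    · intro t
      have h3 := Truth_conc_le hp hk (h1 t)
      have h4 := Truth_mass_le hp hpush (Ublk u t)
      have h5 : (s : ℝ) * mass p (Ublk u t) ≤ s * mass q ((Ublk u t).image f₀) :=
        mul_le_mul_of_nonneg_left h4 (by positivity)
      linarith
    · intro t t'
      have h3 := Truth_conc_le hp hk (h2 t t')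
      have h4 := Truth_mass_le hp hpush (A1 q u t t')
      have h5 : (s : ℝ) * mass p (A1 q u t t') ≤ s * mass q ((A1 q u t t').image f₀) :=
        mul_le_mul_of_nonneg_left h4 (by positivity)
      linarith

end Pool.Agent.BinUp
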