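import Pool.Agent.BinUp.Stage2
import Pool.Agent.BinUp.DBound
import Pool.Agent.BinUp.Truth
import Pool.Agent.BinUp.GoodP

/-! MP_f7f4e7_lc, upper bound, module Main. -/

namespace Pool.Agent.BinUp

open Finset Pool.Agent.Binning

theorem Main_Lg_pos {n : ℕ} (hn : 1 ≤ n) : 0 < Lg n := by
  unfold Lg
  apply Real.log_pos
  have : (1 : ℝ) ≤ n := by exact_mod_cast hn
  linarith

open Classical in
/-- the tester: `f` chosen from the first batch -/
noncomputable def Main_pick {n m s₁ : ℕ} (hm : 1 ≤ m) (q : Fin m → ℝ) (ω₁ : Fin s₁ → Fin n) : Fin n → Fin m :=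
  if h : ∃ f : Fin n → Fin m, Pass q f ω₁ then h.choose else fun _ => ⟨0, hm⟩

open Classical in
/-- the tester on two batches -/
noncomputable def Main_T {n m s₁ s₂ : ℕ} (hm : 1 ≤ m) (q : Fin m → ℝ) (ε : ℝ) (ω₁ : Fin s₁ → Fin n)
    (ω₂ : Fin s₂ → Fin n) : ℝ :=
  if (∃ f : Fin n → Fin m, Pass q f ω₁) ∧
      Tst q (fun a => Main_pick hm q ω₁ (ω₂ a)) ≤ s₂ * (s₂ - 1) * (ε ^ 2 / 2) then 1 else 0

theorem Main_T_mem {n m s₁ s₂ : ℕ} (hm : 1 ≤ m) (q : Fin m → ℝ) (ε : ℝ) (ω₁ : Fin s₁ → Fin n)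
    (ω₂ : Fin s₂ → Fin n) : 0 ≤ Main_T hm q ε ω₁ ω₂ ∧ Main_T hm q ε ω₁ ω₂ ≤ 1 := by
  unfold Main_T
  split_ifs <;> norm_num

theorem small_test : ∃ C : ℝ, 0 < C ∧ ∀ {m n s : ℕ} {ε : ℝ} (_ : 1 ≤ m) (_ : m ≤ n) (_ : 0 < ε) (_ : ε ≤ 1)
    (_ : C * (√m + (n - m : ℕ) * Lg n ^ 3) / ε ^ 2 ≤ s), Testable n m ε s := by
  classical
  obtain ⟨C₀, hC₀, hdb⟩ := dbound
  refine ⟨30 * C₀ + 16000, by positivity, ?_⟩
  intro m n s ε hm hn hε hε1 hs
  have hε2 : 0 < ε ^ 2 := by positivity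
  have hLg := Main_Lg_pos (hm.trans hn)
  set R : ℝ := (n - m : ℕ) * Lg n ^ 3 with hR
  have hR0 : 0 ≤ R := by positivity
  have hsq : 1 ≤ √(m : ℝ) := by
    rw [Real.one_le_sqrt]
    exact_mod_cast hm
  rw [div_le_iff₀ hε2] at hs
  -- the two batches
  set s₁ := s / 2 with hs₁
  set s₂ := s - s / 2 with hs₂
  have hss : s = s₁ + s₂ := by omega
  have hs1' : (s : ℝ) ≤ 3 * s₁ := by
    have h1 : 2 ≤ s := by
      by_contra hcon
      push Not at hcon
      have h2 : (s : ℝ) ≤ 1 := by exact_mod_cast (by omega : s ≤ 1)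
      have h3 : ε ^ 2 ≤ 1 := pow_le_one₀ hε.le hε1
      nlinarith
    have : s ≤ 3 * s₁ := by omega
    exact_mod_cast this
  have hs2' : (s : ℝ) ≤ 2 * s₂ := by
    have : s ≤ 2 * s₂ := by omega
    exact_mod_cast this
  have hA : (30 * C₀ + 16000) * (√m + R) ≤ s * ε ^ 2 := hs
  have hst2 : 4000 * √m / ε ^ 2 ≤ s₂ := by
    rw [div_le_iff₀ hε2]
    nlinarith
  have hs1pos : 1 ≤ s₁ := by
    by_contra hcon
    have h2 : s₁ = 0 := by omega
    have h4 : (s₁ : ℝ) = 0 := by exact_mod_cast h2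
    have h3 : (s : ℝ) ≤ 0 := by linarith
    have h5 : (s : ℝ) * ε ^ 2 ≤ 0 := mul_nonpos_of_nonpos_of_nonneg h3 hε2.le
    have h6 : 0 < (30 * C₀ + 16000) * (√m + R) := by positivity
    linarith
  have hst1 : C₀ * R ≤ s₁ * (ε ^ 2 / 10) := by
    nlinarith
  intro q hq
  rw [hss]
  refine ⟨fun ω => Main_T hm q ε (fun a => ω (Fin.castAdd s₂ a)) (fun b => ω (Fin.natAdd s₁ b)), ?_, ?_, ?_⟩
  · intro ω
    exact Main_T_mem hm q ε _ _
  · intro p hp hyes
    obtain ⟨f₀, hf₀, hpush⟩ := hyes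
    have h0 : acceptProb p (fun ω : Fin (s₁ + s₂) → Fin n =>
        Main_T hm q ε (fun a => ω (Fin.castAdd s₂ a)) (fun b => ω (Fin.natAdd s₁ b))) =
        Ex p s₁ (fun ω₁ => Ex p s₂ (fun ω₂ => Main_T hm q ε ω₁ ω₂)) := Ex_append _
    rw [h0]
    have h1 : 5 / 6 * Pr p s₁ (fun ω₁ => Good q p ω₁) ≤
        Ex p s₁ (fun ω₁ => Ex p s₂ (fun ω₂ => Main_T hm q ε ω₁ ω₂)) := by
      unfold Pr
      rw [← Ex_mul_left]
      apply Ex_mono hp
      intro ω₁
      by_cases hG : Good q p ω₁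
      · simp only [hG, if_true, mul_one]
        have hex : ∃ f : Fin n → Fin m, Pass q f ω₁ := ⟨f₀, truth_pass hq hp hf₀ hpush hG⟩
        have hpk : Main_pick hm q ω₁ = hex.choose := by
          unfold Main_pick
          simp only [hex, dif_pos]
        have hpass : Pass q (Main_pick hm q ω₁) ω₁ := by
          rw [hpk]
          exact hex.choose_spec
        have hchi : chi q (push (Main_pick hm q ω₁) p) ≤ ε ^ 2 / 10 := by
          have h2 := hdb hq hp hs1pos hf₀ hpush hG hpass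
          have h3 : (0 : ℝ) < s₁ := by exact_mod_cast hs1pos
          have h4 : (s₁ : ℝ) * chi q (push (Main_pick hm q ω₁) p) ≤ s₁ * (ε ^ 2 / 10) := h2.trans hst1
          exact le_of_mul_le_mul_left h4 h3
        have h5 := stage2_yes hq (push_dist hp (Main_pick hm q ω₁)) hε hε1 hst2 hchi
        rw [Pr_compl (push_dist hp _)] at h5
        have h6 : Ex p s₂ (fun ω₂ => Main_T hm q ε ω₁ ω₂) =
            Pr (push (Main_pick hm q ω₁) p) s₂ (fun ω => Tst q ω ≤ s₂ * (s₂ - 1) * (ε ^ 2 / 2)) := by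
          unfold Pr
          rw [← Ex_push]
          congr 1
          funext ω₂
          unfold Main_T
          simp [hex]
        rw [h6]
        linarith
      · simp only [hG, if_false, mul_zero]
        apply Ex_nonneg hp
        intro ω₂
        exact (Main_T_mem hm q ε ω₁ ω₂).1
    have h2 := good_prob (s := s₁) hq hp
    rw [Pr_compl hp] at h2
    nlinarith
  · intro p hp hfar
    have h0 : acceptProb p (fun ω : Fin (s₁ + s₂) → Fin n =>
        Main_T hm q ε (fun a => ω (Fin.castAdd s₂ a)) (fun b => ω (Fin.natAdd s₁ b))) =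
        Ex p s₁ (fun ω₁ => Ex p s₂ (fun ω₂ => Main_T hm q ε ω₁ ω₂)) := Ex_append _
    rw [h0]
    have h1 : Ex p s₁ (fun ω₁ => Ex p s₂ (fun ω₂ => Main_T hm q ε ω₁ ω₂)) ≤ Ex p s₁ (fun _ => 1 / 6) := by
      apply Ex_mono hp
      intro ω₁
      by_cases hex : ∃ f : Fin n → Fin m, Pass q f ω₁
      · have hpk : Main_pick hm q ω₁ = hex.choose := by
          unfold Main_pick
          simp only [hex, dif_pos]
        have hpass : Pass q (Main_pick hm q ω₁) ω₁ := by
          rw [hpk]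
          exact hex.choose_spec
        have h5 := stage2_far hq (push_dist hp (Main_pick hm q ω₁)) hε hε1 hst2 (hfar _ hpass.1)
        have h6 : Ex p s₂ (fun ω₂ => Main_T hm q ε ω₁ ω₂) =
            Pr (push (Main_pick hm q ω₁) p) s₂ (fun ω => Tst q ω ≤ s₂ * (s₂ - 1) * (ε ^ 2 / 2)) := by
          unfold Pr
          rw [← Ex_push]
          congr 1
          funext ω₂
          unfold Main_T
          simp [hex]
        rw [h6]
        exact h5
      · have h6 : Ex p s₂ (fun ω₂ => Main_T hm q ε ω₁ ω₂) = Ex p s₂ (fun _ => 0) := by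
          congr 1
          funext ω₂
          unfold Main_T
          simp [hex]
        rw [h6, Ex_const hp]
        norm_num
    rw [Ex_const hp] at h1
    linarith

end Pool.Agent.BinUp
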