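import Pool.Agent.BinUp.Defs

/-! MP_f7f4e7_lc, upper bound, module Prob. -/

namespace Pool.Agent.BinUp

open Finset Pool.Agent.Binning

section Prob
variable {n s : ℕ} {p : Fin n → ℝ}

theorem Ex_const (hp : IsDist p) (c : ℝ) : Ex p s (fun _ => c) = c := by
  unfold Ex
  rw [← Finset.sum_mul]
  have h : ∑ ω : Fin s → Fin n, ∏ a, p (ω a) = ∏ _a : Fin s, ∑ i, p i := by
    rw [Finset.prod_univ_sum]
    simp [Fintype.piFinset_univ]
  rw [h, hp.2]
  simp

theorem Ex_add (F G : (Fin s → Fin n) → ℝ) : Ex p s (fun ω => F ω + G ω) = Ex p s F + Ex p s G := by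
  unfold Ex
  rw [← Finset.sum_add_distrib]
  exact Finset.sum_congr rfl (fun ω _ => by ring)

theorem Ex_mul_left (c : ℝ) (F : (Fin s → Fin n) → ℝ) : Ex p s (fun ω => c * F ω) = c * Ex p s F := by
  unfold Ex
  rw [Finset.mul_sum]
  exact Finset.sum_congr rfl (fun ω _ => by ring)

theorem Ex_mono (hp : IsDist p) {F G : (Fin s → Fin n) → ℝ} (h : ∀ ω, F ω ≤ G ω) : Ex p s F ≤ Ex p s G := by
  unfold Ex
  exact Finset.sum_le_sum (fun ω _ => mul_le_mul_of_nonneg_left (h ω) (Finset.prod_nonneg (fun a _ => hp.1 _)))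

theorem Ex_nonneg (hp : IsDist p) {F : (Fin s → Fin n) → ℝ} (h : ∀ ω, 0 ≤ F ω) : 0 ≤ Ex p s F := by
  unfold Ex
  exact Finset.sum_nonneg (fun ω _ => mul_nonneg (Finset.prod_nonneg (fun a _ => hp.1 _)) (h ω))

theorem Ex_sum {ι : Type} (S : Finset ι) (F : ι → (Fin s → Fin n) → ℝ) :
    Ex p s (fun ω => ∑ i ∈ S, F i ω) = ∑ i ∈ S, Ex p s (F i) := by
  unfold Ex
  rw [Finset.sum_comm]
  exact Finset.sum_congr rfl (fun ω _ => by rw [Finset.mul_sum])

theorem Ex_prod_gen (g : Fin s → Fin n → ℝ) :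
    Ex p s (fun ω => ∏ a, g a (ω a)) = ∏ a, ∑ i, p i * g a i := by
  unfold Ex
  rw [Finset.prod_univ_sum, Fintype.piFinset_univ]
  exact Finset.sum_congr rfl (fun ω _ => by rw [Finset.prod_mul_distrib])

theorem Ex_prod (g : Fin n → ℝ) : Ex p s (fun ω => ∏ a, g (ω a)) = (∑ i, p i * g i) ^ s := by
  rw [Ex_prod_gen (fun _ => g)]
  simp

theorem Pr_nonneg (hp : IsDist p) (P : (Fin s → Fin n) → Prop) : 0 ≤ Pr p s P := by
  unfold Pr
  apply Ex_nonneg hp
  intro ω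
  split_ifs <;> norm_num

theorem Pr_mono (hp : IsDist p) {P Q : (Fin s → Fin n) → Prop} (h : ∀ ω, P ω → Q ω) : Pr p s P ≤ Pr p s Q := by
  unfold Pr
  apply Ex_mono hp
  intro ω
  by_cases hP : P ω
  · simp [hP, h ω hP]
  · by_cases hQ : Q ω <;> simp [hP, hQ]

theorem Pr_le_one (hp : IsDist p) (P : (Fin s → Fin n) → Prop) : Pr p s P ≤ 1 := by
  calc Pr p s P ≤ Ex p s (fun _ => 1) := by
        unfold Pr
        apply Ex_mono hp
        intro ω
        split_ifs <;> norm_num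
    _ = 1 := Ex_const hp 1

theorem Pr_compl (hp : IsDist p) (P : (Fin s → Fin n) → Prop) : Pr p s (fun ω => ¬ P ω) = 1 - Pr p s P := by
  have h : Pr p s (fun ω => ¬ P ω) + Pr p s P = 1 := by
    unfold Pr
    rw [← Ex_add]
    refine Eq.trans ?_ (Ex_const (s := s) hp 1)
    congr 1
    funext ω
    by_cases hP : P ω <;> simp [hP]
  linarith

theorem Pr_or (hp : IsDist p) (P Q : (Fin s → Fin n) → Prop) :
    Pr p s (fun ω => P ω ∨ Q ω) ≤ Pr p s P + Pr p s Q := by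
  unfold Pr
  rw [← Ex_add]
  apply Ex_mono hp
  intro ω
  by_cases hP : P ω <;> by_cases hQ : Q ω <;> simp [hP, hQ]

theorem Pr_union (hp : IsDist p) {ι : Type} (S : Finset ι) (P : ι → (Fin s → Fin n) → Prop) :
    Pr p s (fun ω => ∃ i ∈ S, P i ω) ≤ ∑ i ∈ S, Pr p s (P i) := by
  classical
  unfold Pr
  rw [← Ex_sum]
  apply Ex_mono hp
  intro ω
  have hnn : ∀ i ∈ S, (0 : ℝ) ≤ (if P i ω then (1 : ℝ) else 0) := by
    intro i _
    split_ifs <;> norm_num
  by_cases h : ∃ i ∈ S, P i ω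
  · obtain ⟨i, hi, hPi⟩ := h
    have h1 : (if P i ω then (1 : ℝ) else 0) ≤ ∑ i ∈ S, (if P i ω then (1 : ℝ) else 0) :=
      Finset.single_le_sum (f := fun i => (if P i ω then (1 : ℝ) else 0)) hnn hi
    have h2 : ∃ i ∈ S, P i ω := ⟨i, hi, hPi⟩
    simp only [h2, if_true]
    simpa [hPi] using h1
  · simp only [h, if_false]
    exact Finset.sum_nonneg hnn

theorem markov (hp : IsDist p) {F : (Fin s → Fin n) → ℝ} (hF : ∀ ω, 0 ≤ F ω) {t : ℝ} (ht : 0 < t) :
    Pr p s (fun ω => t ≤ F ω) ≤ Ex p s F / t := by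
  rw [le_div_iff₀ ht, mul_comm]
  unfold Pr
  rw [← Ex_mul_left]
  apply Ex_mono hp
  intro ω
  by_cases h : t ≤ F ω
  · simp [h]
  · simp [h, hF ω]

theorem chebyshev (hp : IsDist p) {F : (Fin s → Fin n) → ℝ} {a t : ℝ} (ht : 0 < t) :
    Pr p s (fun ω => t ≤ |F ω - a|) ≤ Ex p s (fun ω => (F ω - a) ^ 2) / t ^ 2 := by
  refine le_trans (Pr_mono hp ?_) (markov hp (F := fun ω => (F ω - a) ^ 2) (fun ω => sq_nonneg _)
    (by positivity : 0 < t ^ 2))
  intro ω h
  rw [← sq_abs (F ω - a)]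
  exact pow_le_pow_left₀ ht.le h 2

/-- two independent batches of samples -/
theorem Ex_append {s₁ s₂ : ℕ} (F : (Fin s₁ → Fin n) → (Fin s₂ → Fin n) → ℝ) :
    Ex p (s₁ + s₂) (fun ω => F (fun a => ω (Fin.castAdd s₂ a)) (fun b => ω (Fin.natAdd s₁ b))) =
      Ex p s₁ (fun ω₁ => Ex p s₂ (fun ω₂ => F ω₁ ω₂)) := by
  unfold Ex
  rw [← (Fin.appendEquiv s₁ s₂ (α := Fin n)).sum_comp, Fintype.sum_prod_type]
  apply Finset.sum_congr rfl
  intro ω₁ _
  rw [Finset.mul_sum]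
  apply Finset.sum_congr rfl
  intro ω₂ _
  rw [Fin.prod_univ_add]
  simp only [Fin.appendEquiv, Equiv.coe_fn_mk, Fin.append_left, Fin.append_right]
  ring

theorem Ex_push {m : ℕ} (f : Fin n → Fin m) (F : (Fin s → Fin m) → ℝ) :
    Ex p s (fun ω => F (fun a => f (ω a))) = Ex (push f p) s F := by
  classical
  unfold Ex
  have h1 : ∀ τ : Fin s → Fin m, ∏ a, push f p (τ a) =
      ∑ ω : Fin s → Fin n with (fun a => f (ω a)) = τ, ∏ a, p (ω a) := by
    intro τ
    unfold push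
    rw [Finset.prod_univ_sum]
    apply Finset.sum_congr _ (fun _ _ => rfl)
    ext ω
    simp only [Fintype.mem_piFinset, Finset.mem_filter, Finset.mem_univ, true_and]
    constructor
    · intro h
      funext a
      exact h a
    · intro h a
      exact congrFun h a
  have h2 : ∀ τ : Fin s → Fin m, (∏ a, push f p (τ a)) * F τ =
      ∑ ω : Fin s → Fin n with (fun a => f (ω a)) = τ, (∏ a, p (ω a)) * F (fun a => f (ω a)) := by
    intro τ
    rw [h1, Finset.sum_mul]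
    apply Finset.sum_congr rfl
    intro ω hω
    rw [(Finset.mem_filter.mp hω).2]
  rw [Finset.sum_congr rfl (fun τ _ => h2 τ)]
  exact (Finset.sum_fiberwise _ _ _).symm

theorem push_dist {m : ℕ} (hp : IsDist p) (f : Fin n → Fin m) : IsDist (push f p) := by
  constructor
  · intro j
    exact Finset.sum_nonneg (fun i _ => hp.1 i)
  · unfold push
    rw [Finset.sum_fiberwise]
    exact hp.2

end Prob

end Pool.Agent.BinUp
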