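import Pool.Agent.BinUp.StatVar

/-! MP_f7f4e7_lc, upper bound, module Stage2. -/

namespace Pool.Agent.BinUp

open Finset Pool.Agent.Binning

theorem Stage2_m_pos {m : ℕ} {q : Fin m → ℝ} (hq : IsDist q) : (1 : ℝ) ≤ √m := by
  rcases Nat.eq_zero_or_pos m with h | h
  · subst h
    have := hq.2
    simp at this
  · have h1 : (1 : ℝ) ≤ m := by exact_mod_cast h
    exact Real.one_le_sqrt.mpr h1

theorem Stage2_cheb {m s : ℕ} {q p' : Fin m → ℝ} (hq : IsDist q) (hp : IsDist p')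
    {P : (Fin s → Fin m) → Prop} {t : ℝ} (ht : 0 < t)
    (hP : ∀ ω, P ω → t ≤ |Tst q ω - s * (s - 1) * chi q p'|)
    (hV : 8 * (s : ℝ) ^ 3 * (chi q p' + √m * (chi q p' * √(chi q p')))
      + 16 * s ^ 2 * m * (1 + chi q p') ≤ 1 / 6 * t ^ 2) :
    Pr p' s P ≤ 1 / 6 := by
  refine (Pr_mono hp hP).trans ?_
  refine (chebyshev hp ht).trans ?_
  have ht2 : 0 < t ^ 2 := by positivity
  rw [div_le_iff₀ ht2]
  exact (Tst_var hq hp).trans hV

theorem Stage2_s_bound {s : ℕ} {M ε : ℝ} (hM : 1 ≤ M) (hε : 0 < ε) (hε1 : ε ≤ 1)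
    (hs : 4000 * M / ε ^ 2 ≤ s) : 4000 * M ≤ s * ε ^ 2 ∧ (4000 : ℝ) ≤ s := by
  have hε2 : 0 < ε ^ 2 := by positivity
  have h1 : 4000 * M ≤ s * ε ^ 2 := (div_le_iff₀ hε2).mp hs
  refine ⟨h1, ?_⟩
  have h2 : ε ^ 2 ≤ 1 := by nlinarith
  have h3 : (0 : ℝ) ≤ s := Nat.cast_nonneg s
  nlinarith

theorem stage2_yes {m s : ℕ} {q p' : Fin m → ℝ} (hq : IsDist q) (hp : IsDist p') {ε : ℝ} (hε : 0 < ε)
    (hε1 : ε ≤ 1) (hs : 4000 * √m / ε ^ 2 ≤ s) (hD : chi q p' ≤ ε ^ 2 / 10) :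
    Pr p' s (fun ω => ¬ (Tst q ω ≤ s * (s - 1) * (ε ^ 2 / 2))) ≤ 1 / 6 := by
  have hM := Stage2_m_pos hq
  obtain ⟨hX, hS⟩ := Stage2_s_bound hM hε hε1 hs
  have hD0 : 0 ≤ chi q p' := by
    have := chi_ge hq p'
    exact le_trans (by positivity) this
  have hmM : (m : ℝ) = √m * √m := (Real.mul_self_sqrt (Nat.cast_nonneg m)).symm
  have hε2 : 0 < ε ^ 2 := by positivity
  have hs1 : (0 : ℝ) < (s : ℝ) * (s - 1) := by
    apply mul_pos <;> linarith
  have ht : 0 < (s : ℝ) * (s - 1) * (2 / 5 * ε ^ 2) := by positivity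
  refine Stage2_cheb hq hp ht ?_ ?_
  · intro ω hω
    have h1 : (s : ℝ) * (s - 1) * (ε ^ 2 / 2) < Tst q ω := not_le.mp hω
    have h2 : (s : ℝ) * (s - 1) * chi q p' ≤ s * (s - 1) * (ε ^ 2 / 10) :=
      mul_le_mul_of_nonneg_left hD hs1.le
    refine le_trans ?_ (le_abs_self _)
    nlinarith
  · generalize hDD : chi q p' = D at *
    generalize hMM : √(m : ℝ) = M at *
    generalize (s : ℝ) = S at *
    rw [hmM]
    have ha0 : 0 ≤ √D := Real.sqrt_nonneg D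
    have ha2 : √D * √D = D := Real.mul_self_sqrt hD0
    have ha1 : √D ≤ 1 := by
      rw [Real.sqrt_le_left (by norm_num)]
      nlinarith
    have hD1 : D ≤ 1 := by nlinarith
    -- the three terms
    have hS0 : 0 < S := by linarith
    have hX0 : 0 < S * ε ^ 2 := by positivity
    have e1 : S * D ≤ S * ε ^ 2 / 10 := by
      have := mul_le_mul_of_nonneg_left hD hS0.le
      linarith
    have e2 : S * (M * (D * √D)) ≤ M * (S * ε ^ 2 / 10) := by
      have h1 : D * √D ≤ D := by nlinarith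
      have h2 : M * (S * (D * √D)) ≤ M * (S * D) :=
        mul_le_mul_of_nonneg_left (mul_le_mul_of_nonneg_left h1 hS0.le) (by linarith)
      have h3 : M * (S * D) ≤ M * (S * ε ^ 2 / 10) :=
        mul_le_mul_of_nonneg_left e1 (by linarith)
      calc S * (M * (D * √D)) = M * (S * (D * √D)) := by ring
        _ ≤ _ := h2.trans h3
    have e3 : M * M * (1 + D) ≤ M * M * 2 :=
      mul_le_mul_of_nonneg_left (by linarith) (by positivity)
    have f1 : M * (S * ε ^ 2) ≤ (S * ε ^ 2) ^ 2 / 4000 := by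
      have := mul_le_mul_of_nonneg_right hX hX0.le
      nlinarith
    have f2 : S * ε ^ 2 ≤ M * (S * ε ^ 2) := by nlinarith
    have f3 : M * M ≤ (S * ε ^ 2) ^ 2 / 16000000 := by
      have h4 : (4000 * M) * (4000 * M) ≤ (S * ε ^ 2) * (S * ε ^ 2) :=
        mul_le_mul hX hX (by linarith) hX0.le
      nlinarith
    have key : 8 * (S * D) + 8 * (S * (M * (D * √D))) + 16 * (M * M * (1 + D))
        ≤ 24 / 1000 * (S * ε ^ 2) ^ 2 := by
      have hsq : 0 ≤ (S * ε ^ 2) ^ 2 := by positivity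
      linarith
    have g1 : S ^ 2 * (8 * (S * D) + 8 * (S * (M * (D * √D))) + 16 * (M * M * (1 + D)))
        ≤ S ^ 2 * (24 / 1000 * (S * ε ^ 2) ^ 2) := mul_le_mul_of_nonneg_left key (by positivity)
    have g2 : 9 / 10 * S ^ 2 ≤ (S - 1) ^ 2 := by nlinarith
    have g3 : 24 / 1000 * (S ^ 2 * (S * ε ^ 2) ^ 2)
        ≤ 1 / 6 * ((S * (S - 1) * (2 / 5 * ε ^ 2)) ^ 2) := by
      have h5 : 9 / 10 * S ^ 2 * (S ^ 2 * ε ^ 4) ≤ (S - 1) ^ 2 * (S ^ 2 * ε ^ 4) :=
        mul_le_mul_of_nonneg_right g2 (by positivity)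
      nlinarith
    calc 8 * S ^ 3 * (D + M * (D * √D)) + 16 * S ^ 2 * (M * M) * (1 + D)
        = S ^ 2 * (8 * (S * D) + 8 * (S * (M * (D * √D))) + 16 * (M * M * (1 + D))) := by ring
      _ ≤ _ := g1
      _ = 24 / 1000 * (S ^ 2 * (S * ε ^ 2) ^ 2) := by ring
      _ ≤ _ := g3

theorem stage2_far {m s : ℕ} {q p' : Fin m → ℝ} (hq : IsDist q) (hp : IsDist p') {ε : ℝ} (hε : 0 < ε)
    (hε1 : ε ≤ 1) (hs : 4000 * √m / ε ^ 2 ≤ s) (hD : ε < tv p' q) :
    Pr p' s (fun ω => Tst q ω ≤ s * (s - 1) * (ε ^ 2 / 2)) ≤ 1 / 6 := by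
  have hM := Stage2_m_pos hq
  obtain ⟨hX, hS⟩ := Stage2_s_bound hM hε hε1 hs
  have hmM : (m : ℝ) = √m * √m := (Real.mul_self_sqrt (Nat.cast_nonneg m)).symm
  have hε2 : 0 < ε ^ 2 := by positivity
  have hDε : 4 / 3 * ε ^ 2 ≤ chi q p' := by
    have h1 := chi_ge hq p'
    have h2 : ε ^ 2 ≤ tv p' q ^ 2 := by nlinarith
    nlinarith
  have hD0 : 0 < chi q p' := by nlinarith
  have hs1 : (0 : ℝ) < (s : ℝ) * (s - 1) := by
    apply mul_pos <;> linarith
  have ht : 0 < (s : ℝ) * (s - 1) * (5 / 8 * chi q p') := by positivity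
  refine Stage2_cheb hq hp ht ?_ ?_
  · intro ω hω
    have h2 : (s : ℝ) * (s - 1) * (4 / 3 * ε ^ 2) ≤ s * (s - 1) * chi q p' :=
      mul_le_mul_of_nonneg_left hDε hs1.le
    rw [abs_sub_comm]
    refine le_trans ?_ (le_abs_self _)
    nlinarith
  · generalize hDD : chi q p' = D at *
    generalize hMM : √(m : ℝ) = M at *
    generalize (s : ℝ) = S at *
    rw [hmM]
    have ha0 : 0 ≤ √D := Real.sqrt_nonneg D
    have ha2 : √D * √D = D := Real.mul_self_sqrt hD0.le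
    have hS0 : 0 < S := by linarith
    have haε : ε ≤ √D := by
      apply Real.le_sqrt_of_sq_le
      nlinarith
    generalize √D = a at *
    subst ha2
    have hM0 : 0 < M := by linarith
    have ha : 0 < a := lt_of_lt_of_le hε haε
    have hY : S * ε ^ 2 ≤ S * (a * a) := by
      apply mul_le_mul_of_nonneg_left _ hS0.le
      nlinarith
    have hYM : 4000 * M ≤ S * (a * a) := hX.trans hY
    have hY0 : 0 < S * (a * a) := by positivity
    have hYMa : 4000 * (M * a) ≤ S * (a * a) := by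
      have h1 : 4000 * M ≤ S * a := by
        refine hX.trans (mul_le_mul_of_nonneg_left ?_ hS0.le)
        nlinarith
      nlinarith [mul_le_mul_of_nonneg_right h1 ha.le]
    have key : 8 * (S * (a * a)) + 8 * ((S * (a * a)) * (M * a)) + 16 * (M * M) + 16 * ((M * a) * (M * a))
        ≤ 5 / 100 * (S * (a * a)) ^ 2 := by
      have k1 : (S * (a * a)) * 4000 ≤ (S * (a * a)) ^ 2 := by
        have : 4000 ≤ S * (a * a) := by linarith
        nlinarith
      have k2 : (S * (a * a)) * (4000 * (M * a)) ≤ (S * (a * a)) * (S * (a * a)) :=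
        mul_le_mul_of_nonneg_left hYMa hY0.le
      have k3 : (4000 * M) * (4000 * M) ≤ (S * (a * a)) * (S * (a * a)) :=
        mul_le_mul hYM hYM (by positivity) hY0.le
      have k4 : (4000 * (M * a)) * (4000 * (M * a)) ≤ (S * (a * a)) * (S * (a * a)) :=
        mul_le_mul hYMa hYMa (by positivity) hY0.le
      nlinarith
    have g1 := mul_le_mul_of_nonneg_left key (show 0 ≤ S ^ 2 by positivity)
    have g2 : 9 / 10 * S ^ 2 ≤ (S - 1) ^ 2 := by nlinarith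
    have g3 : 5 / 100 * (S ^ 2 * (S * (a * a)) ^ 2)
        ≤ 1 / 6 * ((S * (S - 1) * (5 / 8 * (a * a))) ^ 2) := by
      have h5 : 9 / 10 * S ^ 2 * (S ^ 2 * a ^ 4) ≤ (S - 1) ^ 2 * (S ^ 2 * a ^ 4) :=
        mul_le_mul_of_nonneg_right g2 (by positivity)
      have h6 : 0 ≤ S ^ 2 * (S ^ 2 * a ^ 4) := by positivity
      have e1 : (S ^ 2 * (S * (a * a)) ^ 2) = S ^ 2 * (S ^ 2 * a ^ 4) := by ring
      have e2 : ((S * (S - 1) * (5 / 8 * (a * a))) ^ 2) = 25 / 64 * ((S - 1) ^ 2 * (S ^ 2 * a ^ 4)) := by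
        ring
      rw [e1, e2]
      linarith
    calc 8 * S ^ 3 * (a * a + M * (a * a * a)) + 16 * S ^ 2 * (M * M) * (1 + a * a)
        = S ^ 2 * (8 * (S * (a * a)) + 8 * ((S * (a * a)) * (M * a)) + 16 * (M * M)
          + 16 * ((M * a) * (M * a))) := by ring
      _ ≤ _ := g1
      _ = 5 / 100 * (S ^ 2 * (S * (a * a)) ^ 2) := by ring
      _ ≤ _ := g3

end Pool.Agent.BinUp
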