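import Pool.Agent.BinUp.UStat
import Pool.Agent.BinUp.Wt

/-! MP_f7f4e7_lc, upper bound, module StatVar. -/

namespace Pool.Agent.BinUp

open Finset Pool.Agent.Binning

/-- the indicator of `x = j` -/
noncomputable def StatVar_io {m : ℕ} (x j : Fin m) : ℝ := if x = j then 1 else 0

theorem StatVar_cnt {m s : ℕ} (ω : Fin s → Fin m) (j : Fin m) :
    (cnt ω j : ℝ) = ∑ a, StatVar_io (ω a) j := by
  unfold cnt StatVar_io
  rw [Finset.sum_boole]

theorem StatVar_io_sq {m : ℕ} (x j : Fin m) : StatVar_io x j ^ 2 = StatVar_io x j := by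
  unfold StatVar_io
  split_ifs <;> norm_num

/-- `∑ x, p' x * 1[x = j] = p' j` -/
theorem StatVar_sum_io {m : ℕ} (p' : Fin m → ℝ) (j : Fin m) :
    ∑ x, p' x * StatVar_io x j = p' j := by
  unfold StatVar_io
  simp

/-- `∑ j, 1[x = j] * f j = f x` -/
theorem StatVar_io_sum {m : ℕ} (f : Fin m → ℝ) (x : Fin m) :
    ∑ j, StatVar_io x j * f j = f x := by
  unfold StatVar_io
  simp

noncomputable def StatVar_g {m : ℕ} (q p' : Fin m → ℝ) (x : Fin m) : ℝ :=
  ∑ j, (StatVar_io x j - p' j) * ((p' j - q j) / wt q j)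

noncomputable def StatVar_r {m : ℕ} (q p' : Fin m → ℝ) (x y : Fin m) : ℝ :=
  ∑ j, (StatVar_io x j - p' j) * (StatVar_io y j - p' j) / wt q j

theorem StatVar_sumA {m s : ℕ} (p' : Fin m → ℝ) (ω : Fin s → Fin m) (j : Fin m) :
    ∑ a, (StatVar_io (ω a) j - p' j) = cnt ω j - s * p' j := by
  rw [Finset.sum_sub_distrib, ← StatVar_cnt, Finset.sum_const, card_univ, Fintype.card_fin,
    nsmul_eq_mul]

theorem StatVar_sumA2 {m s : ℕ} (p' : Fin m → ℝ) (ω : Fin s → Fin m) (j : Fin m) :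
    ∑ a, (StatVar_io (ω a) j - p' j) ^ 2 = cnt ω j - 2 * p' j * cnt ω j + s * p' j ^ 2 := by
  have : ∀ a, (StatVar_io (ω a) j - p' j) ^ 2 =
      StatVar_io (ω a) j - 2 * p' j * StatVar_io (ω a) j + p' j ^ 2 := by
    intro a
    have := StatVar_io_sq (ω a) j
    nlinarith
  simp only [this]
  rw [Finset.sum_add_distrib, Finset.sum_sub_distrib, ← Finset.mul_sum, ← StatVar_cnt,
    Finset.sum_const, card_univ, Fintype.card_fin, nsmul_eq_mul]

theorem StatVar_decomp {m s : ℕ} {q p' : Fin m → ℝ} (hq : IsDist q) (ω : Fin s → Fin m) :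
    Tst q ω - s * (s - 1) * chi q p' =
      2 * (s - 1) * (∑ a, StatVar_g q p' (ω a)) +
        ∑ a, ∑ b ∈ univ.erase a, StatVar_r q p' (ω a) (ω b) := by
  have hg : ∑ a, StatVar_g q p' (ω a) =
      ∑ j, (cnt ω j - s * p' j) * ((p' j - q j) / wt q j) := by
    unfold StatVar_g
    rw [Finset.sum_comm]
    apply Finset.sum_congr rfl
    intro j _
    rw [← Finset.sum_mul, StatVar_sumA]
  have hr : ∑ a, ∑ b ∈ univ.erase a, StatVar_r q p' (ω a) (ω b) =
      ∑ j, ((cnt ω j - s * p' j) ^ 2 - (cnt ω j - 2 * p' j * cnt ω j + s * p' j ^ 2)) / wt q j := by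
    have h1 : ∀ a, ∑ b ∈ univ.erase a, StatVar_r q p' (ω a) (ω b) =
        ∑ j, ((StatVar_io (ω a) j - p' j) * (cnt ω j - s * p' j) -
          (StatVar_io (ω a) j - p' j) ^ 2) / wt q j := by
      intro a
      unfold StatVar_r
      rw [Finset.sum_comm]
      apply Finset.sum_congr rfl
      intro j _
      have h2 : ∑ b ∈ univ.erase a, (StatVar_io (ω b) j - p' j) =
          (cnt ω j - s * p' j) - (StatVar_io (ω a) j - p' j) := by
        rw [← StatVar_sumA, ← Finset.sum_erase_add univ _ (mem_univ a)]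
        ring
      rw [← Finset.sum_div, ← Finset.mul_sum, h2]
      ring
    simp only [h1]
    rw [Finset.sum_comm]
    apply Finset.sum_congr rfl
    intro j _
    rw [← Finset.sum_div, Finset.sum_sub_distrib, ← Finset.sum_mul, StatVar_sumA, StatVar_sumA2]
    ring
  rw [hg, hr]
  unfold Tst chi
  rw [Finset.mul_sum, Finset.mul_sum, ← Finset.sum_sub_distrib, ← Finset.sum_add_distrib]
  apply Finset.sum_congr rfl
  intro j _
  have hw := (wt_pos hq j).ne'
  field_simp
  ring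

theorem StatVar_g0 {m : ℕ} {q p' : Fin m → ℝ} (hp : IsDist p') :
    ∑ x, p' x * StatVar_g q p' x = 0 := by
  unfold StatVar_g
  simp only [Finset.mul_sum]
  rw [Finset.sum_comm]
  apply Finset.sum_eq_zero
  intro j _
  have : ∀ x, p' x * ((StatVar_io x j - p' j) * ((p' j - q j) / wt q j)) =
      (p' x * StatVar_io x j - p' x * p' j) * ((p' j - q j) / wt q j) := by
    intro x; ring
  simp only [this]
  rw [← Finset.sum_mul, Finset.sum_sub_distrib, StatVar_sum_io, ← Finset.sum_mul, hp.2]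
  ring

theorem StatVar_rsymm {m : ℕ} {q p' : Fin m → ℝ} (x y : Fin m) :
    StatVar_r q p' x y = StatVar_r q p' y x := by
  unfold StatVar_r
  apply Finset.sum_congr rfl
  intro j _
  ring

theorem StatVar_r0 {m : ℕ} {q p' : Fin m → ℝ} (hp : IsDist p') (x : Fin m) :
    ∑ y, p' y * StatVar_r q p' x y = 0 := by
  unfold StatVar_r
  simp only [Finset.mul_sum]
  rw [Finset.sum_comm]
  apply Finset.sum_eq_zero
  intro j _
  have : ∀ y, p' y * ((StatVar_io x j - p' j) * (StatVar_io y j - p' j) / wt q j) =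
      (p' y * StatVar_io y j - p' y * p' j) * ((StatVar_io x j - p' j) / wt q j) := by
    intro y; ring
  simp only [this]
  rw [← Finset.sum_mul, Finset.sum_sub_distrib, StatVar_sum_io, ← Finset.sum_mul, hp.2]
  ring

theorem StatVar_g_eq {m : ℕ} {q p' : Fin m → ℝ} (x : Fin m) :
    StatVar_g q p' x = (p' x - q x) / wt q x - ∑ j, p' j * ((p' j - q j) / wt q j) := by
  unfold StatVar_g
  simp only [sub_mul]
  rw [Finset.sum_sub_distrib, StatVar_io_sum]

theorem StatVar_g2 {m : ℕ} {q p' : Fin m → ℝ} (hp : IsDist p') :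
    ∑ x, p' x * StatVar_g q p' x ^ 2 ≤ ∑ x, p' x * ((p' x - q x) / wt q x) ^ 2 := by
  set G := ∑ j, p' j * ((p' j - q j) / wt q j) with hG
  have h1 : ∀ x, p' x * StatVar_g q p' x ^ 2 =
      p' x * ((p' x - q x) / wt q x) ^ 2 - 2 * G * (p' x * ((p' x - q x) / wt q x)) +
        G ^ 2 * p' x := by
    intro x
    rw [StatVar_g_eq x, ← hG]
    ring
  simp only [h1]
  rw [Finset.sum_add_distrib, Finset.sum_sub_distrib, ← Finset.mul_sum, ← Finset.mul_sum, hp.2,
    ← hG]
  nlinarith [sq_nonneg G]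

theorem StatVar_g3 {m : ℕ} {q p' : Fin m → ℝ} (hq : IsDist q) (hp : IsDist p') :
    ∑ x, p' x * ((p' x - q x) / wt q x) ^ 2 ≤
      chi q p' + √m * (chi q p' * √(chi q p')) := by
  have hD0 : 0 ≤ chi q p' := by
    unfold chi
    exact Finset.sum_nonneg fun j _ => div_nonneg (sq_nonneg _) (wt_pos hq j).le
  have hle : ∀ j, (p' j - q j) ^ 2 / wt q j ≤ chi q p' := by
    intro j
    unfold chi
    exact Finset.single_le_sum (f := fun j => (p' j - q j) ^ 2 / wt q j)
      (fun j _ => div_nonneg (sq_nonneg _) (wt_pos hq j).le) (mem_univ j)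
  have hm : ∀ j : Fin m, (0 : ℝ) < m := by
    intro j
    have := j.2
    have : 0 < m := by omega
    exact_mod_cast this
  have habs : ∀ j, |p' j - q j| / wt q j ≤ √m * √(chi q p') := by
    intro j
    have hw := wt_pos hq j
    rw [← Real.sqrt_mul (hm j).le]
    apply Real.le_sqrt_of_sq_le
    rw [div_pow, sq_abs]
    have h1 : (p' j - q j) ^ 2 / wt q j ^ 2 = ((p' j - q j) ^ 2 / wt q j) * (1 / wt q j) := by
      field_simp
    rw [h1, mul_comm (m : ℝ)]
    apply mul_le_mul (hle j) _ (by positivity) hD0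
    have h2 := inv_le_wt hq j
    rw [div_le_iff₀ hw]
    have h3 : (1 : ℝ) = m * (1 / m) := by
      field_simp [(hm j).ne']
    calc (1 : ℝ) = m * (1 / m) := h3
      _ ≤ m * wt q j := mul_le_mul_of_nonneg_left h2 (hm j).le
  have hterm : ∀ j, p' j * ((p' j - q j) / wt q j) ^ 2 ≤
      (p' j - q j) ^ 2 / wt q j * (1 + √m * √(chi q p')) := by
    intro j
    have hw := wt_pos hq j
    have h1 : p' j ≤ wt q j + |p' j - q j| := by
      have := le_abs_self (p' j - q j)
      have := q_le_wt hq j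
      linarith
    have h2 : p' j * ((p' j - q j) / wt q j) ^ 2 = (p' j - q j) ^ 2 / wt q j * (p' j / wt q j) := by
      field_simp
    rw [h2]
    apply mul_le_mul_of_nonneg_left _ (div_nonneg (sq_nonneg _) hw.le)
    calc p' j / wt q j ≤ (wt q j + |p' j - q j|) / wt q j := by
          exact div_le_div_of_nonneg_right h1 hw.le
      _ = 1 + |p' j - q j| / wt q j := by
          field_simp
      _ ≤ 1 + √m * √(chi q p') := by
          have := habs j
          linarith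
  calc ∑ x, p' x * ((p' x - q x) / wt q x) ^ 2
      ≤ ∑ j, (p' j - q j) ^ 2 / wt q j * (1 + √m * √(chi q p')) :=
        Finset.sum_le_sum fun j _ => hterm j
    _ = chi q p' * (1 + √m * √(chi q p')) := by
        rw [← Finset.sum_mul]
        rfl
    _ = chi q p' + √m * (chi q p' * √(chi q p')) := by ring

theorem StatVar_r_eq {m : ℕ} {q p' : Fin m → ℝ} (x y : Fin m) :
    StatVar_r q p' x y = StatVar_io x y / wt q x - p' x / wt q x - p' y / wt q y +
      ∑ j, p' j * (p' j / wt q j) := by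
  unfold StatVar_r
  have h1 : ∀ j, (StatVar_io x j - p' j) * (StatVar_io y j - p' j) / wt q j =
      StatVar_io x j * (StatVar_io y j / wt q j) - StatVar_io x j * (p' j / wt q j) -
        StatVar_io y j * (p' j / wt q j) + p' j * (p' j / wt q j) := by
    intro j
    ring
  simp only [h1]
  rw [Finset.sum_add_distrib, Finset.sum_sub_distrib, Finset.sum_sub_distrib,
    StatVar_io_sum (fun j => StatVar_io y j / wt q j), StatVar_io_sum (fun j => p' j / wt q j),
    StatVar_io_sum (fun j => p' j / wt q j)]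
  have : StatVar_io y x = StatVar_io x y := by
    unfold StatVar_io
    simp only [eq_comm]
  rw [this]

theorem StatVar_r2 {m : ℕ} {q p' : Fin m → ℝ} (hp : IsDist p') :
    ∑ x, ∑ y, p' x * p' y * StatVar_r q p' x y ^ 2 ≤ ∑ x, (p' x / wt q x) ^ 2 := by
  set u : Fin m → ℝ := fun x => p' x / wt q x with hu
  set c := ∑ j, p' j * u j with hc
  set M := ∑ j, p' j * u j ^ 2 with hM
  have hr : ∀ x y, StatVar_r q p' x y = StatVar_io x y / wt q x - u x - u y + c := by
    intro x y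
    rw [StatVar_r_eq]
  have hy : ∀ x, ∑ y, p' x * p' y * StatVar_r q p' x y ^ 2 =
      u x ^ 2 - 2 * (p' x * u x) * (2 * u x - c) +
        p' x * (u x ^ 2 + M + c ^ 2 + 2 * u x * c - 2 * c * u x - 2 * c * c) := by
    intro x
    have h1 : ∀ y, p' x * p' y * StatVar_r q p' x y ^ 2 =
        StatVar_io x y * (p' x * p' y / wt q x ^ 2 -
          2 * (p' x * p' y / wt q x) * (u x + u y - c)) +
        p' x * (p' y * (u x ^ 2 + c ^ 2 - 2 * c * u x) + p' y * u y ^ 2 +
          (p' y * u y) * (2 * u x - 2 * c)) := by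
      intro y
      rw [hr]
      have h2 := StatVar_io_sq x y
      have h3 : (StatVar_io x y / wt q x - u x - u y + c) ^ 2 =
          StatVar_io x y ^ 2 / wt q x ^ 2 - 2 * (StatVar_io x y / wt q x) * (u x + u y - c) +
            (u x + u y - c) ^ 2 := by
        ring
      rw [h3, h2]
      ring
    simp only [h1]
    rw [Finset.sum_add_distrib, StatVar_io_sum, ← Finset.mul_sum, Finset.sum_add_distrib,
      Finset.sum_add_distrib, ← Finset.sum_mul, ← Finset.sum_mul, hp.2, ← hM, ← hc]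
    have h4 : p' x * p' x / wt q x ^ 2 = u x ^ 2 := by
      simp only [hu]
      rw [div_pow]
      ring
    have h5 : p' x * p' x / wt q x = p' x * u x := by
      simp only [hu]
      ring
    rw [h4, h5]
    ring
  simp only [hy]
  have hsum : ∑ x, (u x ^ 2 - 2 * (p' x * u x) * (2 * u x - c) +
        p' x * (u x ^ 2 + M + c ^ 2 + 2 * u x * c - 2 * c * u x - 2 * c * c)) =
      ∑ x, u x ^ 2 - 2 * M + c ^ 2 := by
    have h6 : ∀ x, (u x ^ 2 - 2 * (p' x * u x) * (2 * u x - c) +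
        p' x * (u x ^ 2 + M + c ^ 2 + 2 * u x * c - 2 * c * u x - 2 * c * c)) =
        u x ^ 2 - 3 * (p' x * u x ^ 2) + 2 * c * (p' x * u x) +
          (M + c ^ 2 - 2 * c * c) * p' x := by
      intro x
      ring
    simp only [h6]
    rw [Finset.sum_add_distrib, Finset.sum_add_distrib, Finset.sum_sub_distrib, ← Finset.mul_sum,
      ← Finset.mul_sum, ← Finset.mul_sum, hp.2, ← hM, ← hc]
    ring
  rw [hsum]
  have hcs : c ^ 2 ≤ M := by
    have h7 : 0 ≤ ∑ j, p' j * (u j - c) ^ 2 :=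
      Finset.sum_nonneg fun j _ => mul_nonneg (hp.1 j) (sq_nonneg _)
    have h8 : ∑ j, p' j * (u j - c) ^ 2 = M - c ^ 2 := by
      have h9 : ∀ j, p' j * (u j - c) ^ 2 = p' j * u j ^ 2 - 2 * c * (p' j * u j) + c ^ 2 * p' j := by
        intro j
        ring
      simp only [h9]
      rw [Finset.sum_add_distrib, Finset.sum_sub_distrib, ← Finset.mul_sum, ← Finset.mul_sum, hp.2,
        ← hM, ← hc]
      ring
    linarith
  have hM0 : 0 ≤ M := Finset.sum_nonneg fun j _ => mul_nonneg (hp.1 j) (sq_nonneg _)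
  linarith

theorem StatVar_r3 {m : ℕ} {q p' : Fin m → ℝ} (hq : IsDist q) :
    ∑ x, (p' x / wt q x) ^ 2 ≤ 2 * m * (1 + chi q p') := by
  have hterm : ∀ x : Fin m, (p' x / wt q x) ^ 2 ≤
      2 + 2 * m * ((p' x - q x) ^ 2 / wt q x) := by
    intro x
    have hw := wt_pos hq x
    have hm : (0 : ℝ) < m := by
      have := x.2
      have : 0 < m := by omega
      exact_mod_cast this
    have h1 : p' x / wt q x = q x / wt q x + (p' x - q x) / wt q x := by
      rw [← add_div]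
      congr 1
      ring
    have h2 : 0 ≤ q x / wt q x := div_nonneg (hq.1 x) hw.le
    have h3 : q x / wt q x ≤ 1 := by
      rw [div_le_one hw]
      exact q_le_wt hq x
    have h4 : ((p' x - q x) / wt q x) ^ 2 ≤ m * ((p' x - q x) ^ 2 / wt q x) := by
      have h5 : ((p' x - q x) / wt q x) ^ 2 = (1 / wt q x) * ((p' x - q x) ^ 2 / wt q x) := by
        field_simp
      rw [h5]
      apply mul_le_mul_of_nonneg_right _ (div_nonneg (sq_nonneg _) hw.le)
      rw [div_le_iff₀ hw]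
      have h6 := inv_le_wt hq x
      have h7 : (1 : ℝ) = m * (1 / m) := by
        field_simp [hm.ne']
      calc (1 : ℝ) = m * (1 / m) := h7
        _ ≤ m * wt q x := mul_le_mul_of_nonneg_left h6 hm.le
    rw [h1]
    have h8 : (q x / wt q x + (p' x - q x) / wt q x) ^ 2 ≤
        2 * (q x / wt q x) ^ 2 + 2 * ((p' x - q x) / wt q x) ^ 2 := by
      nlinarith [sq_nonneg (q x / wt q x - (p' x - q x) / wt q x)]
    have h9 : (q x / wt q x) ^ 2 ≤ 1 := by
      nlinarith
    nlinarith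
  calc ∑ x, (p' x / wt q x) ^ 2 ≤ ∑ x : Fin m, (2 + 2 * m * ((p' x - q x) ^ 2 / wt q x)) :=
        Finset.sum_le_sum fun x _ => hterm x
    _ = 2 * m * (1 + chi q p') := by
        rw [Finset.sum_add_distrib, ← Finset.mul_sum, Finset.sum_const, card_univ,
          Fintype.card_fin, nsmul_eq_mul]
        unfold chi
        ring

/-- With `h(x,y) = ∑ j (1[x=j]-q j)(1[y=j]-q j)/w j`, `Tst = ∑_{a≠b} h(ω_a,ω_b)`, `δ = p' - q`,
`g x = δ x / w x - ∑ j p'_j δ_j / w_j`, `r(x,y) = ∑ j (1[x=j]-p'_j)(1[y=j]-p'_j)/w j`: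
`Tst - s(s-1)D = 2(s-1) ∑ g(ω_a) + ∑_{a≠b} r(ω_a,ω_b)`. `E g² ≤ ∑ p' δ²/w² ≤ D + √m D^{3/2}`,
`E r² ≤ ∑ p'²/w² + (∑ p'²/w)² ≤ 2 ∑ p'²/w² ≤ 4m(1+D)`. -/
theorem Tst_var {m s : ℕ} {q p' : Fin m → ℝ} (hq : IsDist q) (hp : IsDist p') :
    Ex p' s (fun ω => (Tst q ω - s * (s - 1) * chi q p') ^ 2) ≤
      8 * s ^ 3 * (chi q p' + √m * (chi q p' * √(chi q p'))) + 16 * s ^ 2 * m * (1 + chi q p') := by
  have hD0 : 0 ≤ chi q p' := by
    unfold chi
    exact Finset.sum_nonneg fun j _ => div_nonneg (sq_nonneg _) (wt_pos hq j).le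
  set A := ∑ x, p' x * StatVar_g q p' x ^ 2 with hA
  set B := ∑ x, ∑ y, p' x * p' y * StatVar_r q p' x y ^ 2 with hB
  have hAle : A ≤ chi q p' + √m * (chi q p' * √(chi q p')) :=
    (StatVar_g2 hp).trans (StatVar_g3 hq hp)
  have hBle : B ≤ 2 * m * (1 + chi q p') := (StatVar_r2 hp).trans (StatVar_r3 hq)
  have h1 : Ex p' s (fun ω => (Tst q ω - s * (s - 1) * chi q p') ^ 2) ≤
      Ex p' s (fun ω => (2 * (2 * ((s : ℝ) - 1)) ^ 2) * (∑ a, StatVar_g q p' (ω a)) ^ 2 +
        2 * (∑ a, ∑ b ∈ univ.erase a, StatVar_r q p' (ω a) (ω b)) ^ 2) := by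
    apply Ex_mono hp
    intro ω
    rw [StatVar_decomp hq]
    nlinarith [sq_nonneg (2 * ((s : ℝ) - 1) * (∑ a, StatVar_g q p' (ω a)) -
      ∑ a, ∑ b ∈ univ.erase a, StatVar_r q p' (ω a) (ω b))]
  have h2 : Ex p' s (fun ω => (2 * (2 * ((s : ℝ) - 1)) ^ 2) * (∑ a, StatVar_g q p' (ω a)) ^ 2 +
        2 * (∑ a, ∑ b ∈ univ.erase a, StatVar_r q p' (ω a) (ω b)) ^ 2) =
      (2 * (2 * ((s : ℝ) - 1)) ^ 2) * (s * A) + 2 * (2 * s * (s - 1) * B) := by
    rw [Ex_add, Ex_mul_left, Ex_mul_left, ust_lin hp (StatVar_g0 hp),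
      ust_deg hp StatVar_rsymm (StatVar_r0 hp)]
  rw [h2] at h1
  refine h1.trans ?_
  rcases Nat.eq_zero_or_pos s with hs | hs
  · subst hs
    simp
  · have hs1 : (1 : ℝ) ≤ s := by exact_mod_cast hs
    have hs0 : (0 : ℝ) ≤ s := by linarith
    have e1 : (2 * (2 * ((s : ℝ) - 1)) ^ 2) * (s * A) ≤ 8 * s ^ 3 * A := by
      have hA0 : 0 ≤ A := Finset.sum_nonneg fun x _ => mul_nonneg (hp.1 x) (sq_nonneg _)
      have h3 : (2 * (2 * ((s : ℝ) - 1)) ^ 2) * s ≤ 8 * s ^ 3 := by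
        have h4 : ((s : ℝ) - 1) ^ 2 ≤ s ^ 2 := by nlinarith
        nlinarith [mul_le_mul_of_nonneg_right h4 hs0]
      calc (2 * (2 * ((s : ℝ) - 1)) ^ 2) * (s * A) = ((2 * (2 * ((s : ℝ) - 1)) ^ 2) * s) * A := by ring
        _ ≤ 8 * s ^ 3 * A := mul_le_mul_of_nonneg_right h3 hA0
    have e2 : 2 * (2 * s * (s - 1) * B) ≤ 4 * s ^ 2 * B := by
      have hB0 : 0 ≤ B := Finset.sum_nonneg fun x _ => Finset.sum_nonneg fun y _ =>
        mul_nonneg (mul_nonneg (hp.1 x) (hp.1 y)) (sq_nonneg _)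
      have h5 : 0 ≤ (s : ℝ) * B := mul_nonneg hs0 hB0
      nlinarith
    have e3 : 8 * (s : ℝ) ^ 3 * A ≤ 8 * s ^ 3 * (chi q p' + √m * (chi q p' * √(chi q p'))) :=
      mul_le_mul_of_nonneg_left hAle (by positivity)
    have e4 : 4 * (s : ℝ) ^ 2 * B ≤ 4 * s ^ 2 * (2 * m * (1 + chi q p')) :=
      mul_le_mul_of_nonneg_left hBle (by positivity)
    have e5 : 4 * (s : ℝ) ^ 2 * (2 * m * (1 + chi q p')) ≤ 16 * s ^ 2 * m * (1 + chi q p') := by
      have : 0 ≤ (s : ℝ) ^ 2 * m * (1 + chi q p') := by positivity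
      nlinarith
    linarith

end Pool.Agent.BinUp
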