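import Pool.Agent.BinUp.Prob

/-! MP_f7f4e7_lc, upper bound, module UStat. -/

namespace Pool.Agent.BinUp

open Finset Pool.Agent.Binning

/-- averaging over one coordinate -/
theorem UStat_avg {n s : ℕ} {p : Fin n → ℝ} (hp : IsDist p) (a : Fin s)
    (F : (Fin s → Fin n) → ℝ) :
    Ex p s F = Ex p s (fun ω => ∑ x, p x * F (Function.update ω a x)) := by
  have key : ∀ ω : Fin s → Fin n, ∏ b, p (ω b) = p (ω a) * ∏ b ∈ univ.erase a, p (ω b) := by
    intro ω
    rw [Finset.mul_prod_erase univ (fun b => p (ω b)) (mem_univ a)]
  have key2 : ∀ (ω : Fin s → Fin n) (x : Fin n),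
      ∏ b ∈ univ.erase a, p (Function.update ω a x b) = ∏ b ∈ univ.erase a, p (ω b) := by
    intro ω x
    apply Finset.prod_congr rfl
    intro b hb
    rw [Function.update_of_ne (Finset.ne_of_mem_erase hb)]
  have h1 : Ex p s F = ∑ z : (Fin s → Fin n) × Fin n, (∏ b, p (z.1 b)) * p z.2 * F z.1 := by
    unfold Ex
    rw [Fintype.sum_prod_type]
    apply Finset.sum_congr rfl
    intro ω _
    have : ∑ x : Fin n, (∏ b, p (ω b)) * p x * F ω = (∏ b, p (ω b)) * F ω * ∑ x : Fin n, p x := by
      rw [Finset.mul_sum]
      apply Finset.sum_congr rfl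
      intro x _
      ring
    simp only
    rw [this, hp.2, mul_one]
  have h2 : Ex p s (fun ω => ∑ x, p x * F (Function.update ω a x)) =
      ∑ z : (Fin s → Fin n) × Fin n, (∏ b, p (z.1 b)) * p z.2 * F (Function.update z.1 a z.2) := by
    unfold Ex
    rw [Fintype.sum_prod_type]
    apply Finset.sum_congr rfl
    intro ω _
    rw [Finset.mul_sum]
    apply Finset.sum_congr rfl
    intro x _
    ring
  rw [h1, h2]
  let e : (Fin s → Fin n) × Fin n ≃ (Fin s → Fin n) × Fin n :=
    { toFun := fun z => (Function.update z.1 a z.2, z.1 a)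
      invFun := fun z => (Function.update z.1 a z.2, z.1 a)
      left_inv := by
        rintro ⟨ω, x⟩
        simp
      right_inv := by
        rintro ⟨ω, x⟩
        simp }
  rw [← Equiv.sum_comp e]
  apply Finset.sum_congr rfl
  rintro ⟨ω, x⟩ _
  have he : e (ω, x) = (Function.update ω a x, ω a) := rfl
  rw [he]
  simp only
  rw [key (Function.update ω a x), key ω, key2, Function.update_self]
  ring

/-- if averaging over a coordinate gives zero, the expectation is zero -/
theorem UStat_zero {n s : ℕ} {p : Fin n → ℝ} (hp : IsDist p) (a : Fin s)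
    (F : (Fin s → Fin n) → ℝ) (h : ∀ ω, ∑ x, p x * F (Function.update ω a x) = 0) :
    Ex p s F = 0 := by
  rw [UStat_avg hp a]
  have : (fun ω : Fin s → Fin n => ∑ x, p x * F (Function.update ω a x)) = fun _ => 0 := by
    funext ω
    exact h ω
  rw [this, Ex_const hp]

theorem UStat_one {n s : ℕ} {p : Fin n → ℝ} (hp : IsDist p) (a : Fin s) (g : Fin n → ℝ) :
    Ex p s (fun ω => g (ω a)) = ∑ x, p x * g x := by
  rw [UStat_avg hp a]
  simp only [Function.update_self]
  rw [Ex_const hp]

theorem UStat_two {n s : ℕ} {p : Fin n → ℝ} (hp : IsDist p) {a b : Fin s} (hab : b ≠ a)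
    (r : Fin n → Fin n → ℝ) :
    Ex p s (fun ω => r (ω a) (ω b)) = ∑ x, ∑ y, p x * p y * r x y := by
  rw [UStat_avg hp a]
  simp only [Function.update_self, Function.update_of_ne hab]
  rw [UStat_one hp b (fun y => ∑ x, p x * r x y)]
  rw [Finset.sum_comm]
  apply Finset.sum_congr rfl
  intro y _
  rw [Finset.mul_sum]
  apply Finset.sum_congr rfl
  intro x _
  ring

theorem UStat_Ex_sum {n s : ℕ} {p : Fin n → ℝ} {ι : Type*} (S : Finset ι)
    (F : ι → (Fin s → Fin n) → ℝ) :
    Ex p s (fun ω => ∑ i ∈ S, F i ω) = ∑ i ∈ S, Ex p s (F i) := by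
  unfold Ex
  rw [Finset.sum_comm]
  apply Finset.sum_congr rfl
  intro ω _
  rw [Finset.mul_sum]

theorem ust_lin {n s : ℕ} {p : Fin n → ℝ} (hp : IsDist p) {g : Fin n → ℝ} (hg : ∑ i, p i * g i = 0) :
    Ex p s (fun ω => (∑ a, g (ω a)) ^ 2) = s * ∑ i, p i * g i ^ 2 := by
  have h1 : (fun ω : Fin s → Fin n => (∑ a, g (ω a)) ^ 2) =
      fun ω => ∑ a, ∑ b, g (ω a) * g (ω b) := by
    funext ω
    rw [sq, Finset.sum_mul_sum]
  rw [h1, UStat_Ex_sum]
  have h2 : ∀ a : Fin s, Ex p s (fun ω => ∑ b, g (ω a) * g (ω b)) = ∑ i, p i * g i ^ 2 := by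
    intro a
    rw [UStat_Ex_sum]
    rw [Finset.sum_eq_single a]
    · have := UStat_one hp a (fun x => g x * g x)
      rw [this]
      apply Finset.sum_congr rfl
      intro x _
      ring
    · intro b _ hb
      apply UStat_zero hp b
      intro ω
      have : ∀ x, p x * (g (Function.update ω b x a) * g (Function.update ω b x b)) =
          g (ω a) * (p x * g x) := by
        intro x
        rw [Function.update_self, Function.update_of_ne (Ne.symm hb)]
        ring
      simp only [this]
      rw [← Finset.mul_sum, hg, mul_zero]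
    · intro h
      exact absurd (mem_univ a) h
  simp only [h2]
  rw [Finset.sum_const, card_univ, Fintype.card_fin, nsmul_eq_mul]

theorem UStat_four {n s : ℕ} {p : Fin n → ℝ} (hp : IsDist p) {r : Fin n → Fin n → ℝ}
    (hsymm : ∀ x y, r x y = r y x) (h0 : ∀ x, ∑ y, p y * r x y = 0) {a b c d : Fin s}
    (hab : b ≠ a) (hcd : d ≠ c) (h1 : ¬ (c = a ∧ d = b)) (h2 : ¬ (c = b ∧ d = a)) :
    Ex p s (fun ω => r (ω a) (ω b) * r (ω c) (ω d)) = 0 := by
  have h0' : ∀ y, ∑ x, p x * r x y = 0 := by
    intro y
    rw [← h0 y]
    apply Finset.sum_congr rfl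
    intro x _
    rw [hsymm]
  by_cases hca : c = a
  · -- then d ≠ b, d ≠ a : average over d
    have hdb : d ≠ b := fun h => h1 ⟨hca, h⟩
    have hda : d ≠ a := hca ▸ hcd
    apply UStat_zero hp d
    intro ω
    have : ∀ x, p x * (r (Function.update ω d x a) (Function.update ω d x b) *
        r (Function.update ω d x c) (Function.update ω d x d)) =
          r (ω a) (ω b) * (p x * r (ω c) x) := by
      intro x
      rw [Function.update_self, Function.update_of_ne (Ne.symm hda),
        Function.update_of_ne (Ne.symm hdb), Function.update_of_ne (Ne.symm hcd)]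
      ring
    simp only [this]
    rw [← Finset.mul_sum, h0, mul_zero]
  · by_cases hcb : c = b
    · have hda : d ≠ a := fun h => h2 ⟨hcb, h⟩
      have hdb : d ≠ b := hcb ▸ hcd
      apply UStat_zero hp d
      intro ω
      have : ∀ x, p x * (r (Function.update ω d x a) (Function.update ω d x b) *
          r (Function.update ω d x c) (Function.update ω d x d)) =
            r (ω a) (ω b) * (p x * r (ω c) x) := by
        intro x
        rw [Function.update_self, Function.update_of_ne (Ne.symm hda),
          Function.update_of_ne (Ne.symm hdb), Function.update_of_ne (Ne.symm hcd)]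
        ring
      simp only [this]
      rw [← Finset.mul_sum, h0, mul_zero]
    · apply UStat_zero hp c
      intro ω
      have : ∀ x, p x * (r (Function.update ω c x a) (Function.update ω c x b) *
          r (Function.update ω c x c) (Function.update ω c x d)) =
            r (ω a) (ω b) * (p x * r x (ω d)) := by
        intro x
        rw [Function.update_self, Function.update_of_ne (Ne.symm hca),
          Function.update_of_ne (Ne.symm hcb), Function.update_of_ne hcd]
        ring
      simp only [this]
      rw [← Finset.mul_sum, h0', mul_zero]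

theorem ust_deg {n s : ℕ} {p : Fin n → ℝ} (hp : IsDist p) {r : Fin n → Fin n → ℝ}
    (hsymm : ∀ x y, r x y = r y x) (h0 : ∀ x, ∑ y, p y * r x y = 0) :
    Ex p s (fun ω => (∑ a, ∑ b ∈ univ.erase a, r (ω a) (ω b)) ^ 2) =
      2 * s * (s - 1) * ∑ x, ∑ y, p x * p y * r x y ^ 2 := by
  set V := ∑ x, ∑ y, p x * p y * r x y ^ 2 with hV
  have h1 : (fun ω : Fin s → Fin n => (∑ a, ∑ b ∈ univ.erase a, r (ω a) (ω b)) ^ 2) =
      fun ω => ∑ a, ∑ b ∈ univ.erase a, ∑ c, ∑ d ∈ univ.erase c,
        r (ω a) (ω b) * r (ω c) (ω d) := by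
    funext ω
    rw [sq, Finset.sum_mul]
    apply Finset.sum_congr rfl
    intro a _
    rw [Finset.sum_mul]
    apply Finset.sum_congr rfl
    intro b _
    rw [Finset.mul_sum]
    apply Finset.sum_congr rfl
    intro c _
    rw [Finset.mul_sum]
  rw [h1, UStat_Ex_sum]
  have h2 : ∀ a : Fin s, ∀ b ∈ univ.erase a,
      Ex p s (fun ω => ∑ c, ∑ d ∈ univ.erase c, r (ω a) (ω b) * r (ω c) (ω d)) = 2 * V := by
    intro a b hb
    have hba : b ≠ a := Finset.ne_of_mem_erase hb
    rw [UStat_Ex_sum]
    have h3 : ∀ c : Fin s, Ex p s (fun ω => ∑ d ∈ univ.erase c, r (ω a) (ω b) * r (ω c) (ω d)) =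
        (if c = a then V else 0) + (if c = b then V else 0) := by
      intro c
      rw [UStat_Ex_sum]
      by_cases hca : c = a
      · subst hca
        rw [if_pos rfl, if_neg (Ne.symm hba), add_zero]
        rw [Finset.sum_eq_single b]
        · have := UStat_two hp hba (fun x y => r x y * r x y)
          rw [this, hV]
          apply Finset.sum_congr rfl
          intro x _
          apply Finset.sum_congr rfl
          intro y _
          ring
        · intro d hd hdb
          apply UStat_four hp hsymm h0 hba (Finset.ne_of_mem_erase hd)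
          · rintro ⟨_, h⟩
            exact hdb h
          · rintro ⟨h, _⟩
            exact hba h.symm
        · intro h
          exact absurd hb h
      · by_cases hcb : c = b
        · subst hcb
          rw [if_neg hba, if_pos rfl, zero_add]
          rw [Finset.sum_eq_single a]
          · have h5 : (fun ω : Fin s → Fin n => r (ω a) (ω c) * r (ω c) (ω a)) =
                fun ω => (fun x y => r x y * r x y) (ω a) (ω c) := by
              funext ω
              simp only
              rw [hsymm (ω c) (ω a)]
            rw [h5]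
            have := UStat_two hp hba (fun x y => r x y * r x y)
            rw [this, hV]
            apply Finset.sum_congr rfl
            intro x _
            apply Finset.sum_congr rfl
            intro y _
            ring
          · intro d hd hda
            apply UStat_four hp hsymm h0 hba (Finset.ne_of_mem_erase hd)
            · rintro ⟨h, _⟩
              exact hba h
            · rintro ⟨_, h⟩
              exact hda h
          · intro h
            exact absurd (Finset.mem_erase.mpr ⟨Ne.symm hba, mem_univ a⟩) h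
        · rw [if_neg hca, if_neg hcb, add_zero]
          apply Finset.sum_eq_zero
          intro d hd
          apply UStat_four hp hsymm h0 hba (Finset.ne_of_mem_erase hd)
          · rintro ⟨h, _⟩
            exact hca h
          · rintro ⟨h, _⟩
            exact hcb h
    simp only [h3]
    rw [Finset.sum_add_distrib, Finset.sum_ite_eq' univ a, Finset.sum_ite_eq' univ b]
    simp
    ring
  have h4 : ∀ a : Fin s, Ex p s (fun ω => ∑ b ∈ univ.erase a, ∑ c, ∑ d ∈ univ.erase c,
        r (ω a) (ω b) * r (ω c) (ω d)) = ((s : ℝ) - 1) * (2 * V) := by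
    intro a
    rw [UStat_Ex_sum, Finset.sum_congr rfl (h2 a), Finset.sum_const,
      Finset.card_erase_of_mem (mem_univ a), card_univ, Fintype.card_fin, nsmul_eq_mul]
    have hs : 1 ≤ s := by
      have := a.2
      omega
    rw [Nat.cast_sub hs]
    simp
  simp only [h4]
  rw [Finset.sum_const, card_univ, Fintype.card_fin, nsmul_eq_mul]
  ring

end Pool.Agent.BinUp
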